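import Pool.Agent.V8H63.W3.Fin

set_option autoImplicit false

/-!
# Definitions for the degree `n - 1` of Goncharov's complexes

`e j : (B_2(F) ⊗ Λ^j F^*)_ℚ → (Λ^(j+2) F^*)_ℚ` are the last differentials of the complexes
`Γ(F, j + 2) ⊗ ℚ`.
-/

namespace Pool.Agent.V8H63.NF

open GonP Pool.Agent.V8H63.W3

variable {F : Type} [Field F]

/-- `H^(n-1)(Γ(F,n) ⊗ ℚ) = 0` for `n = j + 3`: the kernel of
`e (j+1) : (B_2(F) ⊗ Λ^(n-2) F^*)_ℚ → (Λ^n F^*)_ℚ` is spanned by the elements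
`({x}_2 ⊗ x ∧ y_1 ∧ ... ∧ y_j) ⊗ 1`, the image of `(B_3(F) ⊗ Λ^(n-3) F^*)_ℚ`. -/
def Vanish (e : ∀ j, TQ F 2 j → LQ F (j + 2)) (j : ℕ) : Prop :=
  ∀ u : TQ F 2 (j + 1), e (j + 1) u = 0 ↔ u ∈ Submodule.span ℚ (ImageB3 F j)

/-- The kernel of `e (j+1)` is spanned by `A` and a finite set. -/
def FinMod (e : ∀ j, TQ F 2 j → LQ F (j + 2)) (j : ℕ) (A : Set (TQ F 2 (j + 1))) : Prop :=
  ∃ S : Set (TQ F 2 (j + 1)), S.Finite ∧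
    ∀ u : TQ F 2 (j + 1), e (j + 1) u = 0 ↔ u ∈ Submodule.span ℚ (A ∪ S)

/-- `K_2(F) ⊗ ℚ`, the cokernel of `e 0 : B_2(F)_ℚ → (Λ² F^*)_ℚ`, is generated by the symbols
`{x, y}` with `x ∈ X` and `y ∈ F^*`. -/
def SymGen (e : ∀ j, TQ F 2 j → LQ F (j + 2)) (X : Finset (UV F)) : Prop :=
  ∀ w : LQ F 2, w ∈ Submodule.span ℚ
    (Set.range (e 0) ∪ {v | ∃ x ∈ X, ∃ y : UV F, v = lq 2 ![x, y]})

end Pool.Agent.V8H63.NF
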