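import Pool.Agent.V8H63.NF.Fld

set_option autoImplicit false
set_option linter.unusedSectionVars false

/-!
# All weights
-/

namespace Pool.Agent.V8H63.NF

open scoped TensorProduct
open NumberField H39Gon H39Gon.TaskB H39Gon.E2 Pool.Agent.V8H63.W3

variable {F : Type} [Field F] [NumberField F]

/-- functionals killing `R_2` satisfy the five-term relation -/
theorem Ft_of_r2 (θ : ZP F →ₗ[ℤ] ℚ) (hθ : ∀ r ∈ R 2 F, θ r = 0) :
    Ft (fun a b : 𝓞 F => θ (Finsupp.single (some ((a : F) / b)) 1)) where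
  smul l a b hl _ _ _ := by
    have hl' : (l : F) ≠ 0 := by simpa using hl
    have h1 : ((l * a : 𝓞 F) : F) = l * a := rfl
    have h2 : ((l * b : 𝓞 F) : F) = l * b := rfl
    simp only [h1, h2]
    rw [mul_div_mul_left _ _ hl']
  swap a b ha hb _ := by
    have ha' : (a : F) ≠ 0 := by simpa using ha
    have hb' : (b : F) ≠ 0 := by simpa using hb
    have h := ee_inv' θ hθ ((a : F) / b) (div_ne_zero ha' hb')
    unfold ee at h
    rw [inv_div] at h
    linarith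
  osub a b _ hb _ := by
    have hb' : (b : F) ≠ 0 := by simpa using hb
    have h := ee_sub θ hθ ((a : F) / b)
    unfold ee at h
    have h1 : 1 - (a : F) / b = ((b - a : 𝓞 F) : F) / b := by
      have : ((b - a : 𝓞 F) : F) = (b : F) - a := rfl
      rw [this]
      field_simp
    rw [h1] at h
    linarith
  five a b d ha hb hd hab hdb hda := by
    have ha' : (a : F) ≠ 0 := by simpa using ha
    have hb' : (b : F) ≠ 0 := by simpa using hb
    have hd' : (d : F) ≠ 0 := by simpa using hd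
    have ne : ∀ x y : 𝓞 F, x - y ≠ 0 → (x : F) - y ≠ 0 := fun x y h h' => h (by
      rw [sub_eq_zero] at h' ⊢
      exact RingOfIntegers.ext h')
    have hab' := ne a b hab
    have hdb' := ne d b hdb
    have hda' := ne d a hda
    have e1 : ((d - b : 𝓞 F) : F) = (d : F) - b := rfl
    have e2 : ((a - b : 𝓞 F) : F) = (a : F) - b := rfl
    have e3 : ((a * (d - b) : 𝓞 F) : F) = (a : F) * (d - b) := rfl
    have e4 : ((b * (d - a) : 𝓞 F) : F) = (b : F) * (d - a) := rfl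
    have h1 : (a : F) / b ≠ 1 := fun h => hab' (by rw [(div_eq_one_iff_eq hb').1 h, sub_self])
    have h2 : (d : F) / b ≠ 1 := fun h => hdb' (by rw [(div_eq_one_iff_eq hb').1 h, sub_self])
    have h3 : (d : F) / b ≠ (a : F) / b := by
      intro h
      apply hda'
      rw [div_left_inj' hb'] at h
      rw [h, sub_self]
    have h := ee_five θ hθ ((a : F) / b) ((d : F) / b) (div_ne_zero ha' hb') h1
      (div_ne_zero hd' hb') h2 h3
    unfold ee at h
    have g1 : (d : F) / b / ((a : F) / b) = d / a := by field_simp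
    have g2 : ((d : F) / b - 1) / ((a : F) / b - 1) = (d - b) / (a - b) := by
      have k1 : (d : F) / b - 1 = (d - b) / b := by field_simp
      have k2 : (a : F) / b - 1 = (a - b) / b := by field_simp
      rw [k1, k2]
      field_simp
    have g3 : (a : F) / b * ((d : F) / b - 1) / ((d : F) / b - (a : F) / b) =
        a * (d - b) / (b * (d - a)) := by
      have k1 : (d : F) / b - 1 = (d - b) / b := by field_simp
      have k2 : (d : F) / b - (a : F) / b = (d - a) / b := by field_simp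
      rw [k1, k2]
      field_simp
    rw [g1, g2, g3] at h
    simp only [e1, e2, e3, e4]
    exact h

section basic

variable {V : Type} [AddCommGroup V]

theorem cons_swap {j : ℕ} (f : V [⋀^Fin (j + 2)]→ₗ[ℤ] ℚ) (x y : V) (z : Fin j → V) :
    f (Fin.cons x (Fin.cons y z)) = - f (Fin.cons y (Fin.cons x z)) := by
  have h := f.map_swap (Fin.cons y (Fin.cons x z) : Fin (j + 2) → V)
    (i := 0) (j := 1) (by simp)
  rw [← h]
  congr 1
  funext k
  refine Fin.cases ?_ (fun k => ?_) k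
  · simp
  · refine Fin.cases ?_ (fun k => ?_) k
    · simp
    · rw [Function.comp_apply, Equiv.swap_apply_of_ne_of_ne (by simp [Fin.ext_iff])
        (by simp [Fin.ext_iff])]
      simp

/-- evaluation of an alternating form in one variable -/
noncomputable def ev1 (V : Type) [AddCommGroup V] : (V [⋀^Fin 1]→ₗ[ℤ] ℚ) →ₗ[ℤ] (V →ₗ[ℤ] ℚ) where
  toFun f := (AlternatingMap.ofSubsingleton ℤ V ℚ (0 : Fin 1)).symm f
  map_add' _ _ := rfl
  map_smul' _ _ := rfl

theorem ev1_apply (f : V [⋀^Fin 1]→ₗ[ℤ] ℚ) (v : V) : ev1 V f v = f (fun _ => v) := rfl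

end basic

/-- the conditions on a functional -/
structure Good {i : ℕ} (Q : Set (𝓞 F × 𝓞 F))
    (Θ : ZP F →ₗ[ℤ] (UV F [⋀^Fin (i + 1)]→ₗ[ℤ] ℚ)) : Prop where
  r : ∀ α ∈ R 2 F, Θ α = 0
  dec : ∀ (x : F) (y : Fin i → UV F), x ≠ 0 →
    Θ (Finsupp.single (some x) 1) (Fin.cons (cl x) y) = 0
  fin : ∀ h, δF F h = 0 → ∃ h', δF F h' = 0 ∧
    h' ∈ Submodule.span ℚ ((fun q : 𝓞 F × 𝓞 F => sbF q.1 q.2) '' Q) ∧ lf Θ h = lf Θ h'

/-- fixing the first variable -/
noncomputable def fixz {i : ℕ} (Θ : ZP F →ₗ[ℤ] (UV F [⋀^Fin (i + 1 + 1)]→ₗ[ℤ] ℚ)) (z : UV F) :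
    ZP F →ₗ[ℤ] (UV F [⋀^Fin (i + 1)]→ₗ[ℤ] ℚ) :=
  (AlternatingMap.curryLeftLinearMap.flip z) ∘ₗ Θ

theorem fixz_apply {i : ℕ} (Θ : ZP F →ₗ[ℤ] (UV F [⋀^Fin (i + 1 + 1)]→ₗ[ℤ] ℚ)) (z : UV F)
    (α : ZP F) (y : Fin (i + 1) → UV F) : fixz Θ z α y = Θ α (Fin.cons z y) := rfl

theorem lf_fixz {i : ℕ} (Θ : ZP F →ₗ[ℤ] (UV F [⋀^Fin (i + 1 + 1)]→ₗ[ℤ] ℚ)) (z : UV F)
    (d : DQ F) (y : Fin (i + 1) → UV F) : lf (fixz Θ z) d y = lf Θ d (Fin.cons z y) := by
  revert d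
  apply tens_ind
  · rw [map_zero, map_zero]; rfl
  · intro a b ha hb
    rw [map_add, map_add, AlternatingMap.add_apply, AlternatingMap.add_apply, ha, hb]
  · intro q a ha
    rw [map_smul, map_smul, AlternatingMap.smul_apply, AlternatingMap.smul_apply, ha]
  · intro v
    rw [lf_apply, lf_apply, fixz_apply]

theorem Good.fixz {i : ℕ} {Q : Set (𝓞 F × 𝓞 F)}
    {Θ : ZP F →ₗ[ℤ] (UV F [⋀^Fin (i + 1 + 1)]→ₗ[ℤ] ℚ)} (h : Good Q Θ) (z : UV F) :
    Good Q (fixz Θ z) where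
  r α hα := by
    ext y
    rw [fixz_apply, h.r α hα]
    rfl
  dec x y hx := by
    rw [fixz_apply, cons_swap, h.dec x _ hx, neg_zero]
  fin d hd := by
    obtain ⟨h', h1, h2, h3⟩ := h.fin d hd
    refine ⟨h', h1, h2, ?_⟩
    ext y
    rw [lf_fixz, lf_fixz, h3]

variable (hs : Function.Surjective (e1e F 0))

/-- `Θ(z ∧ x; ·)` -/
noncomputable def Wb {i : ℕ} (Θ : ZP F →ₗ[ℤ] (UV F [⋀^Fin (i + 1)]→ₗ[ℤ] ℚ)) (z x : UV F) :
    UV F [⋀^Fin (i + 1)]→ₗ[ℤ] ℚ := lf Θ ((blF hs).s (lq F 2 ![z, x]))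

theorem Wb_fixz {i : ℕ} (Θ : ZP F →ₗ[ℤ] (UV F [⋀^Fin (i + 1 + 1)]→ₗ[ℤ] ℚ)) (z x w : UV F)
    (y : Fin (i + 1) → UV F) : Wb hs (fixz Θ w) z x y = Wb hs Θ z x (Fin.cons w y) :=
  lf_fixz Θ w _ y

theorem span_cF : Submodule.span ℚ (Set.range (cF F).c) = ⊤ := by
  rw [eq_top_iff]
  rintro x -
  revert x
  apply tens_ind
  · exact Submodule.zero_mem _
  · exact fun a b ha hb => Submodule.add_mem _ ha hb
  · exact fun q a ha => Submodule.smul_mem _ _ ha
  · intro v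
    obtain ⟨f, hf, rfl⟩ := exists_cl v
    obtain ⟨a, b, hb, rfl⟩ := exists_frac f
    have hb' : (b : F) ≠ 0 := by simpa using hb
    have ha' : (a : F) ≠ 0 := by
      intro h
      rw [h, zero_div] at hf
      exact hf rfl
    rw [cl_div ha' hb', TensorProduct.tmul_sub]
    exact Submodule.sub_mem _ (Submodule.subset_span ⟨a, rfl⟩) (Submodule.subset_span ⟨b, rfl⟩)

/-- the functional on `D ⊗ M` -/
noncomputable def phi0 (Θ : ZP F →ₗ[ℤ] (UV F [⋀^Fin (0 + 1)]→ₗ[ℤ] ℚ)) :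
    DQ F →ₗ[ℚ] MQ F →ₗ[ℚ] ℚ := lf (lf ∘ₗ (ev1 (UV F)) ∘ₗ Θ)

theorem phi0_apply (Θ : ZP F →ₗ[ℤ] (UV F [⋀^Fin (0 + 1)]→ₗ[ℤ] ℚ)) (d : DQ F) :
    phi0 Θ d = lf (ev1 (UV F) (lf Θ d)) := by
  revert d
  apply tens_ind
  · rw [map_zero, map_zero, map_zero, map_zero]
  · intro a b ha hb
    rw [map_add, map_add, map_add, map_add, ha, hb]
  · intro q a ha
    rw [map_smul, map_smul, ha]
    apply TensorProduct.AlgebraTensorModule.curry_injective
    ext v
    change q • lf (ev1 (UV F) (lf Θ a)) ((1 : ℚ) ⊗ₜ[ℤ] v) =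
      lf (ev1 (UV F) (q • lf Θ a)) ((1 : ℚ) ⊗ₜ[ℤ] v)
    rw [lf_apply, lf_apply, ev1_apply, ev1_apply]
    rfl
  · intro v
    unfold phi0
    rw [lf_apply, lf_apply]
    rfl

theorem phi0_apply' (Θ : ZP F →ₗ[ℤ] (UV F [⋀^Fin (0 + 1)]→ₗ[ℤ] ℚ)) (d : DQ F) (v : UV F) :
    phi0 Θ d ((1 : ℚ) ⊗ₜ[ℤ] v) = lf Θ d (fun _ => v) := by
  rw [phi0_apply, lf_apply, ev1_apply]

theorem okf_phi0 {Q : Set (𝓞 F × 𝓞 F)} {Θ : ZP F →ₗ[ℤ] (UV F [⋀^Fin (0 + 1)]→ₗ[ℤ] ℚ)}
    (h : Good Q Θ) : Okf (blF hs) Q (phi0 Θ) where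
  ft y := by
    let θ : ZP F →ₗ[ℤ] ℚ := AddMonoidHom.toIntLinearMap
      { toFun := fun α => phi0 Θ ((1 : ℚ) ⊗ₜ[ℤ] α) y
        map_zero' := by rw [TensorProduct.tmul_zero, map_zero]; rfl
        map_add' := fun a b => by rw [TensorProduct.tmul_add, map_add]; rfl }
    have hθ : ∀ r ∈ R 2 F, θ r = 0 := by
      intro r hr
      change phi0 Θ ((1 : ℚ) ⊗ₜ[ℤ] r) y = 0
      rw [phi0_apply, lf_apply, h.r r hr, map_zero, map_zero]
      rfl
    exact Ft_of_r2 θ hθ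
  dec a b ha hb _ := by
    have ha' : (a : F) ≠ 0 := by simpa using ha
    have hb' : (b : F) ≠ 0 := by simpa using hb
    rw [cF_c, cF_c, ← TensorProduct.tmul_sub, ← cl_div ha' hb', phi0_apply']
    change lf Θ ((1 : ℚ) ⊗ₜ[ℤ] Finsupp.single (some ((a : F) / b)) 1) _ = 0
    rw [lf_apply]
    have h1 := h.dec ((a : F) / b) Fin.elim0 (div_ne_zero ha' hb')
    convert h1 using 2
    funext k
    refine Fin.cases rfl (fun k => k.elim0) k
  fin d hd := by
    obtain ⟨h', h1, h2, h3⟩ := h.fin d hd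
    refine ⟨h', h1, h2, fun y => ?_⟩
    rw [phi0_apply, phi0_apply, h3]

/-- the classes of a set of integers -/
def XV (X : Set (𝓞 F)) : Set (UV F) := (fun x : 𝓞 F => cl (x : F)) '' X

/-- **The theorem on functionals, all weights.** -/
theorem claim (Q : Set (𝓞 F × 𝓞 F)) (hQf : Q.Finite)
    (hQ0 : ∀ q ∈ Q, q.1 ≠ 0 ∧ q.2 ≠ 0 ∧ q.1 - q.2 ≠ 0) : ∃ X : Set (UV F), X.Finite ∧
    ∀ (i : ℕ) (Θ : ZP F →ₗ[ℤ] (UV F [⋀^Fin (i + 1)]→ₗ[ℤ] ℚ)), Good Q Θ →
      (∀ h, δF F h = 0 → ∀ y : Fin (i + 1) → UV F, (∀ k, y k ∈ X) → lf Θ h y = 0) →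
      (∀ x ∈ X, ∀ y ∈ X, ∀ z ∈ X, ∀ w : Fin i → UV F, (∀ k, w k ∈ X) →
        Wb hs Θ z x (Fin.cons y w) + Wb hs Θ z y (Fin.cons x w) = 0) →
      (∀ h, δF F h = 0 → ∀ y, lf Θ h y = 0) ∧ ∀ x y z w,
        Wb hs Θ z x (Fin.cons y w) + Wb hs Θ z y (Fin.cons x w) = 0 := by
  obtain ⟨X, hX, hX0, hXφ⟩ := thmA (cF F) (blF hs) Q hQf hQ0
  refine ⟨XV X, hX.image _, ?_⟩
  intro i
  induction i with
  | zero =>
    intro Θ hΘ b1 b2
    have hcons : ∀ (v : UV F) (w : Fin 0 → UV F), (Fin.cons v w : Fin (0 + 1) → UV F) =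
        fun _ => v := by
      intro v w
      funext k
      refine Fin.cases rfl (fun k => k.elim0) k
    obtain ⟨c1, c2⟩ := hXφ (phi0 Θ) (okf_phi0 hs hΘ) (by
      intro h hh x hx
      rw [cF_c, phi0_apply']
      exact b1 h hh _ (fun _ => ⟨x, hx, rfl⟩)) (by
      intro x hx y hy z hz
      have h1 := b2 _ ⟨x, hx, rfl⟩ _ ⟨y, hy, rfl⟩ _ ⟨z, hz, rfl⟩ Fin.elim0 (fun k => k.elim0)
      rw [hcons, hcons] at h1
      rw [Tf_apply, Ph_apply, Ph_apply, cF_c, cF_c, cF_c, phi0_apply', phi0_apply']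
      change lf Θ ((blF hs).s (wgF F _ _)) _ + lf Θ ((blF hs).s (wgF F _ _)) _ = 0
      rw [wgF_apply, wgF_apply]
      exact h1)
    constructor
    · intro h hh y
      have h1 : (⊤ : Submodule ℚ (MQ F)) ≤ LinearMap.ker (phi0 Θ h) := by
        rw [← span_cF, Submodule.span_le]
        rintro _ ⟨x, rfl⟩
        exact c1 h hh x
      have h2 : phi0 Θ h ((1 : ℚ) ⊗ₜ[ℤ] (y 0)) = 0 := h1 trivial
      rw [phi0_apply'] at h2
      rw [← h2]
      congr 1
      funext k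
      refine Fin.cases rfl (fun k => k.elim0) k
    · intro x y z w
      have h1 := span_zero (Tf (blF hs) (phi0 Θ)) (Set.range (cF F).c) (by
        rintro _ ⟨a, rfl⟩ _ ⟨b, rfl⟩ _ ⟨e, rfl⟩
        exact c2 a b e) ((1 : ℚ) ⊗ₜ[ℤ] x) (by rw [span_cF]; trivial) ((1 : ℚ) ⊗ₜ[ℤ] y)
        (by rw [span_cF]; trivial) ((1 : ℚ) ⊗ₜ[ℤ] z) (by rw [span_cF]; trivial)
      rw [Tf_apply, Ph_apply, Ph_apply, phi0_apply', phi0_apply'] at h1
      rw [hcons, hcons]
      change lf Θ ((blF hs).s (wgF F _ _)) _ + lf Θ ((blF hs).s (wgF F _ _)) _ = 0 at h1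
      rw [wgF_apply, wgF_apply] at h1
      exact h1
  | succ i ih =>
    intro Θ hΘ b1 b2
    -- first the elements of `X`
    have s1 : ∀ z ∈ XV X, (∀ h, δF F h = 0 → ∀ y, lf Θ h (Fin.cons z y) = 0) ∧ ∀ x y v w,
        Wb hs Θ v x (Fin.cons z (Fin.cons y w)) + Wb hs Θ v y (Fin.cons z (Fin.cons x w)) = 0 := by
      intro z hz
      obtain ⟨c1, c2⟩ := ih (fixz Θ z) (hΘ.fixz z) (by
        intro h hh y hy
        rw [lf_fixz]
        refine b1 h hh _ (fun k => ?_)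
        refine Fin.cases ?_ (fun k => ?_) k
        · exact hz
        · exact hy k) (by
        intro x hx y hy v hv w hw
        rw [Wb_fixz, Wb_fixz, cons_swap, cons_swap _ z x]
        have h1 := b2 x hx y hy v hv (Fin.cons z w) (fun k => by
          refine Fin.cases ?_ (fun k => ?_) k
          · exact hz
          · exact hw k)
        linarith)
      refine ⟨fun h hh y => ?_, fun x y v w => ?_⟩
      · rw [← lf_fixz]
        exact c1 h hh y
      · rw [← Wb_fixz, ← Wb_fixz]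
        exact c2 x y v w
    -- then all elements
    have s2 : ∀ z, (∀ h, δF F h = 0 → ∀ y, lf Θ h (Fin.cons z y) = 0) ∧ ∀ x y v w,
        Wb hs Θ v x (Fin.cons z (Fin.cons y w)) + Wb hs Θ v y (Fin.cons z (Fin.cons x w)) = 0 := by
      intro z
      obtain ⟨c1, c2⟩ := ih (fixz Θ z) (hΘ.fixz z) (by
        intro h hh y hy
        rw [lf_fixz]
        have e : y = Fin.cons (y 0) (Fin.tail y) := (Fin.cons_self_tail y).symm
        rw [e, cons_swap, (s1 (y 0) (hy 0)).1 h hh, neg_zero]) (by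
        intro x hx y hy v hv w hw
        rw [Wb_fixz, Wb_fixz]
        have h1 := (s1 y hy).2 x z v w
        have h2 := (s1 x hx).2 y z v w
        rw [cons_swap _ y z] at h1
        rw [cons_swap _ x z] at h2
        have h3 := cons_swap (Wb hs Θ v z) y x w
        linarith)
      refine ⟨fun h hh y => ?_, fun x y v w => ?_⟩
      · rw [← lf_fixz]
        exact c1 h hh y
      · rw [← Wb_fixz, ← Wb_fixz]
        exact c2 x y v w
    refine ⟨fun h hh y => ?_, fun x y z w => ?_⟩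
    · rw [← Fin.cons_self_tail y]
      exact (s2 (y 0)).1 h hh _
    · rw [← Fin.cons_self_tail w, cons_swap _ y, cons_swap _ x]
      have h1 := (s2 (w 0)).2 x y z (Fin.tail w)
      linarith

end Pool.Agent.V8H63.NF
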