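import Pool.Agent.V8H63.GD.Step
import Pool.Agent.V8H63.W3.Conv

set_option autoImplicit false
set_option linter.unusedSectionVars false

/-!
# The five-term relation in `B_2(F)`, from Goncharov's definition
-/

namespace Pool.Agent.V8H63.NF

open scoped TensorProduct
open Polynomial H39Gon H39Gon.TaskB Pool.Agent.V8H63.W3

variable {F : Type} [Field F]

section

variable (θ : ZP F →ₗ[ℤ] ℚ) (hθ : ∀ r ∈ R 2 F, θ r = 0)

include hθ

theorem r2_path (α : ZP (RatFunc F)) (hα : delta2 (RatFunc F) α = 0) (a : F) :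
    θ (specZ F 0 α) = θ (specZ F a α) := by
  have h := hθ _ (GD.path_AK 0 a α (LinearMap.mem_ker.2 hα))
  rw [map_sub] at h
  exact sub_eq_zero.1 h

theorem r2_zero : θ (Finsupp.single (some 0) 1) = 0 := by
  apply hθ
  rw [GD.R_eq]
  exact Submodule.subset_span (Or.inl (by simp))

theorem r2_inf : θ (Finsupp.single none 1) = 0 := by
  apply hθ
  rw [GD.R_eq]
  exact Submodule.subset_span (Or.inl (by simp))

end

section wedge

variable (V : Type) [AddCommGroup V]

theorem upd0 (a v x : V) : Function.update ![a, v] 0 x = ![x, v] := by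
  ext i; fin_cases i <;> simp

theorem upd1 (v a x : V) : Function.update ![v, a] 1 x = ![v, x] := by
  ext i; fin_cases i <;> simp

/-- the wedge product -/
noncomputable def wz : V →ₗ[ℤ] V →ₗ[ℤ] ⋀[ℤ]^2 V :=
  LinearMap.mk₂ ℤ (fun u v => exteriorPower.ιMulti ℤ 2 ![u, v])
    (fun a b v => by
      have := (exteriorPower.ιMulti ℤ 2 (M := V)).map_update_add ![a, v] 0 a b
      rwa [upd0, upd0, upd0] at this)
    (fun n a v => by
      have := (exteriorPower.ιMulti ℤ 2 (M := V)).map_update_smul ![a, v] 0 n a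
      rwa [upd0, upd0] at this)
    (fun v a b => by
      have := (exteriorPower.ιMulti ℤ 2 (M := V)).map_update_add ![v, a] 1 a b
      rwa [upd1, upd1, upd1] at this)
    (fun n v a => by
      have := (exteriorPower.ιMulti ℤ 2 (M := V)).map_update_smul ![v, a] 1 n a
      rwa [upd1, upd1] at this)

variable {V}

theorem wz_apply (u v : V) : wz V u v = exteriorPower.ιMulti ℤ 2 ![u, v] := rfl

theorem wz_self (u : V) : wz V u u = 0 := by
  rw [wz_apply, AlternatingMap.map_eq_zero_of_eq _ _ (i := 0) (j := 1) (by simp) (by simp)]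

theorem wz_swap (u v : V) : wz V u v = - wz V v u :=
  GD.alt_swap (wz V) wz_self u v

end wedge

/-- twice the wedge product -/
noncomputable def B2w (K : Type) [Field K] : UV K →ₗ[ℤ] UV K →ₗ[ℤ] ⋀[ℤ]^2 (UV K) :=
  (2 : ℕ) • wz (UV K)

theorem B2w_apply {K : Type} [Field K] (u v : UV K) :
    B2w K u v = (2 : ℕ) • wz (UV K) u v := rfl

theorem B2w_self {K : Type} [Field K] (u : UV K) : B2w K u u = 0 := by
  rw [B2w_apply, wz_self, smul_zero]

theorem B2w_swap {K : Type} [Field K] (u v : UV K) : B2w K u v = - B2w K v u :=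
  GD.alt_swap (B2w K) B2w_self u v

theorem B2w_neg {K : Type} [Field K] {x : K} (hx : x ≠ 0) :
    B2w K (cl (-x)) = B2w K (cl x) := by
  have h1 : cl (-x) = cl (-1 : K) + cl x := by rw [← cl_mul (by simp) hx, neg_one_mul]
  have h2 : B2w K (cl (-1 : K)) = 0 := by
    have h3 : B2w K (cl (-1 : K)) = wz (UV K) (2 • cl (-1 : K)) := by
      rw [map_nsmul]
      rfl
    rw [h3, two_cl_neg_one, map_zero]
  rw [h1, map_add, h2, zero_add]

theorem B2w_neg' {K : Type} [Field K] (u : UV K) {x : K} (hx : x ≠ 0) :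
    B2w K u (cl (-x)) = B2w K u (cl x) := by
  rw [B2w_swap, B2w_neg hx, ← B2w_swap]

/-- twice the value of `δ_2` -/
noncomputable def dd (K : Type) [Field K] (f : K) : ⋀[ℤ]^2 (UV K) :=
  B2w K (cl (1 - f)) (cl f)

theorem two_delta2 {K : Type} [Field K] (f : K) :
    delta2 K ((2 : ℕ) • Finsupp.single (some f) 1) = dd K f := by
  rw [map_nsmul, dd, B2w_apply]
  congr 1
  unfold delta2
  rw [Finsupp.linearCombination_single, one_smul]
  rfl

/-- `dd` of a quotient -/
theorem dd_div {K : Type} [Field K] {a b : K} (ha : a ≠ 0) (hb : b ≠ 0) (hab : a - b ≠ 0) :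
    dd K (a / b) = B2w K (cl (a - b) - cl b) (cl a - cl b) := by
  have h1 : 1 - a / b = -((a - b) / b) := by field_simp; ring
  rw [dd, h1, B2w_neg (div_ne_zero hab hb), cl_div hab hb, cl_div ha hb]

theorem dd_five {K : Type} [Field K] {a b d : K} (ha : a ≠ 0) (hb : b ≠ 0) (hd : d ≠ 0)
    (hab : a - b ≠ 0) (hdb : d - b ≠ 0) (hda : d - a ≠ 0) :
    dd K (a / b) - dd K (d / b) + dd K (d / a) - dd K ((d - b) / (a - b)) =
      dd K ((a * (d - b)) / (b * (d - a))) := by
  have h1 : d - b - (a - b) = d - a := by ring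
  have h2 : a * (d - b) - b * (d - a) = d * (a - b) := by ring
  rw [dd_div ha hb hab, dd_div hd hb hdb, dd_div hd ha hda, dd_div hdb hab (by rwa [h1]), h1,
    dd_div (mul_ne_zero ha hdb) (mul_ne_zero hb hda) (by rw [h2]; exact mul_ne_zero hd hab), h2,
    cl_mul ha hdb, cl_mul hb hda, cl_mul hd hab]
  generalize cl a = A
  generalize cl b = B
  generalize cl d = D
  generalize cl (a - b) = P
  generalize cl (d - b) = Q
  generalize cl (d - a) = S
  simp only [map_add, map_sub, LinearMap.add_apply, LinearMap.sub_apply, B2w_self]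
  simp only [B2w_swap B A, B2w_swap D A, B2w_swap D B, B2w_swap P A, B2w_swap P B,
    B2w_swap Q B, B2w_swap Q D, B2w_swap S A, B2w_swap S B,
    B2w_swap S D, B2w_swap S P, B2w_swap S Q]
  abel

theorem dd_inv {K : Type} [Field K] {x : K} (hx : x ≠ 0) (hx1 : x ≠ 1) :
    dd K x + dd K x⁻¹ = 0 := by
  have h0 : x - 1 ≠ 0 := sub_ne_zero.2 hx1
  have h0' : 1 - x ≠ 0 := sub_ne_zero.2 (Ne.symm hx1)
  have h1 : dd K x = dd K (x / 1) := by rw [div_one]
  have h2 : dd K x⁻¹ = dd K (1 / x) := by rw [one_div]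
  have h3 : cl (1 - x) = cl (-(x - 1)) := by rw [neg_sub]
  rw [h1, h2, dd_div hx one_ne_zero h0, dd_div one_ne_zero hx h0', h3, cl_one, sub_zero, sub_zero,
    zero_sub, map_neg, map_sub, LinearMap.sub_apply, B2w_self, sub_zero, B2w_neg h0]
  abel

theorem dd_sub {K : Type} [Field K] (x : K) : dd K x + dd K (1 - x) = 0 := by
  unfold dd
  rw [sub_sub_cancel, B2w_swap]
  abel

theorem spec_const (t x : F) : spec F t (some (RatFunc.C x)) = some x :=
  GD.spec_C t (some x)

theorem specZ_single (t : F) (f : P1 (RatFunc F)) (n : ℤ) :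
    specZ F t (Finsupp.single f n) = Finsupp.single (spec F t f) n := by
  rw [specZ, Finsupp.lmapDomain_apply, Finsupp.mapDomain_single]

/-- the value of a fraction of polynomials -/
theorem spec_frac (t : F) (a b : F[X]) (hb : b.eval t ≠ 0) (hab : IsCoprime a b) :
    spec F t (some (algebraMap F[X] (RatFunc F) a / algebraMap F[X] (RatFunc F) b)) =
      some (a.eval t / b.eval t) := by
  have hb0 : b ≠ 0 := by
    rintro rfl
    simp at hb
  rw [rm_spec_eq t a b hb0 hab _ rfl, if_neg hb]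

theorem spec_frac' (t : F) (a b : F[X]) (hb0 : b ≠ 0) (hb : b.eval t = 0) (hab : IsCoprime a b) :
    spec F t (some (algebraMap F[X] (RatFunc F) a / algebraMap F[X] (RatFunc F) b)) = none := by
  rw [rm_spec_eq t a b hb0 hab _ rfl, if_pos hb]

theorem sp2 (θ : ZP F →ₗ[ℤ] ℚ) (t : F) (f g : P1 (RatFunc F)) :
    θ (specZ F t ((2 : ℕ) • Finsupp.single f 1 + (2 : ℕ) • Finsupp.single g 1)) =
      2 * θ (Finsupp.single (spec F t f) 1) + 2 * θ (Finsupp.single (spec F t g) 1) := by
  simp only [map_add, map_nsmul, specZ_single, nsmul_eq_mul]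
  norm_num

theorem sp5 (θ : ZP F →ₗ[ℤ] ℚ) (t : F) (f g h k l : P1 (RatFunc F)) :
    θ (specZ F t ((2 : ℕ) • Finsupp.single f 1 - (2 : ℕ) • Finsupp.single g 1 +
      (2 : ℕ) • Finsupp.single h 1 - (2 : ℕ) • Finsupp.single k 1 -
      (2 : ℕ) • Finsupp.single l 1)) =
      2 * (θ (Finsupp.single (spec F t f) 1) - θ (Finsupp.single (spec F t g) 1) +
      θ (Finsupp.single (spec F t h) 1) - θ (Finsupp.single (spec F t k) 1) -
      θ (Finsupp.single (spec F t l) 1)) := by
  simp only [map_add, map_sub, map_nsmul, specZ_single, nsmul_eq_mul]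
  push_cast
  ring

theorem cop_C (a : F[X]) {u : F} (hu : u ≠ 0) : IsCoprime a (C u) :=
  ⟨0, C u⁻¹, by rw [zero_mul, zero_add, ← C_mul, inv_mul_cancel₀ hu, C_1]⟩

section

variable (θ : ZP F →ₗ[ℤ] ℚ) (hθ : ∀ r ∈ R 2 F, θ r = 0)

/-- the values -/
noncomputable def ee (x : F) : ℚ := θ (Finsupp.single (some x) 1)

include hθ

theorem ee_zero : ee θ 0 = 0 := r2_zero θ hθ

/-- `{x} + {1/x} = 0` -/
theorem ee_inv' (x : F) (hx : x ≠ 0) : ee θ x + ee θ x⁻¹ = 0 := by
  have hA : Function.Injective (algebraMap F[X] (RatFunc F)) := IsFractionRing.injective _ _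
  have hX : (RatFunc.X : RatFunc F) = algebraMap F[X] (RatFunc F) X /
      algebraMap F[X] (RatFunc F) 1 := by rw [map_one, div_one, RatFunc.algebraMap_X]
  have hXi : (RatFunc.X : RatFunc F)⁻¹ = algebraMap F[X] (RatFunc F) 1 /
      algebraMap F[X] (RatFunc F) X := by rw [map_one, one_div, RatFunc.algebraMap_X]
  set α : ZP (RatFunc F) := (2 : ℕ) • Finsupp.single (some RatFunc.X) 1 +
    (2 : ℕ) • Finsupp.single (some (RatFunc.X : RatFunc F)⁻¹) 1 with hα
  have hX0 : (RatFunc.X : RatFunc F) ≠ 0 := RatFunc.X_ne_zero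
  have hX1 : (RatFunc.X : RatFunc F) ≠ 1 := by
    rw [← RatFunc.algebraMap_X, ← map_one (algebraMap F[X] (RatFunc F))]
    intro h
    exact X_ne_C (1 : F) (by rw [C_1]; exact hA h)
  have h0 : delta2 (RatFunc F) α = 0 := by
    rw [hα, map_add, two_delta2, two_delta2, dd_inv hX0 hX1]
  have h1 := r2_path θ hθ α h0 x
  rw [hα, sp2 θ, sp2 θ] at h1
  rw [hXi, spec_frac' 0 1 X X_ne_zero (by simp) isCoprime_one_left, hX,
    spec_frac 0 X 1 (by simp) isCoprime_one_right, spec_frac x X 1 (by simp) isCoprime_one_right,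
    spec_frac x 1 X (by simpa using hx) isCoprime_one_left] at h1
  simp only [eval_X, eval_one, div_one, one_div] at h1
  rw [r2_zero θ hθ, r2_inf θ hθ] at h1
  have h2 : ee θ x = θ (Finsupp.single (some x) 1) := rfl
  have h3 : ee θ x⁻¹ = θ (Finsupp.single (some x⁻¹) 1) := rfl
  rw [h2, h3]
  linarith

theorem ee_one : ee θ 1 = 0 := by
  have h := ee_inv' θ hθ 1 one_ne_zero
  rw [inv_one] at h
  linarith

theorem ee_sub (x : F) : ee θ x + ee θ (1 - x) = 0 := by
  have hX : (RatFunc.X : RatFunc F) = algebraMap F[X] (RatFunc F) X /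
      algebraMap F[X] (RatFunc F) 1 := by rw [map_one, div_one, RatFunc.algebraMap_X]
  have hXi : (1 - RatFunc.X : RatFunc F) = algebraMap F[X] (RatFunc F) (1 - X) /
      algebraMap F[X] (RatFunc F) 1 := by
    rw [map_sub, map_one, div_one, RatFunc.algebraMap_X]
  set α : ZP (RatFunc F) := (2 : ℕ) • Finsupp.single (some RatFunc.X) 1 +
    (2 : ℕ) • Finsupp.single (some (1 - RatFunc.X : RatFunc F)) 1 with hα
  have h0 : delta2 (RatFunc F) α = 0 := by
    rw [hα, map_add, two_delta2, two_delta2, dd_sub]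
  have h1 := r2_path θ hθ α h0 x
  rw [hα, sp2 θ, sp2 θ] at h1
  rw [hXi, spec_frac 0 (1 - X) 1 (by simp) isCoprime_one_right, hX,
    spec_frac 0 X 1 (by simp) isCoprime_one_right, spec_frac x X 1 (by simp) isCoprime_one_right,
    spec_frac x (1 - X) 1 (by simp) isCoprime_one_right] at h1
  simp only [eval_X, eval_one, eval_sub, div_one, sub_zero] at h1
  have e0 : θ (Finsupp.single (some (0 : F)) 1) = 0 := r2_zero θ hθ
  have e1 : θ (Finsupp.single (some (1 : F)) 1) = 0 := ee_one θ hθ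
  rw [e0, e1] at h1
  have h2 : ee θ x = θ (Finsupp.single (some x) 1) := rfl
  have h3 : ee θ (1 - x) = θ (Finsupp.single (some (1 - x)) 1) := rfl
  rw [h2, h3]
  linarith

/-- the five-term relation -/
theorem ee_five (x y : F) (hx0 : x ≠ 0) (hx1 : x ≠ 1) (_hy0 : y ≠ 0) (hy1 : y ≠ 1) (hxy : y ≠ x) :
    ee θ x - ee θ y + ee θ (y / x) - ee θ ((y - 1) / (x - 1)) =
      ee θ (x * (y - 1) / (y - x)) := by
  have hA : Function.Injective (algebraMap F[X] (RatFunc F)) := IsFractionRing.injective _ _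
  have hx1' : x - 1 ≠ 0 := sub_ne_zero.2 hx1
  have hy1' : y - 1 ≠ 0 := sub_ne_zero.2 hy1
  have hxy' : y - x ≠ 0 := sub_ne_zero.2 hxy
  set T : RatFunc F := RatFunc.X with hT
  have hTa : T = algebraMap F[X] (RatFunc F) X := RatFunc.algebraMap_X.symm
  have hCa : ∀ c : F, RatFunc.C c = algebraMap F[X] (RatFunc F) (C c) := fun c =>
    (RatFunc.algebraMap_C c).symm
  have hT0 : T ≠ 0 := RatFunc.X_ne_zero
  have hTc : ∀ c : F, T - RatFunc.C c ≠ 0 := by
    intro c
    rw [hTa, hCa, ← map_sub]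
    exact (map_ne_zero_iff _ hA).2 (X_sub_C_ne_zero c)
  have hT1 : T - 1 ≠ 0 := by have := hTc 1; rwa [map_one] at this
  have hCx : (RatFunc.C x : RatFunc F) ≠ 0 := by
    rw [hCa]; exact (map_ne_zero_iff _ hA).2 (C_ne_zero.2 hx0)
  have hCx1 : (RatFunc.C x : RatFunc F) - 1 ≠ 0 := by
    rw [← map_one RatFunc.C, ← map_sub, hCa]; exact (map_ne_zero_iff _ hA).2 (C_ne_zero.2 hx1')
  -- the five elements
  set α : ZP (RatFunc F) := (2 : ℕ) • Finsupp.single (some (RatFunc.C x / 1)) 1 -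
    (2 : ℕ) • Finsupp.single (some (T / 1)) 1 + (2 : ℕ) • Finsupp.single (some (T / RatFunc.C x)) 1 -
    (2 : ℕ) • Finsupp.single (some ((T - 1) / (RatFunc.C x - 1))) 1 -
    (2 : ℕ) • Finsupp.single (some ((RatFunc.C x * (T - 1)) / (1 * (T - RatFunc.C x)))) 1 with hα
  have h0 : delta2 (RatFunc F) α = 0 := by
    rw [hα, map_sub, map_sub, map_add, map_sub, two_delta2, two_delta2, two_delta2, two_delta2,
      two_delta2, dd_five hCx one_ne_zero hT0 hCx1 hT1 (hTc x), sub_self]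
  have r1 : (RatFunc.C x / 1 : RatFunc F) = algebraMap F[X] (RatFunc F) (C x) /
      algebraMap F[X] (RatFunc F) 1 := by rw [hCa, map_one]
  have r2 : (T / 1 : RatFunc F) = algebraMap F[X] (RatFunc F) X /
      algebraMap F[X] (RatFunc F) 1 := by rw [hTa, map_one]
  have r3 : (T / RatFunc.C x : RatFunc F) = algebraMap F[X] (RatFunc F) X /
      algebraMap F[X] (RatFunc F) (C x) := by rw [hTa, hCa]
  have r4 : ((T - 1) / (RatFunc.C x - 1) : RatFunc F) = algebraMap F[X] (RatFunc F) (X - 1) /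
      algebraMap F[X] (RatFunc F) (C x - 1) := by rw [hTa, hCa, map_sub, map_sub, map_one]
  have r5 : ((RatFunc.C x * (T - 1)) / (1 * (T - RatFunc.C x)) : RatFunc F) =
      algebraMap F[X] (RatFunc F) (C x * (X - 1)) / algebraMap F[X] (RatFunc F) (X - C x) := by
    rw [hTa, hCa, map_sub, map_mul, map_sub, map_one, one_mul]
  have c3 : IsCoprime (X : F[X]) (C x) := cop_C _ hx0
  have c4 : IsCoprime (X - 1 : F[X]) (C x - 1) := by
    rw [← C_1, ← C_sub]
    exact cop_C _ hx1'
  have c5 : IsCoprime (C x * (X - 1) : F[X]) (X - C x) := by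
    refine ⟨C (x * (x - 1))⁻¹, C (-(x - 1)⁻¹), ?_⟩
    have e1 : (C (x * (x - 1))⁻¹ : F[X]) * C x = C (x - 1)⁻¹ := by
      rw [← C_mul]
      congr 1
      field_simp
    have e2 : (C (x - 1)⁻¹ : F[X]) * C (x - 1) = 1 := by
      rw [← C_mul, inv_mul_cancel₀ hx1', C_1]
    rw [← mul_assoc, e1, C_neg]
    calc (C (x - 1)⁻¹ : F[X]) * (X - 1) + -C (x - 1)⁻¹ * (X - C x)
        = C (x - 1)⁻¹ * (C x - 1) := by ring
      _ = C (x - 1)⁻¹ * C (x - 1) := by rw [C_sub, C_1]
      _ = 1 := e2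
  have hsp : ∀ t : F, t ≠ x → θ (specZ F t α) = 2 * (ee θ x - ee θ t + ee θ (t / x) -
      ee θ ((t - 1) / (x - 1)) - ee θ (x * (t - 1) / (t - x))) := by
    intro t ht
    have ht' : t - x ≠ 0 := sub_ne_zero.2 ht
    rw [hα, sp5, r1, r2, r3, r4, r5,
      spec_frac t (C x) 1 (by simp) isCoprime_one_right,
      spec_frac t X 1 (by simp) isCoprime_one_right,
      spec_frac t X (C x) (by simpa using hx0) c3,
      spec_frac t (X - 1) (C x - 1) (by simpa using hx1') c4,
      spec_frac t (C x * (X - 1)) (X - C x) (by simpa using ht') c5]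
    simp only [eval_X, eval_one, eval_sub, eval_mul, eval_C, div_one]
    rfl
  have h1 := r2_path θ hθ α h0 y
  rw [hsp y hxy, hsp 0 (Ne.symm hx0)] at h1
  have e1 : x * (0 - 1) / (0 - x) = 1 := by field_simp; ring
  have e2 : (0 - 1) / (x - 1) = (1 - x)⁻¹ := by
    rw [show (0 - 1 : F) = -1 by ring, show x - 1 = -(1 - x) by ring, neg_div_neg_eq, one_div]
  have h1x : 1 - x ≠ 0 := sub_ne_zero.2 (Ne.symm hx1)
  rw [e1, e2, zero_div, ee_zero θ hθ, ee_one θ hθ] at h1
  have h2 := ee_inv' θ hθ (1 - x) h1x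
  have h3 := ee_sub θ hθ x
  linarith

end

end Pool.Agent.V8H63.NF
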