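import Pool.Agent.V8H63.NF.KK
import Pool.Agent.V8H63.NF.R2rel
import Pool.Agent.V8H63.W3.Fin

set_option autoImplicit false
set_option linter.unusedSectionVars false

/-!
# The groups of a number field
-/

namespace Pool.Agent.V8H63.NF

open scoped TensorProduct
open NumberField H39Gon H39Gon.TaskB H39Gon.E2 Pool.Agent.V8H63.W3

/-- `F^* ⊗ ℚ` -/
abbrev MQ (F : Type) [Field F] : Type := ℚ ⊗[ℤ] UV F

/-- `ℚ[P^1_F]` -/
abbrev DQ (F : Type) : Type := ℚ ⊗[ℤ] ZP F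

section bil

variable {V N : Type} [AddCommGroup V] [AddCommGroup N] [Module ℚ N]

/-- extension of bilinear maps -/
noncomputable def ext2N (T : V →ₗ[ℤ] V →ₗ[ℤ] N) : (ℚ ⊗[ℤ] V) →ₗ[ℚ] (ℚ ⊗[ℤ] V) →ₗ[ℚ] N :=
  lf (lf ∘ₗ T)

theorem ext2N_apply (T : V →ₗ[ℤ] V →ₗ[ℤ] N) (x y : V) :
    ext2N T ((1 : ℚ) ⊗ₜ[ℤ] x) ((1 : ℚ) ⊗ₜ[ℤ] y) = T x y := by
  unfold ext2N
  rw [lf_apply, LinearMap.comp_apply, lf_apply]

theorem bil_ext (S T : (ℚ ⊗[ℤ] V) →ₗ[ℚ] (ℚ ⊗[ℤ] V) →ₗ[ℚ] N)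
    (h : ∀ x y : V, S ((1 : ℚ) ⊗ₜ[ℤ] x) ((1 : ℚ) ⊗ₜ[ℤ] y) =
      T ((1 : ℚ) ⊗ₜ[ℤ] x) ((1 : ℚ) ⊗ₜ[ℤ] y)) (x y : ℚ ⊗[ℤ] V) : S x y = T x y := by
  have h1 : ∀ (v : V) (y : ℚ ⊗[ℤ] V), S ((1 : ℚ) ⊗ₜ[ℤ] v) y = T ((1 : ℚ) ⊗ₜ[ℤ] v) y := by
    intro v
    apply tens_ind
    · rw [map_zero, map_zero]
    · intro a b ha hb; rw [map_add, map_add, ha, hb]
    · intro q a ha; rw [map_smul, map_smul, ha]
    · exact h v
  revert x
  apply tens_ind
  · rw [map_zero, map_zero]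
  · intro a b ha hb; rw [map_add, map_add, LinearMap.add_apply, LinearMap.add_apply, ha, hb]
  · intro q a ha; rw [map_smul, map_smul, LinearMap.smul_apply, LinearMap.smul_apply, ha]
  · exact fun v => h1 v y

theorem bil_alt (S : (ℚ ⊗[ℤ] V) →ₗ[ℚ] (ℚ ⊗[ℤ] V) →ₗ[ℚ] N)
    (h : ∀ x : V, S ((1 : ℚ) ⊗ₜ[ℤ] x) ((1 : ℚ) ⊗ₜ[ℤ] x) = 0) (x : ℚ ⊗[ℤ] V) : S x x = 0 := by
  have h1 : ∀ x y, S x y = (-S.flip) x y := by
    apply bil_ext
    intro a b
    have h2 := h (a + b)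
    rw [TensorProduct.tmul_add] at h2
    simp only [map_add, LinearMap.add_apply, h] at h2
    rw [LinearMap.neg_apply, LinearMap.neg_apply, LinearMap.flip_apply]
    rw [zero_add, add_zero] at h2
    rw [add_comm] at h2
    exact eq_neg_of_add_eq_zero_left h2
  have h2 := h1 x x
  rw [LinearMap.neg_apply, LinearMap.neg_apply, LinearMap.flip_apply] at h2
  have h3 : (2 : ℚ) • S x x = 0 := by
    rw [two_smul]
    nth_rewrite 1 [h2]
    rw [neg_add_cancel]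
  exact (smul_eq_zero.1 h3).resolve_left two_ne_zero

end bil

variable (F : Type) [Field F]

/-- `u, v ↦ u ∧ v` -/
noncomputable def wgF : MQ F →ₗ[ℚ] MQ F →ₗ[ℚ] LQ F 2 :=
  ext2N ((wz (UV F)).compr₂ (TensorProduct.mk ℤ ℚ (⋀[ℤ]^2 (UV F)) 1))

variable {F}

theorem wgF_apply (u v : UV F) : wgF F ((1 : ℚ) ⊗ₜ[ℤ] u) ((1 : ℚ) ⊗ₜ[ℤ] v) = lq F 2 ![u, v] := by
  unfold wgF
  rw [ext2N_apply]
  rfl

theorem wgF_self (x : MQ F) : wgF F x x = 0 := by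
  apply bil_alt
  intro v
  rw [wgF_apply]
  unfold lq
  rw [AlternatingMap.map_eq_zero_of_eq _ _ (i := 0) (j := 1) (by simp) (by simp),
    TensorProduct.tmul_zero]

/-- alternating bilinear forms as alternating maps -/
def alt2 (ω : UV F →ₗ[ℤ] UV F →ₗ[ℤ] ℚ) (hω : ∀ x, ω x x = 0) : UV F [⋀^Fin 2]→ₗ[ℤ] ℚ :=
  { mk2 ω with
    map_eq_zero_of_eq' := by
      intro v i j hv hij
      change ω (v 0) (v 1) = 0
      have h : v 0 = v 1 := by
        fin_cases i <;> fin_cases j <;> simp_all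
      rw [h, hω] }

theorem facF (ω : MQ F →ₗ[ℚ] MQ F →ₗ[ℚ] ℚ) (hω : ∀ x, ω x x = 0) :
    ∃ f : LQ F 2 →ₗ[ℚ] ℚ, ∀ x y, f (wgF F x y) = ω x y := by
  let ω' : UV F →ₗ[ℤ] UV F →ₗ[ℤ] ℚ := LinearMap.mk₂ ℤ
    (fun u v => ω ((1 : ℚ) ⊗ₜ[ℤ] u) ((1 : ℚ) ⊗ₜ[ℤ] v))
    (fun a b v => by rw [TensorProduct.tmul_add, map_add, LinearMap.add_apply])
    (fun n a v => by
      rw [TensorProduct.tmul_smul, ← Int.cast_smul_eq_zsmul ℚ, map_smul, LinearMap.smul_apply,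
        Int.cast_smul_eq_zsmul])
    (fun v a b => by rw [TensorProduct.tmul_add, map_add])
    (fun n v a => by
      rw [TensorProduct.tmul_smul, ← Int.cast_smul_eq_zsmul ℚ, map_smul,
        Int.cast_smul_eq_zsmul])
  refine ⟨ofAlt (alt2 ω' (fun x => hω _)), ?_⟩
  have h1 := bil_ext ((wgF F).compr₂ (ofAlt (alt2 ω' (fun x => hω _)))) ω (by
    intro x y
    rw [LinearMap.compr₂_apply, wgF_apply, ofAlt_apply]
    rfl)
  exact fun x y => h1 x y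

variable (F)

/-- `δ_2` -/
noncomputable def δF : DQ F →ₗ[ℚ] LQ F 2 :=
  lf ((TensorProduct.mk ℤ ℚ (⋀[ℤ]^2 (UV F)) 1) ∘ₗ delta2 F)

variable {F}

theorem δF_apply (α : ZP F) : δF F ((1 : ℚ) ⊗ₜ[ℤ] α) = (1 : ℚ) ⊗ₜ[ℤ] delta2 F α := by
  unfold δF
  rw [lf_apply]
  rfl

theorem one_cl_neg_one : (1 : ℚ) ⊗ₜ[ℤ] cl (-1 : F) = 0 := by
  have h : (2 : ℚ) • ((1 : ℚ) ⊗ₜ[ℤ] cl (-1 : F)) = 0 := by
    rw [show (2 : ℚ) = ((2 : ℕ) : ℚ) by norm_num, Nat.cast_smul_eq_nsmul, ← TensorProduct.tmul_smul,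
      two_cl_neg_one, TensorProduct.tmul_zero]
  exact (smul_eq_zero.1 h).resolve_left two_ne_zero

theorem delta2_single (x : F) :
    delta2 F (Finsupp.single (some x) 1) = exteriorPower.ιMulti ℤ 2 ![cl (1 - x), cl x] := by
  unfold delta2
  rw [Finsupp.linearCombination_single, one_smul]

variable [NumberField F]

variable (F) in
/-- the class map -/
noncomputable def cF : Cm (𝓞 F) (MQ F) where
  c a := (1 : ℚ) ⊗ₜ[ℤ] cl (a : F)
  zero := by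
    have h : ((0 : 𝓞 F) : F) = 0 := rfl
    rw [h]
    simp [cl]
  mul a b ha hb := by
    have ha' : (a : F) ≠ 0 := by simpa using ha
    have hb' : (b : F) ≠ 0 := by simpa using hb
    rw [← TensorProduct.tmul_add, ← cl_mul ha' hb']
    rfl

theorem cF_c (a : 𝓞 F) : (cF F).c a = (1 : ℚ) ⊗ₜ[ℤ] cl (a : F) := rfl

/-- the symbols -/
noncomputable def sbF (a b : 𝓞 F) : DQ F := (1 : ℚ) ⊗ₜ[ℤ] Finsupp.single (some ((a : F) / b)) 1

theorem δsbF (a b : 𝓞 F) (ha : a ≠ 0) (hb : b ≠ 0) (hab : a - b ≠ 0) : δF F (sbF a b) =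
    wgF F ((cF F).c (a - b) - (cF F).c b) ((cF F).c a - (cF F).c b) := by
  have ha' : (a : F) ≠ 0 := by simpa using ha
  have hb' : (b : F) ≠ 0 := by simpa using hb
  have hab' : (a : F) - b ≠ 0 := by
    intro h
    apply hab
    rw [sub_eq_zero] at h ⊢
    exact RingOfIntegers.ext h
  unfold sbF
  rw [δF_apply, delta2_single, cF_c, cF_c, cF_c, ← TensorProduct.tmul_sub, ← TensorProduct.tmul_sub]
  have h1 : 1 - (a : F) / b = -1 * (((a : F) - b) / b) := by field_simp; ring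
  have h2 : ((a - b : 𝓞 F) : F) = (a : F) - b := rfl
  rw [h1, h2, cl_mul (by simp) (div_ne_zero hab' hb'), cl_div hab' hb', cl_div ha' hb']
  have h3 : wgF F ((1 : ℚ) ⊗ₜ[ℤ] (cl ((a : F) - b) - cl (b : F)))
      ((1 : ℚ) ⊗ₜ[ℤ] (cl (a : F) - cl (b : F))) =
      wgF F ((1 : ℚ) ⊗ₜ[ℤ] (cl (-1 : F) + (cl ((a : F) - b) - cl (b : F))))
      ((1 : ℚ) ⊗ₜ[ℤ] (cl (a : F) - cl (b : F))) := by
    rw [TensorProduct.tmul_add, one_cl_neg_one, zero_add]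
  rw [h3, wgF_apply]
  rfl

theorem exists_frac (x : F) : ∃ a b : 𝓞 F, b ≠ 0 ∧ x = (a : F) / b := by
  obtain ⟨a, b, hb, h⟩ := IsFractionRing.div_surjective (A := 𝓞 F) x
  exact ⟨a, b, nonZeroDivisors.ne_zero hb, h.symm⟩

theorem exists_frac' (x : F) (h0 : x ≠ 0) (h1 : x ≠ 1) : ∃ a b : 𝓞 F, a ≠ 0 ∧ b ≠ 0 ∧ a - b ≠ 0 ∧
    x = (a : F) / b := by
  obtain ⟨a, b, hb, rfl⟩ := exists_frac x
  have hb' : (b : F) ≠ 0 := by simpa using hb
  refine ⟨a, b, ?_, hb, ?_, rfl⟩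
  · rintro rfl
    apply h0
    have h : ((0 : 𝓞 F) : F) = 0 := rfl
    rw [h, zero_div]
  · intro h
    apply h1
    rw [sub_eq_zero.1 h, div_self hb']

theorem topF (hs : Function.Surjective (e1e F 0)) (l : LQ F 2) :
    l ∈ Submodule.span ℚ {m | ∃ a b : 𝓞 F, a ≠ 0 ∧ b ≠ 0 ∧ a - b ≠ 0 ∧ m = δF F (sbF a b)} := by
  set S := Submodule.span ℚ {m | ∃ a b : 𝓞 F, a ≠ 0 ∧ b ≠ 0 ∧ a - b ≠ 0 ∧ m = δF F (sbF a b)}
    with hS
  obtain ⟨u, rfl⟩ := hs l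
  have h1 : S.mkQ ∘ₗ (e1e F 0) = 0 := by
    apply text
    intro x y
    rw [LinearMap.comp_apply, LinearMap.zero_apply, Submodule.mkQ_apply,
      Submodule.Quotient.mk_eq_zero]
    rcases x with _ | x
    · rw [e1e_apply, e1ev_none]
      simp
    · rw [e1e_some]
      by_cases h0 : x = 0
      · rw [h0, e1cl_zero]
        unfold lq
        rw [(exteriorPower.ιMulti ℤ (0 + 2)).map_coord_zero (i := 1) (by simp),
          TensorProduct.tmul_zero]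
        exact Submodule.zero_mem _
      by_cases h1 : x = 1
      · rw [h1, e1cl_one]
        unfold lq
        rw [(exteriorPower.ιMulti ℤ (0 + 2)).map_coord_zero (i := 1) (by simp),
          TensorProduct.tmul_zero]
        exact Submodule.zero_mem _
      obtain ⟨a, b, ha, hb, hab, rfl⟩ := exists_frac' x h0 h1
      refine Submodule.subset_span ⟨a, b, ha, hb, hab, ?_⟩
      unfold sbF
      rw [δF_apply, delta2_single]
      unfold lq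
      congr 2
      ext i
      fin_cases i <;> rfl
  have h2 := LinearMap.congr_fun h1 u
  rwa [LinearMap.comp_apply, LinearMap.zero_apply, Submodule.mkQ_apply,
    Submodule.Quotient.mk_eq_zero] at h2

theorem δF_surj (hs : Function.Surjective (e1e F 0)) : Function.Surjective (δF F) := by
  intro l
  have h1 : Submodule.span ℚ {m | ∃ a b : 𝓞 F, a ≠ 0 ∧ b ≠ 0 ∧ a - b ≠ 0 ∧ m = δF F (sbF a b)} ≤
      LinearMap.range (δF F) := by
    rw [Submodule.span_le]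
    rintro _ ⟨a, b, -, -, -, rfl⟩
    exact ⟨_, rfl⟩
  exact h1 (topF hs l)

/-- the data of a number field -/
noncomputable def blF (hs : Function.Surjective (e1e F 0)) : Bl (cF F) (DQ F) (LQ F 2) where
  δ := δF F
  s := (LinearMap.exists_rightInverse_of_surjective (δF F)
    (LinearMap.range_eq_top.2 (δF_surj hs))).choose
  δs l := LinearMap.congr_fun (LinearMap.exists_rightInverse_of_surjective (δF F)
    (LinearMap.range_eq_top.2 (δF_surj hs))).choose_spec l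
  wg := wgF F
  wga := wgF_self
  fac := facF
  sb := sbF
  δsb := δsbF
  top := topF hs

end Pool.Agent.V8H63.NF
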