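import Pool.Agent.V8H63.NF.LocD

set_option autoImplicit false
set_option linter.unusedSectionVars false

/-!
# Integers of number fields with prescribed prime divisors
-/

namespace Pool.Agent.V8H63.NF

open NumberField

variable {F : Type} [Field F] [NumberField F]

/-- the norm is bounded by a power of the house -/
theorem norm_le_house (a : 𝓞 F) :
    ((Ideal.absNorm (Ideal.span {a}) : ℕ) : ℝ) ≤ house (a : F) ^ (Module.finrank ℚ F) := by
  rw [Ideal.absNorm_span_singleton]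
  have h1 : (((Algebra.norm ℤ a).natAbs : ℕ) : ℝ) = ‖Algebra.norm ℚ (a : F)‖ := by
    rw [← Algebra.coe_norm_int, ← Rat.norm_cast_real, Real.norm_eq_abs]
    push_cast
    rw [Nat.cast_natAbs]
    push_cast
    rfl
  rw [h1]
  obtain ⟨σ⟩ : Nonempty (F →+* ℂ) := inferInstance
  refine (norm_norm_le_norm_mul_house_pow (a : F) σ).trans ?_
  have h2 := norm_embedding_le_house (a : F) σ
  have h3 : 0 ≤ house (a : F) ^ (Module.finrank ℚ F - 1) := pow_nonneg (house_nonneg _) _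
  refine (mul_le_mul_of_nonneg_right h2 h3).trans ?_
  rw [← pow_succ', Nat.sub_add_cancel (Module.finrank_pos)]

/-- the nonzero primes of norm less than `N` -/
def Pr (F : Type) [Field F] [NumberField F] (N : ℕ) : Set (Ideal (𝓞 F)) :=
  {Q | Q.IsPrime ∧ Q ≠ ⊥ ∧ Ideal.absNorm Q < N}

/-- the nonzero elements all of whose prime divisors lie in a set -/
def Sm (s : Set (Ideal (𝓞 F))) : Set (𝓞 F) :=
  {a | a ≠ 0 ∧ ∀ Q : Ideal (𝓞 F), Q.IsPrime → a ∈ Q → Q ∈ s}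

theorem Sm_mul {s : Set (Ideal (𝓞 F))} {a b : 𝓞 F} (ha : a ∈ Sm s) (hb : b ∈ Sm s) :
    a * b ∈ Sm s :=
  ⟨mul_ne_zero ha.1 hb.1, fun Q hQ h => (hQ.mem_or_mem h).elim (ha.2 Q hQ) (hb.2 Q hQ)⟩

theorem Sm_mono {s s' : Set (Ideal (𝓞 F))} (h : s ⊆ s') : Sm s ⊆ Sm s' :=
  fun _ ha => ⟨ha.1, fun Q hQ h' => h (ha.2 Q hQ h')⟩

theorem norm_prime_le {a : 𝓞 F} (ha : a ≠ 0) {Q : Ideal (𝓞 F)} (h : a ∈ Q) :
    Ideal.absNorm Q ≤ Ideal.absNorm (Ideal.span {a}) := by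
  refine Nat.le_of_dvd ?_ (Ideal.absNorm_dvd_absNorm_of_le ?_)
  · rw [Nat.pos_iff_ne_zero, Ne, Ideal.absNorm_eq_zero_iff, Ideal.span_singleton_eq_bot]
    exact ha
  · rwa [Ideal.span_singleton_le_iff_mem]

theorem Sm_of_lt {a : 𝓞 F} (ha : a ≠ 0) {N : ℕ} (h : Ideal.absNorm (Ideal.span {a}) < N)
    {s : Set (Ideal (𝓞 F))} (hs : Pr F N ⊆ s) : a ∈ Sm s := by
  refine ⟨ha, fun Q hQ haQ => hs ⟨hQ, ?_, (norm_prime_le ha haQ).trans_lt h⟩⟩
  rintro rfl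
  exact ha (by simpa using haQ)

/-- the `n`-th powers of all ideals are principal -/
theorem exists_pow_principal : ∃ n : ℕ, 0 < n ∧ ∀ I : Ideal (𝓞 F), I ≠ ⊥ →
    ∃ a : 𝓞 F, a ≠ 0 ∧ I ^ n = Ideal.span {a} := by
  refine ⟨Fintype.card (ClassGroup (𝓞 F)), Fintype.card_pos, fun I hI => ?_⟩
  set n := Fintype.card (ClassGroup (𝓞 F))
  have hI' : I ∈ nonZeroDivisors (Ideal (𝓞 F)) := mem_nonZeroDivisors_of_ne_zero hI
  have h1 : ClassGroup.mk0 (⟨I, hI'⟩ : nonZeroDivisors (Ideal (𝓞 F))) ^ n = 1 := pow_card_eq_one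
  rw [← map_pow] at h1
  have h2 := (ClassGroup.mk0_eq_one_iff (R := 𝓞 F) (pow_mem hI' n)).1 (by
    rw [← h1]
    rfl)
  obtain ⟨a, ha⟩ := h2.principal
  refine ⟨a, ?_, ha⟩
  rintro rfl
  have h3 : I ^ n = ⊥ := by rw [ha]; simp
  exact (pow_ne_zero n hI) h3

section cls

variable {M : Type} [AddCommGroup M] [Module ℚ M] (c : Cm (𝓞 F) M)

/-- the span of the classes of the smooth elements -/
def Wd (s : Set (Ideal (𝓞 F))) : Submodule ℚ M := Submodule.span ℚ (c.c '' Sm s)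

theorem Wd_mono {s s' : Set (Ideal (𝓞 F))} (h : s ⊆ s') : Wd c s ≤ Wd c s' :=
  Submodule.span_mono (Set.image_mono (Sm_mono h))

theorem cW' {s : Set (Ideal (𝓞 F))} {a : 𝓞 F} (ha : a ∈ Sm s) : c.c a ∈ Wd c s :=
  Submodule.subset_span ⟨a, ha, rfl⟩

/-- the class group trick -/
theorem cls {s : Set (Ideal (𝓞 F))} {x y : 𝓞 F} (hx : x ≠ 0) (hy : y ≠ 0)
    {P I J : Ideal (𝓞 F)} (hxI : Ideal.span {x} = P * I) (hyJ : Ideal.span {y} = P * J)
    (hI : ∀ Q : Ideal (𝓞 F), Q.IsPrime → I ≤ Q → Q ∈ s)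
    (hJ : ∀ Q : Ideal (𝓞 F), Q.IsPrime → J ≤ Q → Q ∈ s) : c.c x - c.c y ∈ Wd c s := by
  obtain ⟨n, hn, hpr⟩ := exists_pow_principal (F := F)
  have hI0 : I ≠ ⊥ := by
    rintro rfl
    rw [Ideal.mul_bot, Ideal.span_singleton_eq_bot] at hxI
    exact hx hxI
  have hJ0 : J ≠ ⊥ := by
    rintro rfl
    rw [Ideal.mul_bot, Ideal.span_singleton_eq_bot] at hyJ
    exact hy hyJ
  obtain ⟨i, hi0, hi⟩ := hpr I hI0
  obtain ⟨j, hj0, hj⟩ := hpr J hJ0
  have hisp : i ∈ Sm s := by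
    refine ⟨hi0, fun Q hQ hiQ => hI Q hQ ?_⟩
    have h1 : I ^ n ≤ Q := by rw [hi, Ideal.span_singleton_le_iff_mem]; exact hiQ
    exact hQ.le_of_pow_le h1
  have hjsp : j ∈ Sm s := by
    refine ⟨hj0, fun Q hQ hjQ => hJ Q hQ ?_⟩
    have h1 : J ^ n ≤ Q := by rw [hj, Ideal.span_singleton_le_iff_mem]; exact hjQ
    exact hQ.le_of_pow_le h1
  have h1 : Ideal.span {x ^ n * j} = Ideal.span {y ^ n * i} := by
    rw [← Ideal.span_singleton_mul_span_singleton, ← Ideal.span_singleton_mul_span_singleton,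
      ← Ideal.span_singleton_pow, ← Ideal.span_singleton_pow, hxI, hyJ, ← hi, ← hj, mul_pow,
      mul_pow]
    ring
  rw [Ideal.span_singleton_eq_span_singleton] at h1
  obtain ⟨u, hu⟩ := h1
  have husp : (u : 𝓞 F) ∈ Sm s := by
    refine ⟨u.ne_zero, fun Q hQ huQ => ?_⟩
    exact absurd (Ideal.eq_top_of_isUnit_mem Q huQ u.isUnit) hQ.ne_top
  have h2 := congrArg c.c hu
  rw [c.mul _ _ (mul_ne_zero (pow_ne_zero n hx) hj0) u.ne_zero,
    c.mul _ _ (pow_ne_zero n hx) hj0, c.mul _ _ (pow_ne_zero n hy) hi0, c.pow x hx, c.pow y hy]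
    at h2
  have hnq : (n : ℚ) ≠ 0 := by exact_mod_cast hn.ne'
  have h3 : c.c x - c.c y = (n : ℚ)⁻¹ • (c.c i - c.c j - c.c u) := by
    have h4 : (n : ℚ) • (c.c x - c.c y) = c.c i - c.c j - c.c u := by
      rw [smul_sub]
      have : (n : ℚ) • c.c x = (n : ℚ) • c.c y + c.c i - c.c j - c.c u := by
        rw [← h2]
        abel
      rw [this]
      abel
    rw [← h4, smul_smul, inv_mul_cancel₀ hnq, one_smul]
  rw [h3]
  exact Submodule.smul_mem _ _ (Submodule.sub_mem _ (Submodule.sub_mem _ (cW' c hisp)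
    (cW' c hjsp)) (cW' c husp))

/-- adding a prime -/
theorem Wd_insert {s : Set (Ideal (𝓞 F))} {π : 𝓞 F} (hπ : π ≠ 0) {P J : Ideal (𝓞 F)}
    (hP : P.IsPrime) (hπJ : Ideal.span {π} = P * J)
    (hJ : ∀ Q : Ideal (𝓞 F), Q.IsPrime → J ≤ Q → Q ∈ s) :
    Wd c (insert P s) ≤ Wd c s ⊔ Submodule.span ℚ {c.c π} := by
  unfold Wd
  rw [Submodule.span_le]
  rintro _ ⟨a, ha, rfl⟩
  have ha0 : Ideal.span {a} ≠ (0 : Ideal (𝓞 F)) := by
    rw [Ne, Ideal.zero_eq_bot, Ideal.span_singleton_eq_bot]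
    exact ha.1
  have hPu : ¬ IsUnit P := by
    rw [Ideal.isUnit_iff]
    exact hP.ne_top
  obtain ⟨I, hI, hPI⟩ := (FiniteMultiplicity.of_not_isUnit hPu ha0).exists_eq_pow_mul_and_not_dvd
  set m := multiplicity P (Ideal.span {a}) with hm
  have hπm : Ideal.span {π ^ m} = P ^ m * J ^ m := by
    rw [← Ideal.span_singleton_pow, hπJ, mul_pow]
  have h1 := cls c (s := s) ha.1 (pow_ne_zero m hπ) hI hπm (by
    intro Q hQ hIQ
    have h2 : a ∈ Q := by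
      rw [← Ideal.span_singleton_le_iff_mem, hI]
      exact Ideal.mul_le_right.trans hIQ
    rcases ha.2 Q hQ h2 with h3 | h3
    · rw [h3] at hIQ
      exact absurd (Ideal.dvd_iff_le.2 hIQ) hPI
    · exact h3) (fun Q hQ h => hJ Q hQ (hQ.le_of_pow_le h))
  rw [c.pow π hπ] at h1
  have h2 : c.c a = (c.c a - (m : ℚ) • c.c π) + (m : ℚ) • c.c π := by abel
  rw [h2]
  exact Submodule.add_mem_sup h1 (Submodule.smul_mem _ _ (Submodule.mem_span_singleton_self _))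

end cls

/-- the cofactor of a prime in a small element -/
theorem cofactor {P : Ideal (𝓞 F)} {s : Set (Ideal (𝓞 F))}
    (hs : Pr F (Ideal.absNorm P) ⊆ s) {x : 𝓞 F} (hx : x ≠ 0) (hxP : x ∈ P)
    (h : Ideal.absNorm (Ideal.span {x}) < Ideal.absNorm P ^ 2) :
    ∃ I : Ideal (𝓞 F), Ideal.span {x} = P * I ∧
      ∀ Q : Ideal (𝓞 F), Q.IsPrime → I ≤ Q → Q ∈ s := by
  have h1 : P ∣ Ideal.span {x} := by
    rw [Ideal.dvd_iff_le, Ideal.span_singleton_le_iff_mem]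
    exact hxP
  obtain ⟨I, hI⟩ := h1
  refine ⟨I, hI, fun Q hQ hIQ => hs ⟨hQ, ?_, ?_⟩⟩
  · rintro rfl
    rw [le_bot_iff] at hIQ
    rw [hIQ, Ideal.mul_bot, Ideal.span_singleton_eq_bot] at hI
    exact hx hI
  · rw [hI, map_mul, pow_two] at h
    have h2 : Ideal.absNorm I < Ideal.absNorm P := lt_of_mul_lt_mul_left h (Nat.zero_le _)
    refine lt_of_le_of_lt (Nat.le_of_dvd ?_ (Ideal.absNorm_dvd_absNorm_of_le hIQ)) h2
    rw [Nat.pos_iff_ne_zero, Ne, Ideal.absNorm_eq_zero_iff]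
    rintro rfl
    rw [Ideal.mul_bot, Ideal.span_singleton_eq_bot] at hI
    exact hx hI

end Pool.Agent.V8H63.NF
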