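import Pool.Agent.V8H63.NF.Sy5

set_option autoImplicit false
set_option linter.unusedSectionVars false

/-!
# Number fields: `K_2(F) ⊗ ℚ` is generated by finitely many symbols
-/

namespace Pool.Agent.V8H63.NF

open scoped TensorProduct
open NumberField H39Gon H39Gon.TaskB H39Gon.E2 Pool.Agent.V8H63.W3

section ex

variable {F : Type} [Field F]

/-- the exchange identity -/
theorem exSpan (x y : F) (hx0 : x ≠ 0) (hx1 : x ≠ 1) (hy0 : y ≠ 0) (hy1 : y ≠ 1) (j : ℕ)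
    (w : Fin j → UV F) :
    tq F 2 (j + 2) (some x) (Fin.cons (cl (1 - y)) (Fin.cons (cl y) w)) -
      tq F 2 (j + 2) (some y) (Fin.cons (cl (1 - x)) (Fin.cons (cl x) w)) ∈
        Submodule.span ℚ (SDec F (j + 1)) := by
  by_contra hn
  obtain ⟨φ, h1, h2⟩ := exists_dual_ne hn
  apply h2
  have h3 := exchange (i := j) (toTheta φ) (fun r hr => toTheta_R φ r hr) (by
    intro x w hx
    rw [toTheta_apply]
    exact h1 _ (Submodule.subset_span ⟨x, w, hx, rfl⟩)) w x y hx0 hx1 hy0 hy1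
  unfold gx at h3
  rw [gf_swap, gf_swap (toTheta φ (Finsupp.single (some y) 1))] at h3
  have h4 := neg_injective h3
  rw [gf_apply, gf_apply, toTheta_apply, toTheta_apply] at h4
  rw [map_sub, sub_eq_zero]
  exact h4

/-- products factor through Milnor K-theory -/
theorem prodSpan (α : ZP F) (hα : delta2 F α = 0) (x : F) (j : ℕ) (w : Fin j → UV F) :
    emb (Fin.cons (cl (1 - x)) (Fin.cons (cl x) w)) ((1 : ℚ) ⊗ₜ[ℤ] α) ∈
      Submodule.span ℚ (SDec F (j + 1)) := by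
  by_contra hn
  obtain ⟨φ, h1, h2⟩ := exists_dual_ne hn
  apply h2
  have h3 := pair_sym (i := j) (toTheta φ) (fun r hr => toTheta_R φ r hr) (by
    intro x w hx
    rw [toTheta_apply]
    exact h1 _ (Submodule.subset_span ⟨x, w, hx, rfl⟩)) w ((1 : ℚ) ⊗ₜ[ℤ] α)
    ((1 : ℚ) ⊗ₜ[ℤ] Finsupp.single (some x) 1)
  rw [δF_some, E2r_lq, δF_apply, hα, TensorProduct.tmul_zero, map_zero, toTheta_emb] at h3
  exact h3

end ex

variable {F : Type} [Field F] [NumberField F]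

/-- Tate's argument, for the classes `c` -/
theorem K2gen {M : Type} [AddCommGroup M] [Module ℚ M] (c : Cm (𝓞 F) M) :
    ∃ X : Set (𝓞 F), X.Finite ∧ (∀ x ∈ X, x ≠ 0) ∧
    ∀ ω : M →ₗ[ℚ] M →ₗ[ℚ] ℚ, (∀ x, ω x x = 0) →
      (∀ a b : 𝓞 F, a ≠ 0 → b ≠ 0 → a - b ≠ 0 → tau c ω a b = 0) →
      (∀ x ∈ X, ∀ y ∈ X, ω (c.c x) (c.c y) = 0) → ∀ x y : 𝓞 F, ω (c.c x) (c.c y) = 0 := by
  obtain ⟨N₂, hN₂⟩ := gen_small c
  obtain ⟨X, hX, hXs, hXW⟩ := Wd_fg c N₂
  refine ⟨X, hX, fun x hx => (hXs hx).1, fun ω hω hτ hXω => ?_⟩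
  have key : ∀ N, N₂ ≤ N → ∀ x ∈ Wd c (Pr F N), ∀ y ∈ Wd c (Pr F N), ω x y = 0 := by
    intro N hN
    refine tower' (fun s' => ∀ x ∈ Wd c s', ∀ y ∈ Wd c s', ω x y = 0) N₂ ?_ ?_ N hN
    · intro x hx y hy
      refine bil_span ω (c.c '' X) (c.c '' X) ?_ x (hXW hx) y (hXW hy)
      rintro _ ⟨a, ha, rfl⟩ _ ⟨b, hb, rfl⟩
      exact hXω a ha b hb
    · intro Q hQ hQ0 hQN s' hs1 hs2 hQs ih
      obtain ⟨hYQ, hgenQ⟩ := hN₂ Q hQ hQ0 hQN
      obtain ⟨π', hπ0', hπQ', hπ', hπn', hπS', hW'⟩ := exists_pi' c hQ hQ0 hYQ hs1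
      have h2 := (mkLoc c hQ hQ0 hYQ hs1 hQs hπ0' hπQ' hπn' (hgenQ s' hs1 hs2)).tate ω hω ih (by
        intro a b ha hb hk hρ haS hbS
        have ha' : a ∈ Sm s' := ha
        have hb' : b ∈ Sm s' := hb
        exact hτ a b ha'.1 hb'.1 hk)
      have h2' : ∀ x ∈ Wd c s', ω (c.c π') x = 0 := h2
      have e : Wd c s' ⊔ Submodule.span ℚ {c.c π'} =
          Submodule.span ℚ ((Wd c s' : Set M) ∪ {c.c π'}) := by
        rw [Submodule.span_union, Submodule.span_eq]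
      rw [e] at hW'
      intro x hx y hy
      refine bil_span ω _ _ ?_ x (hW' hx) y (hW' hy)
      rintro x (hx | rfl) y (hy | rfl)
      · exact ih x hx y hy
      · rw [alt_swap ω hω, h2' x hx, neg_zero]
      · exact h2' y hy
      · exact hω _
  intro x y
  by_cases hx : x = 0
  · rw [hx, c.zero]; simp
  by_cases hy : y = 0
  · rw [hy, c.zero]; simp
  set N := max N₂ (max (Ideal.absNorm (Ideal.span {x}) + 1)
      (Ideal.absNorm (Ideal.span {y}) + 1)) with hN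
  exact key N (le_max_left _ _) _ (cW' c (mem_Sm_large hx N (by omega)))
      _ (cW' c (mem_Sm_large hy N (by omega)))

theorem cl_frac (v : UV F) : ∃ a b : 𝓞 F, a ≠ 0 ∧ b ≠ 0 ∧
    (1 : ℚ) ⊗ₜ[ℤ] v = (cF F).c a - (cF F).c b := by
  obtain ⟨f, hf, rfl⟩ := exists_cl v
  obtain ⟨a, b, hb, rfl⟩ := exists_frac f
  have hb' : (b : F) ≠ 0 := by simpa using hb
  have ha' : (a : F) ≠ 0 := fun h => hf (by rw [h, zero_div])
  have ha : a ≠ 0 := fun h => ha' (by rw [h]; rfl)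
  refine ⟨a, b, ha, hb, ?_⟩
  rw [cF_c, cF_c, ← TensorProduct.tmul_sub, cl_div ha' hb']

/-- **`K_2(F) ⊗ ℚ` is generated by the symbols `{x, y}` with `x`, `y` in a finite set** -/
theorem K2gen_lq : ∃ X : Set (UV F), X.Finite ∧ ∀ l : LQ F 2, ∃ d : DQ F,
    l - δF F d ∈ Submodule.span ℚ {l | ∃ x ∈ X, ∃ y ∈ X, l = lq F 2 ![x, y]} := by
  obtain ⟨X, hX, hX0, hXω⟩ := K2gen (cF F)
  refine ⟨(fun a : 𝓞 F => cl (a : F)) '' X, hX.image _, fun l => ?_⟩
  set G := Submodule.span ℚ {l | ∃ x ∈ (fun a : 𝓞 F => cl (a : F)) '' X,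
    ∃ y ∈ (fun a : 𝓞 F => cl (a : F)) '' X, l = lq F 2 ![x, y]} with hG
  have h : l ∈ LinearMap.range (δF F) ⊔ G := by
    by_contra hn
    obtain ⟨χ, h1, h2⟩ := exists_dual_ne hn
    apply h2
    have h3 : ∀ d, χ (δF F d) = 0 := fun d => h1 _ (Submodule.mem_sup_left ⟨d, rfl⟩)
    have h4 := hXω ((wgF F).compr₂ χ) (fun x => by
      rw [LinearMap.compr₂_apply, wgF_self, map_zero]) (fun a b ha hb hab => by
        have h5 := h3 (sbF a b)
        rw [δsbF a b ha hb hab] at h5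
        have h6 : ∀ x y : MQ F, χ (wgF F x y) = ((wgF F).compr₂ χ) x y := fun x y => rfl
        have h7 : ∀ x : MQ F, ((wgF F).compr₂ χ) x x = 0 := fun x => by
          rw [LinearMap.compr₂_apply, wgF_self, map_zero]
        rw [h6] at h5
        unfold tau tt
        simp only [map_sub, LinearMap.sub_apply, h7] at h5 ⊢
        have h8 := alt_swap _ h7 ((cF F).c a) ((cF F).c b)
        have h9 := alt_swap _ h7 ((cF F).c b) ((cF F).c (a - b))
        linarith) (fun x hx y hy => by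
        rw [LinearMap.compr₂_apply, cF_c, cF_c, wgF_apply]
        exact h1 _ (Submodule.mem_sup_right (Submodule.subset_span
          ⟨_, ⟨x, hx, rfl⟩, _, ⟨y, hy, rfl⟩, rfl⟩)))
    have h5 : χ = 0 := by
      apply lext
      intro y
      have h6 : y = ![y 0, y 1] := by
        ext i; fin_cases i <;> rfl
      rw [h6, ← wgF_apply]
      obtain ⟨a, b, -, -, h7⟩ := cl_frac (y 0)
      obtain ⟨a', b', -, -, h8⟩ := cl_frac (y 1)
      rw [h7, h8]
      have h9 : ∀ x y : 𝓞 F, χ (wgF F ((cF F).c x) ((cF F).c y)) = 0 := h4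
      simp only [map_sub, LinearMap.sub_apply, h9]
      simp
    rw [h5]
    rfl
  obtain ⟨_, ⟨d, rfl⟩, g, hg, rfl⟩ := Submodule.mem_sup.1 h
  refine ⟨d, ?_⟩
  rwa [add_sub_cancel_left]

end Pool.Agent.V8H63.NF
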