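import Pool.Agent.V8H63.NF.Tower

set_option autoImplicit false
set_option linter.unusedSectionVars false

/-!
# `K_2` in bounded size and the theorem on trilinear forms
-/

namespace Pool.Agent.V8H63.NF

open NumberField Pool.Agent.V8H63.W3

variable {F : Type} [Field F] [NumberField F] {M : Type} [AddCommGroup M] [Module ℚ M]
  (c : Cm (𝓞 F) M)

/-- the vanishing of `K_2`, in terms of finitely many relations for each symbol -/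
def K2fin : Prop := ∀ x y : 𝓞 F, x ≠ 0 → y ≠ 0 → ∃ X : Set (𝓞 F × 𝓞 F), X.Finite ∧
  (∀ q ∈ X, q.1 ≠ 0 ∧ q.2 ≠ 0 ∧ q.1 - q.2 ≠ 0) ∧
  ∀ ω : M →ₗ[ℚ] M →ₗ[ℚ] ℚ, (∀ x, ω x x = 0) → (∀ q ∈ X, tau c ω q.1 q.2 = 0) →
    ω (c.c x) (c.c y) = 0

theorem bil_span (ω : M →ₗ[ℚ] M →ₗ[ℚ] ℚ) (A B : Set M) (h : ∀ x ∈ A, ∀ y ∈ B, ω x y = 0) :
    ∀ x ∈ Submodule.span ℚ A, ∀ y ∈ Submodule.span ℚ B, ω x y = 0 := by
  have h1 : ∀ x ∈ A, ∀ y ∈ Submodule.span ℚ B, ω x y = 0 := by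
    intro x hx y hy
    have h2 : Submodule.span ℚ B ≤ LinearMap.ker (ω x) := by
      rw [Submodule.span_le]
      exact fun z hz => h x hx z hz
    exact h2 hy
  intro x hx y hy
  have h2 : Submodule.span ℚ A ≤ LinearMap.ker (ω.flip y) := by
    rw [Submodule.span_le]
    exact fun z hz => h1 z hz y hy
  exact h2 hx

theorem K2_base (hK : K2fin c) (N : ℕ) : ∃ X : Set (𝓞 F × 𝓞 F), X.Finite ∧
    (∀ q ∈ X, q.1 ≠ 0 ∧ q.2 ≠ 0 ∧ q.1 - q.2 ≠ 0) ∧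
    ∀ ω : M →ₗ[ℚ] M →ₗ[ℚ] ℚ, (∀ x, ω x x = 0) → (∀ q ∈ X, tau c ω q.1 q.2 = 0) →
      ∀ x ∈ Wd c (Pr F N), ∀ y ∈ Wd c (Pr F N), ω x y = 0 := by
  obtain ⟨X, hX, hXs, hXW⟩ := Wd_fg c N
  choose! 𝒳 hf h0 hω using hK
  refine ⟨⋃ x ∈ X, ⋃ y ∈ X, 𝒳 x y, ?_, ?_, ?_⟩
  · exact hX.biUnion fun x hx => hX.biUnion fun y hy => hf x y (hXs hx).1 (hXs hy).1
  · intro q hq
    simp only [Set.mem_iUnion] at hq
    obtain ⟨x, hx, y, hy, hq⟩ := hq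
    exact h0 x y (hXs hx).1 (hXs hy).1 q hq
  · intro ω hωa hωX x hx y hy
    refine bil_span ω (c.c '' X) (c.c '' X) ?_ x (hXW hx) y (hXW hy)
    rintro _ ⟨a, ha, rfl⟩ _ ⟨b, hb, rfl⟩
    refine hω a b (hXs ha).1 (hXs hb).1 ω hωa (fun q hq => hωX q ?_)
    simp only [Set.mem_iUnion]
    exact ⟨a, ha, b, hb, hq⟩

/-- the local data exist for all primes of large norm and satisfy the condition on `K_2` -/
theorem exists_loc (hK : K2fin c) (Q : Set (𝓞 F × 𝓞 F)) (hQf : Q.Finite)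
    (hQ0 : ∀ q ∈ Q, q.1 ≠ 0 ∧ q.2 ≠ 0 ∧ q.1 - q.2 ≠ 0) :
    ∃ N₃ : ℕ, ∀ P : Ideal (𝓞 F), P.IsPrime → P ≠ ⊥ →
    N₃ ≤ Ideal.absNorm P → ∀ s, Pr F (Ideal.absNorm P) ⊆ s →
      s ⊆ Pr F (Ideal.absNorm P + 1) → P ∉ s →
        ∃ L : Loc c, L.W = Wd c s ∧ Wd c (insert P s) ≤ L.W ⊔ Submodule.span ℚ {L.p} ∧ L.K2 ∧
          ∀ q ∈ Q, q.1 ∈ L.sm ∧ q.2 ∈ L.sm ∧ q.1 - q.2 ∈ L.sm ∧ q.1 ∈ L.S 147 ∧ q.2 ∈ L.S 98 := by
  obtain ⟨N₂, hN₂⟩ := gen_small c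
  obtain ⟨X', hX', hX0', hXω⟩ := K2_base c hK N₂
  set X := X' ∪ Q with hXdef
  have hX : X.Finite := hX'.union hQf
  have hX0 : ∀ q ∈ X, q.1 ≠ 0 ∧ q.2 ≠ 0 ∧ q.1 - q.2 ≠ 0 := fun q hq => hq.elim (hX0' q) (hQ0 q)
  obtain ⟨B₁, hB₁⟩ := house_bound _ (hX.image Prod.fst)
  obtain ⟨B₂, hB₂⟩ := house_bound _ (hX.image Prod.snd)
  obtain ⟨N₄, hN₄⟩ := Yp_large F (max B₁ B₂)
  obtain ⟨M₁, hM₁⟩ := norm_bound _ (hX.image Prod.fst)
  obtain ⟨M₂, hM₂⟩ := norm_bound _ (hX.image Prod.snd)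
  obtain ⟨M₃, hM₃⟩ := norm_bound _ (hX.image fun q => q.1 - q.2)
  refine ⟨max N₂ (max N₄ (max M₁ (max M₂ M₃))), fun P hP hP0 hPN s hs hs' hPs => ?_⟩
  have g1 : N₂ ≤ Ideal.absNorm P := by omega
  have g2 : N₄ ≤ Ideal.absNorm P := by omega
  have g3 : M₁ ≤ Ideal.absNorm P := by omega
  have g4 : M₂ ≤ Ideal.absNorm P := by omega
  have g5 : M₃ ≤ Ideal.absNorm P := by omega
  obtain ⟨hY, hgen⟩ := hN₂ P hP hP0 g1
  obtain ⟨π, hπ0, hπP, hπ, hπn, hπS, hW⟩ := exists_pi' c hP hP0 hY hs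
  have hsmall : ∀ q ∈ X, q.1 ∈ Sm s ∧ q.2 ∈ Sm s ∧ q.1 - q.2 ∈ Sm s ∧
      house (q.1 : F) ≤ Yp F (Ideal.absNorm P) ^ 147 ∧
      house (q.2 : F) ≤ Yp F (Ideal.absNorm P) ^ 98 := by
    intro q hq
    obtain ⟨h1, h2, h3⟩ := hX0 q hq
    have i1 : q.1 ∈ (fun q : 𝓞 F × 𝓞 F => q.1) '' X := ⟨q, hq, rfl⟩
    have i2 : q.2 ∈ (fun q : 𝓞 F × 𝓞 F => q.2) '' X := ⟨q, hq, rfl⟩
    have i3 : q.1 - q.2 ∈ (fun q : 𝓞 F × 𝓞 F => q.1 - q.2) '' X := ⟨q, hq, rfl⟩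
    have hYB := hN₄ _ g2
    exact ⟨Sm_of_lt h1 ((hM₁ _ i1).trans_le g3) hs,
      Sm_of_lt h2 ((hM₂ _ i2).trans_le g4) hs, Sm_of_lt h3 ((hM₃ _ i3).trans_le g5) hs,
      (hB₁ _ i1).trans (le_Y97 hY ((le_max_left _ _).trans hYB) _ (by norm_num)),
      (hB₂ _ i2).trans (le_Y97 hY ((le_max_right _ _).trans hYB) _ (by norm_num))⟩
  refine ⟨mkLoc c hP hP0 hY hs hPs hπ0 hπP hπn (hgen s hs hs'), rfl, hW, ?_,
    fun q hq => hsmall q (Or.inr hq)⟩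
  intro ω hω hωs
  change ∀ x ∈ Wd c s, ∀ y ∈ Wd c s, ω x y = 0
  have hωs' : ∀ a b, a ∈ Sm s → b ∈ Sm s → a - b ∈ Sm s →
      house (a : F) ≤ Yp F (Ideal.absNorm P) ^ 147 →
      house (b : F) ≤ Yp F (Ideal.absNorm P) ^ 98 → tau c ω a b = 0 := hωs
  have key : s ⊆ s → ∀ x ∈ Wd c s, ∀ y ∈ Wd c s, ω x y = 0 := by
    refine tower (fun s' => s' ⊆ s → ∀ x ∈ Wd c s', ∀ y ∈ Wd c s', ω x y = 0) N₂ ?_ ?_
      (Ideal.absNorm P) g1 s hs hs'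
    · intro _
      refine hXω ω hω (fun q hq => ?_)
      obtain ⟨h1, h2, h3, h4, h5⟩ := hsmall q (Or.inl hq)
      exact hωs' q.1 q.2 h1 h2 h3 h4 h5
    · intro Q hQ hQ0 hQN s' hs1 hs2 hQs ih hsub
      obtain ⟨hYQ, hgenQ⟩ := hN₂ Q hQ hQ0 hQN
      obtain ⟨π', hπ0', hπQ', hπ', hπn', hπS', hW'⟩ := exists_pi' c hQ hQ0 hYQ hs1
      have hsub' : s' ⊆ s := (Set.subset_insert _ _).trans hsub
      have ih' := ih hsub'
      have hQP : Ideal.absNorm Q ≤ Ideal.absNorm P := by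
        have h1 := (hs' (hsub (Set.mem_insert _ _))).2.2
        omega
      have h2 := (mkLoc c hQ hQ0 hYQ hs1 hQs hπ0' hπQ' hπn' (hgenQ s' hs1 hs2)).tate ω hω ih' (by
        intro a b ha hb hk hρ haS hbS
        have ha' : a ∈ Sm s' := ha
        have hb' : b ∈ Sm s' := hb
        have haS' : house (a : F) ≤ Yp F (Ideal.absNorm Q) ^ 147 := haS
        have hbS' : house (b : F) ≤ Yp F (Ideal.absNorm Q) ^ 98 := hbS
        have hρ' : Ideal.Quotient.mk Q a = Ideal.Quotient.mk Q b := hρ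
        have h1Y : 1 ≤ Yp F (Ideal.absNorm Q) := (one_le_Cst F).trans hYQ
        have hmem : a - b ∈ Q := (Ideal.Quotient.eq).1 hρ'
        have hS : house ((a - b : 𝓞 F) : F) ≤ Yp F (Ideal.absNorm Q) ^ 191 :=
          (mkLoc c hQ hQ0 hYQ hs1 hQs hπ0' hπQ' hπn' (hgenQ s' hs1 hs2)).mono 148 191
            (by norm_num) ((mkLoc c hQ hQ0 hYQ hs1 hQs hπ0' hπQ' hπn'
              (hgenQ s' hs1 hs2)).sub 147 a b haS ((mkLoc c hQ hQ0 hYQ hs1 hQs hπ0' hπQ' hπn'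
              (hgenQ s' hs1 hs2)).mono 98 147 (by norm_num) hbS))
        obtain ⟨J, hJ, hJ'⟩ := cofactor hs1 hk hmem (norm_lt_of_house191 hYQ hS)
        refine hωs' a b (Sm_mono hsub' ha') (Sm_mono hsub' hb') ⟨hk, fun R hR hkR => ?_⟩
          (haS'.trans (pow_le_pow_left₀ (Yp_nonneg F _) (Yp_mono F hQP) _))
          (hbS'.trans (pow_le_pow_left₀ (Yp_nonneg F _) (Yp_mono F hQP) _))
        have h1 : Q * J ≤ R := by rw [← hJ, Ideal.span_singleton_le_iff_mem]; exact hkR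
        rcases hR.mul_le.1 h1 with h2 | h2
        · have h3 := (hQ.isMaximal hQ0).eq_of_le hR.ne_top h2
          rw [← h3]
          exact hsub (Set.mem_insert _ _)
        · exact hsub' (hJ' R hR h2))
      have h2' : ∀ x ∈ Wd c s', ω (c.c π') x = 0 := h2
      have e : Wd c s' ⊔ Submodule.span ℚ {c.c π'} =
          Submodule.span ℚ ((Wd c s' : Set M) ∪ {c.c π'}) := by
        rw [Submodule.span_union, Submodule.span_eq]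
      rw [e] at hW'
      intro x hx y hy
      refine bil_span ω _ _ ?_ x (hW' hx) y (hW' hy)
      rintro x (hx | rfl) y (hy | rfl)
      · exact ih' x hx y hy
      · rw [alt_swap ω hω, h2' x hx, neg_zero]
      · exact h2' y hy
      · exact hω _
  exact key subset_rfl

/-- the vanishing of `K_2` from the surjectivity of `δ` -/
theorem K2_of_bl {D L2 : Type} [AddCommGroup D] [Module ℚ D] [AddCommGroup L2] [Module ℚ L2]
    (E : Bl c D L2) : K2fin c := by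
  intro x y hx hy
  obtain ⟨X, hX, hXm⟩ := Submodule.mem_span_finite_of_mem_span (E.top (E.wg (c.c x) (c.c y)))
  have hX' : ∀ m : L2, m ∈ X → ∃ a b : 𝓞 F, a ≠ 0 ∧ b ≠ 0 ∧ a - b ≠ 0 ∧ m = E.δ (E.sb a b) :=
    fun m hm => hX hm
  choose! f g hf hg hfg hfg' using hX'
  refine ⟨(fun m => (f m, g m)) '' (X : Set L2), X.finite_toSet.image _, ?_, ?_⟩
  · rintro _ ⟨m, hm, rfl⟩
    exact ⟨hf m hm, hg m hm, hfg m hm⟩
  · intro ω hω hτ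
    obtain ⟨F', hF'⟩ := E.fac ω hω
    rw [← hF']
    have h1 : Submodule.span ℚ (X : Set L2) ≤ LinearMap.ker F' := by
      rw [Submodule.span_le]
      intro m hm
      have h2 := hτ (f m, g m) ⟨m, hm, rfl⟩
      rw [SetLike.mem_coe, LinearMap.mem_ker, hfg' m hm, E.δsb _ _ (hf m hm) (hg m hm) (hfg m hm),
        hF', ← h2]
      unfold tau tt
      simp only [map_sub, LinearMap.sub_apply, hω]
      rw [alt_swap ω hω (c.c (f m)) (c.c (g m)),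
        alt_swap ω hω (c.c (g m)) (c.c (f m - g m))]
      ring
    exact h1 hXm

/-- **Finiteness for functionals on `B_2 ⊗ F^*`.** -/
theorem thmA {D L2 : Type} [AddCommGroup D] [Module ℚ D] [AddCommGroup L2] [Module ℚ L2]
    (E : Bl c D L2) (Q : Set (𝓞 F × 𝓞 F)) (hQf : Q.Finite)
    (hQ0 : ∀ q ∈ Q, q.1 ≠ 0 ∧ q.2 ≠ 0 ∧ q.1 - q.2 ≠ 0) : ∃ X : Set (𝓞 F), X.Finite ∧
    (∀ x ∈ X, x ≠ 0) ∧
    ∀ φ : D →ₗ[ℚ] M →ₗ[ℚ] ℚ, Okf E Q φ → (∀ h, E.δ h = 0 → ∀ x ∈ X, φ h (c.c x) = 0) →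
      (∀ x ∈ X, ∀ y ∈ X, ∀ z ∈ X, Tf E φ (c.c x) (c.c y) (c.c z) = 0) →
        (∀ h, E.δ h = 0 → ∀ x, φ h (c.c x) = 0) ∧
        ∀ x y z : 𝓞 F, Tf E φ (c.c x) (c.c y) (c.c z) = 0 := by
  obtain ⟨N₃, hN₃⟩ := exists_loc c (K2_of_bl c E) Q hQf hQ0
  obtain ⟨X, hX, hXs, hXW⟩ := Wd_fg c N₃
  refine ⟨X, hX, fun x hx => (hXs hx).1, fun φ hφ hO hT => ?_⟩
  have key : ∀ N, N₃ ≤ N → Orth E φ (Wd c (Pr F N)) ∧
      ∀ x ∈ Wd c (Pr F N), ∀ y ∈ Wd c (Pr F N), ∀ z ∈ Wd c (Pr F N), Tf E φ x y z = 0 := by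
    intro N hN
    refine tower' (fun s => Orth E φ (Wd c s) ∧ ∀ x ∈ Wd c s, ∀ y ∈ Wd c s, ∀ z ∈ Wd c s,
      Tf E φ x y z = 0) N₃ ⟨?_, ?_⟩ ?_ N hN
    · intro h hh y hy
      have h1 : Submodule.span ℚ (c.c '' X) ≤ LinearMap.ker (φ h) := by
        rw [Submodule.span_le]
        rintro _ ⟨a, ha, rfl⟩
        exact hO h hh a ha
      exact h1 (hXW hy)
    · intro x hx y hy z hz
      refine span_zero (Tf E φ) (c.c '' X) ?_ x (hXW hx) y (hXW hy) z (hXW hz)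
      rintro _ ⟨a, ha, rfl⟩ _ ⟨b, hb, rfl⟩ _ ⟨e, he, rfl⟩
      exact hT a ha b hb e he
    · rintro P hP hP0 hPN s hs hs' hPs ⟨ih1, ih2⟩
      obtain ⟨L, hLW, hLi, hLK, hLQ⟩ := hN₃ P hP hP0 hPN s hs hs' hPs
      obtain ⟨h1, h2⟩ := L.stepD E hφ hLQ hLK (by rw [hLW]; exact ih1) (by rw [hLW]; exact ih2)
      exact ⟨fun h hh y hy => h1 h hh y (hLi hy),
        fun x hx y hy z hz => h2 x (hLi hx) y (hLi hy) z (hLi hz)⟩
  constructor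
  · intro h hh x
    by_cases hx : x = 0
    · rw [hx, c.zero]; simp
    set N := max N₃ (Ideal.absNorm (Ideal.span {x}) + 1) with hN
    exact (key N (le_max_left _ _)).1 h hh _ (cW' c (mem_Sm_large hx N (by omega)))
  · intro x y z
    by_cases hx : x = 0
    · rw [hx, c.zero]; simp
    by_cases hy : y = 0
    · rw [hy, c.zero]; simp
    by_cases hz : z = 0
    · rw [hz, c.zero]; simp
    set N := max N₃ (max (Ideal.absNorm (Ideal.span {x}) + 1)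
      (max (Ideal.absNorm (Ideal.span {y}) + 1) (Ideal.absNorm (Ideal.span {z}) + 1))) with hN
    exact (key N (le_max_left _ _)).2 _ (cW' c (mem_Sm_large hx N (by omega)))
      _ (cW' c (mem_Sm_large hy N (by omega))) _ (cW' c (mem_Sm_large hz N (by omega)))

end Pool.Agent.V8H63.NF
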