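import Pool.Agent.V8H63.W3.Base

set_option autoImplicit false
set_option linter.unusedSectionVars false

/-!
# Local data at a prime and the first part of the argument
-/

namespace Pool.Agent.V8H63.NF

open Pool.Agent.V8H63.W3

/-- a multiplicative map to a `ℚ`-vector space -/
structure Cm (A : Type) [CommRing A] (M : Type) [AddCommGroup M] [Module ℚ M] where
  c : A → M
  zero : c 0 = 0
  mul : ∀ a b, a ≠ 0 → b ≠ 0 → c (a * b) = c a + c b

section cm

variable {A : Type} [CommRing A] [IsDomain A] {M : Type} [AddCommGroup M] [Module ℚ M]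
  (c : Cm A M)

theorem Cm.one : c.c 1 = 0 := by
  have h := c.mul 1 1 one_ne_zero one_ne_zero
  rw [mul_one] at h
  exact left_eq_add.1 h

theorem Cm.neg_one : c.c (-1) = 0 := by
  have h := c.mul (-1) (-1) (neg_ne_zero.2 one_ne_zero) (neg_ne_zero.2 one_ne_zero)
  rw [neg_mul_neg, mul_one, c.one] at h
  have h2 : (2 : ℚ) • c.c (-1) = 0 := by rw [two_smul, ← h]
  exact (smul_eq_zero.1 h2).resolve_left two_ne_zero

theorem Cm.neg (a : A) : c.c (-a) = c.c a := by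
  by_cases ha : a = 0
  · rw [ha, neg_zero]
  · rw [← neg_one_mul, c.mul _ _ (neg_ne_zero.2 one_ne_zero) ha, c.neg_one, zero_add]

theorem Cm.pow (a : A) (ha : a ≠ 0) (n : ℕ) : c.c (a ^ n) = (n : ℚ) • c.c a := by
  induction n with
  | zero => simp [c.one]
  | succ n ih =>
    rw [pow_succ, c.mul _ _ (pow_ne_zero _ ha) ha, ih]
    push_cast
    rw [add_smul, one_smul]

end cm

/-- The data at a prime: the residue field, the smooth elements, the class `p` of the prime and the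
elements of size at most `Y ^ i`. -/
structure Loc {A : Type} [CommRing A] {M : Type} [AddCommGroup M] [Module ℚ M] (c : Cm A M) where
  κ : Type
  [fld : Field κ]
  [fin : Finite κ]
  ρ : A →+* κ
  sm : Set A
  p : M
  S : ℕ → Set A
  mono : ∀ i j, i ≤ j → S i ⊆ S j
  mul : ∀ i j x y, x ∈ S i → y ∈ S j → x * y ∈ S (i + j)
  sub : ∀ i x y, x ∈ S i → y ∈ S i → x - y ∈ S (i + 1)
  smρ : ∀ x ∈ sm, ρ x ≠ 0
  smmul : ∀ x ∈ sm, ∀ y ∈ sm, x * y ∈ sm
  small : ∀ x, x ≠ 0 → x ∈ S 95 → x ∈ sm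
  diff : ∀ x, x ≠ 0 → ρ x = 0 → x ∈ S 191 → c.c x - p ∈ Submodule.span ℚ (c.c '' sm)
  thue2 : ∀ (r : κ) (i j : ℕ), 1 ≤ i → 1 ≤ j → 98 ≤ i + j →
    ∃ a ∈ S i, ∃ b ∈ S j, (a ≠ 0 ∨ b ≠ 0) ∧ ρ a = r * ρ b
  thue3 : ∀ r t : κ, ∃ a ∈ S 66, ∃ b ∈ S 66, ∃ e ∈ S 66, (a ≠ 0 ∨ b ≠ 0 ∨ e ≠ 0) ∧
    ρ a = r * ρ b ∧ ρ e = t * ρ b
  gen : ∀ x ∈ sm, c.c x ∈ Submodule.span ℚ (c.c '' (sm ∩ S 97))

attribute [instance] Loc.fld Loc.fin

variable {A : Type} [CommRing A] [IsDomain A] {M : Type} [AddCommGroup M] [Module ℚ M]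
  {c : Cm A M} (L : Loc c)

/-- the span of the smooth elements -/
def Loc.W : Submodule ℚ M := Submodule.span ℚ (c.c '' L.sm)

theorem Loc.sm0 {x : A} (hx : x ∈ L.sm) : x ≠ 0 := by
  rintro rfl
  exact L.smρ 0 hx (map_zero _)

theorem Loc.cW {x : A} (hx : x ∈ L.sm) : c.c x ∈ L.W := Submodule.subset_span ⟨x, hx, rfl⟩

theorem Loc.cmul {x y : A} (hx : x ∈ L.sm) (hy : y ∈ L.sm) : c.c (x * y) = c.c x + c.c y :=
  c.mul _ _ (L.sm0 hx) (L.sm0 hy)

theorem Loc.tors (h : L.κˣ) : ∃ N : ℕ, 0 < N ∧ h ^ N = 1 :=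
  isOfFinOrder_iff_pow_eq_one.1 (isOfFinOrder_of_finite h)

theorem Loc.pair (r : L.κ) (hr : r ≠ 0) (i j : ℕ) (hi : 1 ≤ i) (hi' : i ≤ 95) (hj : 1 ≤ j)
    (hj' : j ≤ 95) (hij : 98 ≤ i + j) :
    ∃ a ∈ L.S i, ∃ b ∈ L.S j, a ∈ L.sm ∧ b ∈ L.sm ∧ L.ρ a = r * L.ρ b := by
  obtain ⟨a, ha, b, hb, h0, h1⟩ := L.thue2 r i j hi hj hij
  have hb0 : b ≠ 0 := by
    rintro rfl
    have ha0 : a ≠ 0 := by tauto
    rw [map_zero, mul_zero] at h1
    exact L.smρ a (L.small a ha0 (L.mono _ _ hi' ha)) h1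
  have hbs := L.small b hb0 (L.mono _ _ hj' hb)
  have ha0 : a ≠ 0 := by
    rintro rfl
    rw [map_zero] at h1
    exact (mul_ne_zero hr (L.smρ b hbs)) h1.symm
  exact ⟨a, ha, b, hb, L.small a ha0 (L.mono _ _ hi' ha), hbs, h1⟩

/-- linear forms which factor through the residue field vanish on the small elements -/
theorem Loc.tiny_zero (K : ℕ) (hK : 98 ≤ K) (φ : M →ₗ[ℚ] ℚ)
    (h : ∀ a ∈ L.sm, a ∈ L.S K → ∀ b ∈ L.sm, b ∈ L.S 98 → L.ρ a = L.ρ b →
      φ (c.c a) = φ (c.c b)) (g : A) (hg : g ∈ L.sm) (hgS : g ∈ L.S (K - 98)) :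
    φ (c.c g) = 0 := by
  have hp : ∀ r : L.κˣ, ∃ a ∈ L.S 49, ∃ b ∈ L.S 49, a ∈ L.sm ∧ b ∈ L.sm ∧
      L.ρ a = r * L.ρ b := fun r => L.pair r r.ne_zero 49 49 (by norm_num) (by norm_num)
    (by norm_num) (by norm_num) (by norm_num)
  choose a ha b hb has hbs hab using hp
  set f : L.κˣ → ℚ := fun r => φ (c.c (a r)) - φ (c.c (b r)) with hf
  set u : L.κˣ := Units.mk0 (L.ρ g) (L.smρ g hg) with hu
  have key : ∀ r, f (r * u) = f r + φ (c.c g) := by
    intro r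
    have h1 := h (a r * g * b (r * u)) (L.smmul _ (L.smmul _ (has r) _ hg) _ (hbs _))
      (by
        have := L.mul _ _ _ _ (L.mul _ _ _ _ (ha r) hgS) (hb (r * u))
        refine L.mono _ _ ?_ this
        omega)
      (b r * a (r * u)) (L.smmul _ (hbs r) _ (has _)) (L.mul _ _ _ _ (hb r) (ha _))
      (by
        rw [map_mul, map_mul, map_mul, hab r, hab (r * u), Units.val_mul, hu, Units.val_mk0]
        ring)
    rw [L.cmul (L.smmul _ (has r) _ hg) (hbs _), L.cmul (has r) hg, L.cmul (hbs r) (has _)] at h1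
    simp only [map_add] at h1
    simp only [hf]
    linarith
  have h2 : ∀ n : ℕ, f (u ^ n) = f 1 + n * φ (c.c g) := by
    intro n
    induction n with
    | zero => simp
    | succ n ih => rw [pow_succ, key, ih]; push_cast; ring
  obtain ⟨N, hN, h3⟩ := L.tors u
  have h4 := h2 N
  rw [h3] at h4
  have h5 : (N : ℚ) ≠ 0 := by exact_mod_cast hN.ne'
  have h6 : (N : ℚ) * φ (c.c g) = 0 := by linarith
  exact (mul_eq_zero.1 h6).resolve_left h5

theorem Loc.span_ind (φ : M →ₗ[ℚ] ℚ) (h : ∀ g ∈ L.sm, g ∈ L.S 97 → φ (c.c g) = 0) (w : M)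
    (hw : w ∈ L.W) : φ w = 0 := by
  have h1 : Submodule.span ℚ (c.c '' (L.sm ∩ L.S 97)) ≤ LinearMap.ker φ := by
    rw [Submodule.span_le]
    rintro _ ⟨g, ⟨hg, hg'⟩, rfl⟩
    exact h g hg hg'
  have h2 : L.W ≤ LinearMap.ker φ := by
    unfold Loc.W
    rw [Submodule.span_le]
    rintro _ ⟨g, hg, rfl⟩
    exact h1 (L.gen g hg)
  exact h2 hw

/-- linear forms which factor through the residue field vanish -/
theorem Loc.lin_zero (φ : M →ₗ[ℚ] ℚ)
    (h : ∀ a ∈ L.sm, a ∈ L.S 147 → ∀ b ∈ L.sm, b ∈ L.S 98 → L.ρ a = L.ρ b →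
      φ (c.c a) = φ (c.c b)) (w : M) (hw : w ∈ L.W) : φ w = 0 := by
  have ht := L.tiny_zero 147 (by norm_num) φ h
  refine L.span_ind φ (fun g hg hgS => ?_) w hw
  obtain ⟨a, ha, b, hb, has, hbs, hab⟩ := L.pair (L.ρ g) (L.smρ g hg) 49 49 (by norm_num)
    (by norm_num) (by norm_num) (by norm_num) (by norm_num)
  have h1 := h (b * g) (L.smmul _ hbs _ hg) (L.mono _ _ (by norm_num) (L.mul _ _ _ _ hb hgS))
    a has (L.mono _ _ (by norm_num) ha) (by rw [map_mul, hab, mul_comm])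
  rw [L.cmul hbs hg, map_add, ht a has ha, ht b hbs hb] at h1
  linarith

section partA

variable (B : M →ₗ[ℚ] M →ₗ[ℚ] ℚ) (hs : ∀ x y, B x y = B y x)
  (hB : ∀ a ∈ L.sm, ∀ b ∈ L.sm, a - b ∈ L.S 191 → L.ρ a = L.ρ b →
    B (c.c a - c.c b) (c.c a - c.c b) = 0)

include hs hB

theorem Loc.A1 (a b d e : A) (ha : a ∈ L.sm) (hb : b ∈ L.sm) (hd : d ∈ L.sm) (he : e ∈ L.sm)
    (ha' : a ∈ L.S 190) (hb' : b ∈ L.S 190) (hd' : d ∈ L.S 190) (he' : e ∈ L.S 190)
    (h1 : L.ρ a = L.ρ b) (h2 : L.ρ a = L.ρ d) (h3 : L.ρ a = L.ρ e) :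
    B (c.c a - c.c b) (c.c d - c.c e) = 0 := by
  have q1 := hB a ha e he (L.sub _ _ _ ha' he') h3
  have q2 := hB b hb d hd (L.sub _ _ _ hb' hd') (h1.symm.trans h2)
  have q3 := hB a ha d hd (L.sub _ _ _ ha' hd') h2
  have q4 := hB b hb e he (L.sub _ _ _ hb' he') (h1.symm.trans h3)
  simp only [map_sub, LinearMap.sub_apply] at q1 q2 q3 q4 ⊢
  rw [hs (c.c e) (c.c a)] at q1
  rw [hs (c.c d) (c.c b)] at q2
  rw [hs (c.c d) (c.c a)] at q3
  rw [hs (c.c e) (c.c b)] at q4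
  linarith

theorem Loc.A2 (a b d e : A) (ha : a ∈ L.sm) (hb : b ∈ L.sm) (hd : d ∈ L.sm) (he : e ∈ L.sm)
    (ha' : a ∈ L.S 147) (hb' : b ∈ L.S 147) (hd' : d ∈ L.S 135) (he' : e ∈ L.S 135)
    (h1 : L.ρ a = L.ρ b) (h2 : L.ρ d = L.ρ e) :
    B (c.c a - c.c b) (c.c d - c.c e) = 0 := by
  have hρa := L.smρ a ha
  have hρd := L.smρ d hd
  obtain ⟨x, hx, y, hy, hxs, hys, hxy⟩ := L.pair (L.ρ d / L.ρ a) (div_ne_zero hρd hρa) 43 55
    (by norm_num) (by norm_num) (by norm_num) (by norm_num) (by norm_num)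
  have h := L.A1 B hs hB (x * a) (x * b) (y * d) (y * e) (L.smmul _ hxs _ ha)
    (L.smmul _ hxs _ hb) (L.smmul _ hys _ hd) (L.smmul _ hys _ he) (L.mul _ _ _ _ hx ha')
    (L.mul _ _ _ _ hx hb') (L.mul _ _ _ _ hy hd') (L.mul _ _ _ _ hy he')
    (by rw [map_mul, map_mul, h1])
    (by rw [map_mul, map_mul, hxy]; field_simp)
    (by rw [map_mul, map_mul, hxy, ← h2]; field_simp)
  rw [L.cmul hxs ha, L.cmul hxs hb, L.cmul hys hd, L.cmul hys he] at h
  simpa using h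

theorem Loc.A4 (w : M) (hw : w ∈ L.W) (d e : A) (hd : d ∈ L.sm) (he : e ∈ L.sm)
    (hd' : d ∈ L.S 135) (he' : e ∈ L.S 135) (h2 : L.ρ d = L.ρ e) :
    B w (c.c d - c.c e) = 0 := by
  refine L.lin_zero (B.flip (c.c d - c.c e)) (fun a ha ha' b hb hb' hab => ?_) w hw
  have h := L.A2 B hs hB a b d e ha hb hd he ha' (L.mono _ _ (by norm_num) hb') hd' he' hab h2
  simp only [map_sub, LinearMap.sub_apply, LinearMap.flip_apply] at h ⊢
  linarith

theorem Loc.A5 (w : M) (hw : w ∈ L.W) (g : A) (hg : g ∈ L.sm) (hg' : g ∈ L.S 37) :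
    B w (c.c g) = 0 := by
  refine L.tiny_zero 135 (by norm_num) (B w) (fun a ha ha' b hb hb' hab => ?_) g hg hg'
  have h := L.A4 B hs hB w hw a b ha hb ha' (L.mono _ _ (by norm_num) hb') hab
  rw [map_sub] at h
  linarith

/-- the conclusion of part A -/
theorem Loc.partA : ∀ x ∈ L.W, ∀ y ∈ L.W, B x y = 0 := by
  have hp : ∀ r : L.κˣ, ∃ a ∈ L.S 88, ∃ b ∈ L.S 10, a ∈ L.sm ∧ b ∈ L.sm ∧
      L.ρ a = r * L.ρ b := fun r => L.pair r r.ne_zero 88 10 (by norm_num) (by norm_num)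
    (by norm_num) (by norm_num) (by norm_num)
  choose a ha b hb has hbs hab using hp
  -- the radical
  have rβ : ∀ r, ∀ w ∈ L.W, B w (c.c (b r)) = 0 := fun r w hw =>
    L.A5 B hs hB w hw _ (hbs r) (L.mono _ _ (by norm_num) (hb r))
  have rα1 : ∀ w ∈ L.W, B w (c.c (a 1)) = 0 := by
    intro w hw
    have h := L.A4 B hs hB w hw (a 1) (b 1) (has 1) (hbs 1) (L.mono _ _ (by norm_num) (ha 1))
      (L.mono _ _ (by norm_num) (hb 1)) (by rw [hab, Units.val_one, one_mul])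
    rw [map_sub, rβ 1 w hw] at h
    linarith
  have haW : ∀ r, c.c (a r) ∈ L.W := fun r => L.cW (has r)
  have hbW : ∀ r, c.c (b r) ∈ L.W := fun r => L.cW (hbs r)
  set e : L.κˣ → M := fun r => c.c (a r) - c.c (a 1) with he
  have key := Pool.Agent.V8H63.W3.partA (G := L.κˣ) L.tors B hs e (by rw [he]; exact sub_self _) (by
    intro x y z w hxyzw
    set s : L.κˣ := Units.mk0 (L.ρ (a x) * L.ρ (a y) / L.ρ (a z))
      (div_ne_zero (mul_ne_zero (L.smρ _ (has x)) (L.smρ _ (has y))) (L.smρ _ (has z))) with hsdef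
    have hsv : (s : L.κ) = L.ρ (a x) * L.ρ (a y) / L.ρ (a z) := rfl
    have hz0 := L.smρ _ (has z)
    have hbz0 := L.smρ _ (hbs z)
    have hxy : (x : L.κ) * y = z * w := by rw [← Units.val_mul, hxyzw, Units.val_mul]
    have h1 := hB (a x * a y * b s) (L.smmul _ (L.smmul _ (has x) _ (has y)) _ (hbs s))
      (a z * a s) (L.smmul _ (has z) _ (has s))
      (by
        have h1 := L.mul _ _ _ _ (L.mul _ _ _ _ (ha x) (ha y)) (hb s)
        have h2 := L.mul _ _ _ _ (ha z) (ha s)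
        exact L.mono _ _ (by norm_num) (L.sub 186 _ _ h1 (L.mono _ _ (by norm_num) h2)))
      (by
        rw [map_mul, map_mul, map_mul, hab s, hsv]
        field_simp)
    rw [L.cmul (L.smmul _ (has x) _ (has y)) (hbs s), L.cmul (has x) (has y),
      L.cmul (has z) (has s)] at h1
    have h2 : ∀ v ∈ L.W, B v (c.c (a s) - c.c (a w)) = 0 := by
      intro v hv
      have h3 := L.A4 B hs hB v hv (a s * b z * b w) (a w * b x * b y * b s)
        (L.smmul _ (L.smmul _ (has s) _ (hbs z)) _ (hbs w))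
        (L.smmul _ (L.smmul _ (L.smmul _ (has w) _ (hbs x)) _ (hbs y)) _ (hbs s))
        (L.mono _ _ (by norm_num) (L.mul _ _ _ _ (L.mul _ _ _ _ (ha s) (hb z)) (hb w)))
        (L.mono _ _ (by norm_num) (L.mul _ _ _ _ (L.mul _ _ _ _ (L.mul _ _ _ _ (ha w) (hb x))
          (hb y)) (hb s)))
        (by
          rw [map_mul, map_mul, map_mul, map_mul, map_mul, hab s, hab w, hsv, hab x, hab y, hab z]
          have hz1 : (z : L.κ) ≠ 0 := z.ne_zero
          field_simp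
          linear_combination (L.ρ (b x) * L.ρ (b y) * L.ρ (b s) * L.ρ (b w)) * hxy)
      rw [L.cmul (L.smmul _ (has s) _ (hbs z)) (hbs w), L.cmul (has s) (hbs z),
        L.cmul (L.smmul _ (L.smmul _ (has w) _ (hbs x)) _ (hbs y)) (hbs s),
        L.cmul (L.smmul _ (has w) _ (hbs x)) (hbs y), L.cmul (has w) (hbs x)] at h3
      simp only [map_sub, map_add] at h3 ⊢
      have q1 := rβ z v hv
      have q2 := rβ w v hv
      have q3 := rβ x v hv
      have q4 := rβ y v hv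
      have q5 := rβ s v hv
      linarith
    set v : M := c.c (a x) + c.c (a y) + c.c (b s) - (c.c (a z) + c.c (a s)) with hv
    set n : M := c.c (b s) - (c.c (a s) - c.c (a w)) with hn
    have hvW : v ∈ L.W := Submodule.sub_mem _ (Submodule.add_mem _ (Submodule.add_mem _ (haW x)
      (haW y)) (hbW s)) (Submodule.add_mem _ (haW z) (haW s))
    have hnW : n ∈ L.W := Submodule.sub_mem _ (hbW s) (Submodule.sub_mem _ (haW s) (haW w))
    have hnr : ∀ u ∈ L.W, B u n = 0 := by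
      intro u hu
      rw [hn, map_sub, rβ s u hu, h2 u hu, sub_zero]
    have e1 : e x + e y - e z - e w = v - n := by
      simp only [he, hv, hn]
      abel
    rw [e1]
    have q1 := hnr v hvW
    have q2 := hnr n hnW
    have q3 := hs n v
    simp only [map_sub, LinearMap.sub_apply] at h1 ⊢
    rw [q3, q1, q2, h1]
    ring)
  have heW : ∀ r, e r ∈ L.W := fun r => Submodule.sub_mem _ (haW r) (haW 1)
  have hrep : ∀ g ∈ L.sm, g ∈ L.S 97 → ∃ r, ∀ w ∈ L.W, B w (c.c g) = B w (e r) := by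
    intro g hg hgS
    refine ⟨Units.mk0 (L.ρ g) (L.smρ g hg), fun w hw => ?_⟩
    set r : L.κˣ := Units.mk0 (L.ρ g) (L.smρ g hg) with hr
    have h3 := L.A4 B hs hB w hw (b r * g) (a r) (L.smmul _ (hbs r) _ hg) (has r)
      (L.mono _ _ (by norm_num) (L.mul _ _ _ _ (hb r) hgS)) (L.mono _ _ (by norm_num) (ha r))
      (by rw [map_mul, hab r, hr, Units.val_mk0, mul_comm])
    rw [L.cmul (hbs r) hg] at h3
    simp only [map_sub, map_add] at h3
    simp only [he, map_sub]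
    rw [rα1 w hw]
    have := rβ r w hw
    linarith
  have h1 : ∀ g ∈ L.sm, g ∈ L.S 97 → ∀ x ∈ L.W, B x (c.c g) = 0 := by
    intro g hg hgS x hx
    obtain ⟨r, hr⟩ := hrep g hg hgS
    rw [hr x hx]
    refine L.span_ind (B.flip (e r)) (fun g' hg' hgS' => ?_) x hx
    obtain ⟨r', hr'⟩ := hrep g' hg' hgS'
    rw [LinearMap.flip_apply, hs, hr' _ (heW r), hs, key]
  intro x hx y hy
  exact L.span_ind (B x) (fun g hg hgS => h1 g hg hgS x hx) y hy

end partA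

end Pool.Agent.V8H63.NF
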