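import Pool.Agent.V8H63.NF.Loc

set_option autoImplicit false
set_option linter.unusedSectionVars false

/-!
# The second part of the argument: the five-term relation over the residue field
-/

namespace Pool.Agent.V8H63.NF

open Pool.Agent.V8H63.W3

variable {A : Type} [CommRing A] [IsDomain A] {M : Type} [AddCommGroup M] [Module ℚ M]

/-- the value of `ω` on the relation `(a - b) + b = a` -/
def tau (c : Cm A M) (ω : M →ₗ[ℚ] M →ₗ[ℚ] ℚ) (a b : A) : ℚ :=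
  tt ω (c.c b) (c.c (a - b)) (c.c a)

section tau

variable (c : Cm A M) (ω : M →ₗ[ℚ] M →ₗ[ℚ] ℚ) (hω : ∀ x, ω x x = 0)

include hω

theorem tau_smul (l a b : A) (hl : l ≠ 0) (ha : a ≠ 0) (hb : b ≠ 0)
    (hab : a - b ≠ 0) : tau c ω (l * a) (l * b) = tau c ω a b := by
  unfold tau
  rw [← mul_sub, c.mul _ _ hl ha, c.mul _ _ hl hb, c.mul _ _ hl hab, add_comm (c.c l),
    add_comm (c.c l), add_comm (c.c l), tt_shift ω hω]

theorem tau_swap (a b : A) : tau c ω b a = - tau c ω a b := by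
  unfold tau
  rw [← neg_sub a b, c.neg, tt_rev ω hω]

theorem tau_one_sub (a b : A) : tau c ω (b - a) b = - tau c ω a b := by
  unfold tau
  rw [sub_sub_cancel_left, c.neg, ← neg_sub a b, c.neg]
  unfold tt
  have a1 := alt_swap ω hω (c.c b) (c.c a)
  have a2 := alt_swap ω hω (c.c a) (c.c (a - b))
  have a3 := alt_swap ω hω (c.c (a - b)) (c.c b)
  linarith

end tau

variable {c : Cm A M} (L : Loc c) (ω : M →ₗ[ℚ] M →ₗ[ℚ] ℚ) (t : M →ₗ[ℚ] ℚ)

/-- the relations which involve the prime exactly once -/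
def HB : Prop :=
  ∀ a b k : A, a ≠ 0 → b ≠ 0 → k ≠ 0 → c.c a ∈ L.W → c.c b ∈ L.W → c.c k - L.p ∈ L.W →
    a + k = b → tt ω (c.c a) (c.c k - L.p) (c.c b) = t (c.c a) - t (c.c b)

variable (hω : ∀ x, ω x x = 0)

theorem Loc.WW {x y : A} (hx : c.c x ∈ L.W) (hy : c.c y ∈ L.W) (h1 : x ≠ 0) (h2 : y ≠ 0) :
    c.c (x * y) ∈ L.W := by
  rw [c.mul _ _ h1 h2]
  exact Submodule.add_mem _ hx hy

section

variable (H : HB L ω t)

include hω H

theorem Loc.B1 (a a' b : A) (ha : a ≠ 0) (ha' : a' ≠ 0) (hb : b ≠ 0) (hab : a - b ≠ 0)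
    (hab' : a' - b ≠ 0) (h1 : c.c a ∈ L.W) (h1' : c.c a' ∈ L.W) (h2 : c.c b ∈ L.W)
    (h3 : c.c (a - b) ∈ L.W) (h3' : c.c (a' - b) ∈ L.W)
    (hk : a' - a = 0 ∨ c.c (a' - a) - L.p ∈ L.W) :
    tau c ω a b = tau c ω a' b := by
  rcases hk with hk | hk
  · rw [sub_eq_zero.1 hk]
  by_cases hk0 : a' - a = 0
  · rw [sub_eq_zero.1 hk0]
  set k := a' - a with hkdef
  have H1 := H a a' k ha ha' hk0 h1 h1' hk (by rw [hkdef]; ring)
  have H2 := H (a - b) (a' - b) k hab hab' hk0 h3 h3' hk (by rw [hkdef]; ring)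
  have hbk : c.c (b * k) - L.p = c.c b + (c.c k - L.p) := by
    rw [c.mul _ _ hb hk0]
    abel
  have H3 := H (a' * (a - b)) (a * (a' - b)) (b * k) (mul_ne_zero ha' hab)
    (mul_ne_zero ha hab') (mul_ne_zero hb hk0) (L.WW h1' h3 ha' hab) (L.WW h1 h3' ha hab')
    (by rw [hbk]; exact Submodule.add_mem _ h2 hk) (by rw [hkdef]; ring)
  rw [hbk, c.mul _ _ ha' hab, c.mul _ _ ha hab'] at H3
  have H4 := tt_five ω hω (c.c b) (c.c (a - b)) (c.c a) (c.c k - L.p) (c.c (a' - b)) (c.c a')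
  have H5 : tt ω (c.c b + (c.c k - L.p)) (c.c a' + c.c (a - b)) (c.c a + c.c (a' - b)) =
      - tt ω (c.c a' + c.c (a - b)) (c.c b + (c.c k - L.p)) (c.c a + c.c (a' - b)) := by
    have e1 : ∀ x y z : M, tt ω x y z = - tt ω y x z := by
      intro x y z
      unfold tt
      rw [alt_swap ω hω x y, alt_swap ω hω y z, alt_swap ω hω z x]
      ring
    exact e1 _ _ _
  rw [H5, H3, H1, H2] at H4
  simp only [map_add] at H4
  unfold tau
  linarith

theorem Loc.CMP (a b a' b' : A) (ha : a ≠ 0) (hb : b ≠ 0) (ha' : a' ≠ 0) (hb' : b' ≠ 0)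
    (hab : a - b ≠ 0) (hab' : a' - b' ≠ 0) (h1 : c.c a ∈ L.W) (h2 : c.c b ∈ L.W)
    (h3 : c.c (a - b) ∈ L.W) (h1' : c.c a' ∈ L.W) (h2' : c.c b' ∈ L.W)
    (h3' : c.c (a' - b') ∈ L.W) (hρ : L.ρ a * L.ρ b' = L.ρ a' * L.ρ b)
    (hS : b * a' - b' * a ∈ L.S 191) : tau c ω a b = tau c ω a' b' := by
  have e1 := tau_smul c ω hω b' a b hb' ha hb hab
  have e2 := tau_smul c ω hω b a' b' hb ha' hb' hab'
  rw [← e1, ← e2, mul_comm b b']
  refine L.B1 ω t hω H (b' * a) (b * a') (b' * b) (mul_ne_zero hb' ha) (mul_ne_zero hb ha')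
    (mul_ne_zero hb' hb) ?_ ?_ (L.WW h2' h1 hb' ha) (L.WW h2 h1' hb ha')
    (L.WW h2' h2 hb' hb) ?_ ?_ ?_
  · rw [← mul_sub]
    exact mul_ne_zero hb' hab
  · rw [mul_comm b' b, ← mul_sub]
    exact mul_ne_zero hb hab'
  · rw [← mul_sub]
    exact L.WW h2' h3 hb' hab
  · rw [mul_comm b' b, ← mul_sub]
    exact L.WW h2 h3' hb hab'
  · by_cases h0 : b * a' - b' * a = 0
    · exact Or.inl h0
    · right
      refine L.diff _ h0 ?_ hS
      rw [map_sub, map_mul, map_mul, mul_comm, ← hρ, mul_comm, sub_self]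

omit hω H in
/-- the function on the residue field -/
theorem Loc.exists_g : ∃ g : L.κ → ℚ, g 0 = 0 ∧ g 1 = 0 ∧ ∀ r, r ≠ 0 → r ≠ 1 →
    ∃ a ∈ L.S 49, ∃ b ∈ L.S 49, a ∈ L.sm ∧ b ∈ L.sm ∧ a - b ∈ L.sm ∧ L.ρ a = r * L.ρ b ∧
      g r = tau c ω a b := by
  classical
  have h : ∀ r : L.κ, ∃ q : ℚ, (r = 0 → q = 0) ∧ (r = 1 → q = 0) ∧ (r ≠ 0 → r ≠ 1 →
    ∃ a ∈ L.S 49, ∃ b ∈ L.S 49, a ∈ L.sm ∧ b ∈ L.sm ∧ a - b ∈ L.sm ∧ L.ρ a = r * L.ρ b ∧
      q = tau c ω a b) := by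
    intro r
    by_cases h0 : r = 0
    · exact ⟨0, fun _ => rfl, fun _ => rfl, fun h => absurd h0 h⟩
    by_cases h1 : r = 1
    · exact ⟨0, fun _ => rfl, fun _ => rfl, fun _ h => absurd h1 h⟩
    obtain ⟨a, ha, b, hb, has, hbs, hab⟩ := L.pair r h0 49 49 (by norm_num) (by norm_num)
      (by norm_num) (by norm_num) (by norm_num)
    refine ⟨tau c ω a b, fun h => absurd h h0, fun h => absurd h h1, fun _ _ =>
      ⟨a, ha, b, hb, has, hbs, ?_, hab, rfl⟩⟩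
    refine L.small _ ?_ (L.mono _ _ (by norm_num) (L.sub _ _ _ ha hb))
    intro h
    rw [sub_eq_zero.1 h] at hab
    have h2 := L.smρ b hbs
    have h3 : (1 - r) * L.ρ b = 0 := by rw [sub_mul, one_mul, ← hab, sub_self]
    rcases mul_eq_zero.1 h3 with h4 | h4
    · exact h1 (sub_eq_zero.1 h4).symm
    · exact h2 h4
  choose g hg using h
  exact ⟨g, (hg 0).1 rfl, (hg 1).2.1 rfl, fun r h0 h1 => (hg r).2.2 h0 h1⟩

section g

variable (g : L.κ → ℚ) (g0 : g 0 = 0) (g1 : g 1 = 0) (hg : ∀ r, r ≠ 0 → r ≠ 1 →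
    ∃ a ∈ L.S 49, ∃ b ∈ L.S 49, a ∈ L.sm ∧ b ∈ L.sm ∧ a - b ∈ L.sm ∧ L.ρ a = r * L.ρ b ∧
      g r = tau c ω a b)

include hg

theorem Loc.B2 (r : L.κ) (h0 : r ≠ 0) (h1 : r ≠ 1) (a b : A) (ha : a ≠ 0) (hb : b ≠ 0)
    (hab : a - b ≠ 0) (haW : c.c a ∈ L.W) (hbW : c.c b ∈ L.W) (habW : c.c (a - b) ∈ L.W)
    (haS : a ∈ L.S 141) (hbS : b ∈ L.S 141) (hρ : L.ρ a = r * L.ρ b) :
    tau c ω a b = g r := by
  obtain ⟨a', ha', b', hb', has, hbs, habs, hab', e⟩ := hg r h0 h1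
  rw [e]
  refine L.CMP ω t hω H a b a' b' ha hb (L.sm0 has) (L.sm0 hbs) hab (L.sm0 habs) haW hbW habW
    (L.cW has) (L.cW hbs) (L.cW habs) ?_ ?_
  · rw [hρ, hab']
    ring
  · exact L.sub _ _ _ (L.mul _ _ _ _ hbS ha') (L.mono _ _ (by norm_num) (L.mul _ _ _ _ hb' haS))

include g0 g1

theorem Loc.g_zero (r : L.κ) : g r = 0 := by
  have hfin : ∀ r : L.κ, ∃ K : Subfield L.κ, Finite K ∧ r ∈ K := fun r => ⟨⊤, inferInstance,
    Subfield.mem_top r⟩
  have hone : ∀ {r : L.κ} {a b : A}, r ≠ 1 → b ∈ L.sm → L.ρ a = r * L.ρ b → a - b ≠ 0 := by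
    intro r a b h1 hbs hab h
    rw [sub_eq_zero.1 h] at hab
    have h2 := L.smρ b hbs
    have h3 : (1 - r) * L.ρ b = 0 := by rw [sub_mul, one_mul, ← hab, sub_self]
    rcases mul_eq_zero.1 h3 with h4 | h4
    · exact h1 (sub_eq_zero.1 h4).symm
    · exact h2 h4
  refine fiveTerm_zero hfin g g0 g1 ?_ ?_ ?_ r
  · intro r
    by_cases hr0 : r = 0
    · rw [hr0, inv_zero, g0, neg_zero]
    by_cases hr1 : r = 1
    · rw [hr1, inv_one, g1, neg_zero]
    obtain ⟨a, ha, b, hb, has, hbs, habs, hab, e⟩ := hg r hr0 hr1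
    have h1 : r⁻¹ ≠ 1 := fun h => hr1 (inv_eq_one.1 h)
    have hba : b - a ∈ L.sm := by
      refine L.small _ ?_ (L.mono _ _ (by norm_num) (L.sub _ _ _ hb ha))
      rw [← neg_sub]
      exact neg_ne_zero.2 (L.sm0 habs)
    rw [e, ← L.B2 ω t hω H g hg r⁻¹ (inv_ne_zero hr0) h1 b a (L.sm0 hbs) (L.sm0 has)
      (L.sm0 hba) (L.cW hbs) (L.cW has) (L.cW hba) (L.mono _ _ (by norm_num) hb)
      (L.mono _ _ (by norm_num) ha) (by rw [hab]; field_simp), tau_swap c ω hω]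
  · intro r
    by_cases hr0 : r = 0
    · rw [hr0, sub_zero, g1, g0, neg_zero]
    by_cases hr1 : r = 1
    · rw [hr1, sub_self, g1, g0, neg_zero]
    obtain ⟨a, ha, b, hb, has, hbs, habs, hab, e⟩ := hg r hr0 hr1
    have hba : b - a ∈ L.sm := by
      refine L.small _ ?_ (L.mono _ _ (by norm_num) (L.sub _ _ _ hb ha))
      rw [← neg_sub]
      exact neg_ne_zero.2 (L.sm0 habs)
    have h0 : 1 - r ≠ 0 := sub_ne_zero.2 (Ne.symm hr1)
    have h1 : 1 - r ≠ 1 := by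
      intro h
      apply hr0
      have : r = 1 - (1 - r) := by ring
      rw [this, h, sub_self]
    have hd : b - a - b = -a := by ring
    rw [e, ← L.B2 ω t hω H g hg (1 - r) h0 h1 (b - a) b (L.sm0 hba) (L.sm0 hbs)
      (by rw [hd]; exact neg_ne_zero.2 (L.sm0 has)) (L.cW hba) (L.cW hbs)
      (by rw [hd, c.neg]; exact L.cW has)
      (L.mono _ _ (by norm_num) (L.sub _ _ _ hb ha)) (L.mono _ _ (by norm_num) hb)
      (by rw [map_sub, hab]; ring), tau_one_sub c ω hω]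
  · intro r q hr0 hr1 hq0 hq1 hrq
    obtain ⟨a, ha, b, hb, d, hd, h0, hab, hdb⟩ := L.thue3 r q
    have hmS : ∀ {x}, x ∈ L.S 66 → x ∈ L.S 95 := fun h => L.mono _ _ (by norm_num) h
    have hb0 : b ≠ 0 := by
      rintro rfl
      rw [map_zero, mul_zero] at hab hdb
      have ha0 : a = 0 := by
        by_contra h
        exact L.smρ a (L.small a h (hmS ha)) hab
      have hd0 : d = 0 := by
        by_contra h
        exact L.smρ d (L.small d h (hmS hd)) hdb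
      tauto
    have hbs := L.small b hb0 (hmS hb)
    have hρb := L.smρ b hbs
    have ha0 : a ≠ 0 := by
      rintro rfl
      rw [map_zero] at hab
      exact (mul_ne_zero hr0 hρb) hab.symm
    have hd0 : d ≠ 0 := by
      rintro rfl
      rw [map_zero] at hdb
      exact (mul_ne_zero hq0 hρb) hdb.symm
    have has := L.small a ha0 (hmS ha)
    have hds := L.small d hd0 (hmS hd)
    have hS67 : ∀ {x y}, x ∈ L.S 66 → y ∈ L.S 66 → x - y ≠ 0 → x - y ∈ L.sm :=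
      fun hx hy h => L.small _ h (L.mono _ _ (by norm_num) (L.sub _ _ _ hx hy))
    have nab := hone hr1 hbs hab
    have ndb := hone hq1 hbs hdb
    have nda : d - a ≠ 0 := by
      intro h
      apply hrq
      rw [sub_eq_zero.1 h, hab] at hdb
      exact mul_right_cancel₀ hρb hdb
    have sab := hS67 ha hb nab
    have sdb := hS67 hd hb ndb
    have sda := hS67 hd ha nda
    have hρa := L.smρ a has
    have hρab : L.ρ (a - b) = (r - 1) * L.ρ b := by rw [map_sub, hab]; ring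
    have hρdb : L.ρ (d - b) = (q - 1) * L.ρ b := by rw [map_sub, hdb]; ring
    have hρda : L.ρ (d - a) = (q - r) * L.ρ b := by rw [map_sub, hdb, hab]; ring
    have hr1' : r - 1 ≠ 0 := sub_ne_zero.2 hr1
    have hq1' : q - 1 ≠ 0 := sub_ne_zero.2 hq1
    have hqr' : q - r ≠ 0 := sub_ne_zero.2 (Ne.symm hrq)
    have e1 : tau c ω a b = g r := L.B2 ω t hω H g hg r hr0 hr1 a b ha0 hb0 nab (L.cW has)
      (L.cW hbs) (L.cW sab) (L.mono _ _ (by norm_num) ha) (L.mono _ _ (by norm_num) hb) hab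
    have e2 : tau c ω d b = g q := L.B2 ω t hω H g hg q hq0 hq1 d b hd0 hb0 ndb (L.cW hds)
      (L.cW hbs) (L.cW sdb) (L.mono _ _ (by norm_num) hd) (L.mono _ _ (by norm_num) hb) hdb
    have e3 : tau c ω d a = g (q / r) := by
      refine L.B2 ω t hω H g hg (q / r) (div_ne_zero hq0 hr0) ?_ d a hd0 ha0 nda (L.cW hds)
        (L.cW has) (L.cW sda) (L.mono _ _ (by norm_num) hd) (L.mono _ _ (by norm_num) ha) ?_
      · intro h
        rw [div_eq_one_iff_eq hr0] at h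
        exact hrq h.symm
      · rw [hdb, hab]
        field_simp
    have hsub : d - b - (a - b) = d - a := by ring
    have e4 : tau c ω (d - b) (a - b) = g ((q - 1) / (r - 1)) := by
      refine L.B2 ω t hω H g hg _ (div_ne_zero hq1' hr1') ?_ (d - b) (a - b) ndb nab
        (by rw [hsub]; exact nda) (L.cW sdb) (L.cW sab) (by rw [hsub]; exact L.cW sda)
        (L.mono _ _ (by norm_num) (L.sub _ _ _ hd hb))
        (L.mono _ _ (by norm_num) (L.sub _ _ _ ha hb)) ?_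
      · intro h
        rw [div_eq_one_iff_eq hr1'] at h
        exact hrq (sub_left_injective h).symm
      · rw [hρdb, hρab]
        field_simp
    have hsub2 : a * (d - b) - b * (d - a) = d * (a - b) := by ring
    have e5 : tau c ω (a * (d - b)) (b * (d - a)) = g (r * (q - 1) / (q - r)) := by
      refine L.B2 ω t hω H g hg _ (div_ne_zero (mul_ne_zero hr0 hq1') hqr') ?_ _ _
        (mul_ne_zero ha0 ndb) (mul_ne_zero hb0 nda) (by rw [hsub2]; exact mul_ne_zero hd0 nab)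
        (L.WW (L.cW has) (L.cW sdb) ha0 ndb) (L.WW (L.cW hbs) (L.cW sda) hb0 nda)
        (by rw [hsub2]; exact L.WW (L.cW hds) (L.cW sab) hd0 nab)
        (L.mono _ _ (by norm_num) (L.mul _ _ _ _ ha (L.sub _ _ _ hd hb)))
        (L.mono _ _ (by norm_num) (L.mul _ _ _ _ hb (L.sub _ _ _ hd ha))) ?_
      · intro h
        rw [div_eq_one_iff_eq hqr'] at h
        have h2 : q * (r - 1) = 0 := by linear_combination h
        exact (mul_ne_zero hq0 hr1') h2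
      · rw [map_mul, map_mul, hρdb, hρda, hab]
        field_simp
    have H1 := tt_five ω hω (c.c b) (c.c (a - b)) (c.c a) (c.c (d - a)) (c.c (d - b)) (c.c d)
    rw [← e1, ← e2, ← e3, ← e4, ← e5]
    unfold tau
    rw [hsub2, hsub, c.mul _ _ hb0 nda, c.mul _ _ ha0 ndb, c.mul _ _ hd0 nab]
    exact H1

end g

/-- the symbols of bounded size vanish -/
theorem Loc.tau_zero (a b : A) (has : a ∈ L.sm) (hbs : b ∈ L.sm) (habs : a - b ∈ L.sm)
    (haS : a ∈ L.S 147) (hbS : b ∈ L.S 98) : tau c ω a b = 0 := by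
  obtain ⟨g, g0, g1, hg⟩ := L.exists_g ω
  have hρa := L.smρ a has
  have hρb := L.smρ b hbs
  set r : L.κ := L.ρ a / L.ρ b with hr
  have h0 : r ≠ 0 := div_ne_zero hρa hρb
  have h1 : r ≠ 1 := by
    intro h
    rw [hr, div_eq_one_iff_eq hρb] at h
    exact L.smρ _ habs (by rw [map_sub, h, sub_self])
  obtain ⟨a', ha', b', hb', has', hbs', hab'⟩ := L.pair r h0 60 38 (by norm_num) (by norm_num)
    (by norm_num) (by norm_num) (by norm_num)
  have nab : a' - b' ≠ 0 := by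
    intro h
    rw [sub_eq_zero.1 h] at hab'
    have h3 : (1 - r) * L.ρ b' = 0 := by rw [sub_mul, one_mul, ← hab', sub_self]
    rcases mul_eq_zero.1 h3 with h4 | h4
    · exact h1 (sub_eq_zero.1 h4).symm
    · exact L.smρ b' hbs' h4
  have sab : a' - b' ∈ L.sm := L.small _ nab
    (L.mono _ _ (by norm_num) (L.sub _ _ _ ha' (L.mono _ _ (by norm_num) hb')))
  have e1 := L.B2 ω t hω H g hg r h0 h1 a' b' (L.sm0 has') (L.sm0 hbs') nab (L.cW has')
    (L.cW hbs') (L.cW sab) (L.mono _ _ (by norm_num) ha') (L.mono _ _ (by norm_num) hb') hab'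
  rw [L.g_zero ω t hω H g g0 g1 hg] at e1
  rw [← e1]
  refine L.CMP ω t hω H a b a' b' (L.sm0 has) (L.sm0 hbs) (L.sm0 has') (L.sm0 hbs')
    (L.sm0 habs) nab (L.cW has) (L.cW hbs) (L.cW habs) (L.cW has') (L.cW hbs') (L.cW sab) ?_ ?_
  · rw [hab', hr]
    field_simp
  · exact L.sub 190 _ _ (L.mono _ _ (by norm_num) (L.mul _ _ _ _ hbS ha'))
      (L.mono _ _ (by norm_num) (L.mul _ _ _ _ hb' haS))

end

/-- the vanishing of `K_2` in bounded size -/
def Loc.K2 (L : Loc c) : Prop := ∀ ω : M →ₗ[ℚ] M →ₗ[ℚ] ℚ, (∀ x, ω x x = 0) →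
  (∀ a b, a ∈ L.sm → b ∈ L.sm → a - b ∈ L.sm → a ∈ L.S 147 → b ∈ L.S 98 → tau c ω a b = 0) →
  ∀ x ∈ L.W, ∀ y ∈ L.W, ω x y = 0

include hω in
/-- the conclusion of part B -/
theorem Loc.partB (H : HB L ω t) (hK : L.K2) : (∀ x ∈ L.W, ∀ y ∈ L.W, ω x y = 0) ∧
    ∀ x ∈ L.W, t x = 0 := by
  have h0 : ∀ x ∈ L.W, ∀ y ∈ L.W, ω x y = 0 := hK ω hω (fun a b ha hb hab haS hbS =>
    L.tau_zero ω t hω H a b ha hb hab haS hbS)
  refine ⟨h0, L.lin_zero t (fun a ha haS b hb hbS hab => ?_)⟩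
  by_cases hk : b - a = 0
  · rw [sub_eq_zero.1 hk]
  have hd := L.diff (b - a) hk (by rw [map_sub, hab, sub_self])
    (L.mono 148 _ (by norm_num) (L.sub _ _ _ (L.mono _ _ (by norm_num) hbS) haS))
  have h1 := H a b (b - a) (L.sm0 ha) (L.sm0 hb) hk (L.cW ha) (L.cW hb) hd (by ring)
  unfold tt at h1
  rw [h0 _ (L.cW ha) _ hd, h0 _ hd _ (L.cW hb), h0 _ (L.cW hb) _ (L.cW ha)] at h1
  linarith

/-- Tate's step for alternating forms -/
theorem Loc.tate (ω : M →ₗ[ℚ] M →ₗ[ℚ] ℚ) (hω : ∀ x, ω x x = 0)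
    (h0 : ∀ x ∈ L.W, ∀ y ∈ L.W, ω x y = 0)
    (h1 : ∀ a b, a ∈ L.sm → b ∈ L.sm → a - b ≠ 0 → L.ρ a = L.ρ b → a ∈ L.S 147 → b ∈ L.S 98 →
      tau c ω a b = 0) : ∀ x ∈ L.W, ω L.p x = 0 := by
  refine L.lin_zero (ω L.p) (fun a ha haS b hb hbS hab => ?_)
  by_cases hk : a - b = 0
  · rw [sub_eq_zero.1 hk]
  have hd := L.diff (a - b) hk (by rw [map_sub, hab, sub_self])
    (L.mono 148 _ (by norm_num) (L.sub _ _ _ haS (L.mono _ _ (by norm_num) hbS)))
  have h2 := h1 a b ha hb hk hab haS hbS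
  unfold tau tt at h2
  have e1 : c.c (a - b) = (c.c (a - b) - L.p) + L.p := by abel
  rw [e1] at h2
  simp only [map_add, LinearMap.add_apply] at h2
  rw [h0 _ (L.cW hb) _ hd, h0 _ hd _ (L.cW ha), h0 _ (L.cW ha) _ (L.cW hb),
    alt_swap ω hω (c.c b) L.p] at h2
  linarith

end Pool.Agent.V8H63.NF
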