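import Pool.Agent.V8H63.NF.LocG
import Pool.Agent.V8H63.W3.Main

set_option autoImplicit false
set_option linter.unusedSectionVars false

/-!
# One step of the induction for trilinear forms
-/

namespace Pool.Agent.V8H63.NF

open Pool.Agent.V8H63.W3

variable {A : Type} [CommRing A] [IsDomain A] {M : Type} [AddCommGroup M] [Module ℚ M]

/-- `T` vanishes on the symbols `x ⊗ x ⊗ (1 - x)`, `x = a/e`, with `x ∈ U` -/
def RelU (c : Cm A M) (U : Submodule ℚ M) (T : M →ₗ[ℚ] M →ₗ[ℚ] M →ₗ[ℚ] ℚ) : Prop :=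
  ∀ a b e : A, a ≠ 0 → b ≠ 0 → e ≠ 0 → a + b = e → c.c a - c.c e ∈ U →
    T (c.c a - c.c e) (c.c a - c.c e) (c.c b - c.c e) = 0

theorem RelU.mono {c : Cm A M} {U U' : Submodule ℚ M} (h : U ≤ U')
    {T : M →ₗ[ℚ] M →ₗ[ℚ] M →ₗ[ℚ] ℚ} (hT : RelU c U' T) : RelU c U T :=
  fun a b e ha hb he hab hU => hT a b e ha hb he hab (h hU)

variable {c : Cm A M} (L : Loc c) (T : M →ₗ[ℚ] M →ₗ[ℚ] M →ₗ[ℚ] ℚ)
  (hsym : Sym T) 
  (h0 : ∀ x ∈ L.W, ∀ y ∈ L.W, ∀ z ∈ L.W, T x y z = 0)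

include hsym h0

theorem Loc.stepA (hrel : RelU c L.W T) : ∀ x ∈ L.W, ∀ y ∈ L.W, T x y L.p = 0 := by
  let B : M →ₗ[ℚ] M →ₗ[ℚ] ℚ := LinearMap.mk₂ ℚ (fun u v => T u v L.p)
    (fun a b v => by simp) (fun q a v => by simp) (fun a b v => by simp) (fun q a v => by simp)
  have hB : ∀ u v, B u v = T u v L.p := fun u v => rfl
  refine L.partA B (fun u v => by rw [hB, hB, hsym.s]) ?_
  intro a ha b hb hS hab
  rw [hB]
  by_cases hk : a - b = 0
  · rw [sub_eq_zero.1 hk]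
    simp
  have hd := L.diff (a - b) hk (by rw [map_sub, hab, sub_self]) hS
  have hu : c.c b - c.c a ∈ L.W := Submodule.sub_mem _ (L.cW hb) (L.cW ha)
  have h1 := hrel b (a - b) a (L.sm0 hb) hk (L.sm0 ha) (by ring) hu
  have hv : (c.c (a - b) - L.p) - c.c a ∈ L.W := Submodule.sub_mem _ hd (L.cW ha)
  have e1 : c.c (a - b) - c.c a = ((c.c (a - b) - L.p) - c.c a) + L.p := by abel
  rw [e1, map_add, h0 _ hu _ hu _ hv, zero_add] at h1
  have e2 : c.c a - c.c b = -(c.c b - c.c a) := by abel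
  rw [e2]
  simp only [map_neg, LinearMap.neg_apply, neg_neg]
  exact h1

theorem Loc.stepA' (hrel : RelU c L.W T) (x y : M) (hx : x ∈ L.W) (hy : y ∈ L.W) : T L.p x y = - T L.p y x := by
  have h1 := hsym.c x y L.p
  rw [L.stepA T hsym h0 hrel x hx y hy, hsym.s y L.p x] at h1
  linarith

theorem Loc.stepB (hrel : RelU c (L.W ⊔ Submodule.span ℚ {L.p}) T) (hK : L.K2) : (∀ x ∈ L.W, ∀ y ∈ L.W, T L.p x y = 0) ∧
    ∀ x ∈ L.W, T L.p L.p x = 0 := by
  have hrel' := hrel.mono (le_sup_left : L.W ≤ _)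
  set ω : M →ₗ[ℚ] M →ₗ[ℚ] ℚ := T L.p - (T L.p).flip with hω
  have hωe : ∀ x y, ω x y = T L.p x y - T L.p y x := fun x y => rfl
  have hωa : ∀ x, ω x x = 0 := fun x => by rw [hωe, sub_self]
  have hH : HB L ω (T L.p L.p) := by
    intro a b k ha hb hk haW hbW hkW e
    have e2 : c.c k - c.c b = ((c.c k - L.p) - c.c b) + L.p := by abel
    have hκ : (c.c k - L.p) - c.c b ∈ L.W := Submodule.sub_mem _ hkW hbW
    have h1 := hrel k a b hk ha hb (by rw [← e]; ring) (by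
      rw [e2]
      exact Submodule.add_mem_sup hκ (Submodule.mem_span_singleton_self _))
    rw [e2] at h1
    have hu : c.c a - c.c b ∈ L.W := Submodule.sub_mem _ haW hbW
    have h2 : tt ω (c.c a) (c.c k - L.p) (c.c b) =
        ω (c.c a - c.c b) ((c.c k - L.p) - c.c b) := by
      set k' := c.c k - L.p
      unfold tt
      simp only [map_sub, LinearMap.sub_apply, hωa]
      rw [alt_swap ω hωa k' (c.c b), alt_swap ω hωa (c.c b) (c.c a)]
      ring
    have h3 := L.stepA' T hsym h0 hrel' _ _ hu hκ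
    rw [h2, hωe, h3, ← map_sub]
    set κ := (c.c k - L.p) - c.c b with hκ'
    set u := c.c a - c.c b with hu'
    have h4 : T (κ + L.p) (κ + L.p) u =
        T κ κ u + T κ L.p u + T L.p κ u + T L.p L.p u := by
      simp only [map_add, LinearMap.add_apply]
      ring
    rw [h4, h0 κ hκ κ hκ u hu, hsym.s κ L.p u] at h1
    linarith
  obtain ⟨hb1, hb2⟩ := L.partB ω (T L.p L.p) hωa hH hK
  refine ⟨fun x hx y hy => ?_, hb2⟩
  have h2 := hb1 x hx y hy
  rw [hωe] at h2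
  have h3 := L.stepA' T hsym h0 hrel' _ _ hx hy
  linarith

/-- one step of the induction -/
theorem Loc.step (hrel : RelU c (L.W ⊔ Submodule.span ℚ {L.p}) T) (hK : L.K2) : ∀ x ∈ L.W ⊔ Submodule.span ℚ {L.p},
    ∀ y ∈ L.W ⊔ Submodule.span ℚ {L.p}, ∀ z ∈ L.W ⊔ Submodule.span ℚ {L.p}, T x y z = 0 := by
  have hA := L.stepA T hsym h0 (hrel.mono le_sup_left)
  obtain ⟨hB1, hB2⟩ := L.stepB T hsym h0 hrel hK
  have hC : ∀ x ∈ L.W, T L.p x L.p = 0 := by
    intro x hx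
    have h1 := hsym.two L.p x
    rw [hB2 x hx] at h1
    linarith
  have e : L.W ⊔ Submodule.span ℚ {L.p} = Submodule.span ℚ ((L.W : Set M) ∪ {L.p}) := by
    rw [Submodule.span_union, Submodule.span_eq]
  rw [e]
  refine span_zero T _ ?_
  rintro x (hx | rfl) y (hy | rfl) z (hz | rfl)
  · exact h0 x hx y hy z hz
  · exact hA x hx y hy
  · rw [hsym.s]
    exact hB1 x hx z hz
  · rw [hsym.s]
    exact hC x hx
  · exact hB1 y hy z hz
  · exact hC y hy
  · exact hB2 z hz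
  · exact hsym.three L.p

end Pool.Agent.V8H63.NF
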