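import Pool.Agent.V8H63.NF.LocC

set_option autoImplicit false
set_option linter.unusedSectionVars false

/-!
# One step of the induction for functionals on `B_2 ⊗ F^*`
-/

namespace Pool.Agent.V8H63.NF

open Pool.Agent.V8H63.W3

variable {A : Type} [CommRing A] [IsDomain A] {M : Type} [AddCommGroup M] [Module ℚ M]
  {D L2 : Type} [AddCommGroup D] [Module ℚ D] [AddCommGroup L2] [Module ℚ L2]

/-- `D` is generated by symbols `[a, b]` (thought of as `{a/b}_2`), `δ : D → L2 = Λ² M` -/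
structure Bl (c : Cm A M) (D L2 : Type) [AddCommGroup D] [Module ℚ D] [AddCommGroup L2]
    [Module ℚ L2] where
  δ : D →ₗ[ℚ] L2
  s : L2 →ₗ[ℚ] D
  δs : ∀ l, δ (s l) = l
  wg : M →ₗ[ℚ] M →ₗ[ℚ] L2
  wga : ∀ x, wg x x = 0
  fac : ∀ ω : M →ₗ[ℚ] M →ₗ[ℚ] ℚ, (∀ x, ω x x = 0) →
    ∃ f : L2 →ₗ[ℚ] ℚ, ∀ x y, f (wg x y) = ω x y
  sb : A → A → D
  δsb : ∀ a b, a ≠ 0 → b ≠ 0 → a - b ≠ 0 →
    δ (sb a b) = wg (c.c (a - b) - c.c b) (c.c a - c.c b)
  top : ∀ l, l ∈ Submodule.span ℚ {m | ∃ a b, a ≠ 0 ∧ b ≠ 0 ∧ a - b ≠ 0 ∧ m = δ (sb a b)}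

variable {c : Cm A M} (E : Bl c D L2)

/-- the conditions on a functional on `D ⊗ M` -/
structure Okf (Q : Set (A × A)) (φ : D →ₗ[ℚ] M →ₗ[ℚ] ℚ) : Prop where
  ft : ∀ y, Ft (fun a b => φ (E.sb a b) y)
  dec : ∀ a b, a ≠ 0 → b ≠ 0 → a - b ≠ 0 → φ (E.sb a b) (c.c a - c.c b) = 0
  fin : ∀ h, E.δ h = 0 → ∃ h', E.δ h' = 0 ∧
    h' ∈ Submodule.span ℚ ((fun q : A × A => E.sb q.1 q.2) '' Q) ∧ ∀ y, φ h y = φ h' y

variable (φ : D →ₗ[ℚ] M →ₗ[ℚ] ℚ)

/-- `Φ(z, x; y)` -/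
noncomputable def Ph : M →ₗ[ℚ] M →ₗ[ℚ] M →ₗ[ℚ] ℚ :=
  (LinearMap.compr₂ E.wg (φ ∘ₗ E.s))

theorem Ph_apply (z x y : M) : Ph E φ z x y = φ (E.s (E.wg z x)) y := rfl

/-- `T(x, y, z) = Φ(z, x; y) + Φ(z, y; x)` -/
noncomputable def Tf : M →ₗ[ℚ] M →ₗ[ℚ] M →ₗ[ℚ] ℚ :=
  LinearMap.mk₂ ℚ (fun x y => ((Ph E φ).flip x).flip y + ((Ph E φ).flip y).flip x)
    (fun a b v => by ext z; simp only [map_add, LinearMap.add_apply, LinearMap.flip_apply]; ring)
    (fun q a v => by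
      ext z
      simp only [map_smul, LinearMap.smul_apply, LinearMap.add_apply, LinearMap.flip_apply,
        smul_eq_mul]
      ring)
    (fun a b v => by ext z; simp only [map_add, LinearMap.add_apply, LinearMap.flip_apply]; ring)
    (fun q a v => by
      ext z
      simp only [map_smul, LinearMap.smul_apply, LinearMap.add_apply, LinearMap.flip_apply,
        smul_eq_mul]
      ring)

theorem Tf_apply (x y z : M) : Tf E φ x y z = Ph E φ z x y + Ph E φ z y x := rfl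

theorem wg_swap (x y : M) : E.wg x y = - E.wg y x := by
  have h := E.wga (x + y)
  simp only [map_add, LinearMap.add_apply, E.wga] at h
  rw [zero_add, add_zero] at h
  exact eq_neg_of_add_eq_zero_right h

theorem Ph_swap (x y z : M) : Ph E φ x y z = - Ph E φ y x z := by
  rw [Ph_apply, Ph_apply, wg_swap]
  simp

theorem Ph_self (x z : M) : Ph E φ x x z = 0 := by
  rw [Ph_apply, E.wga]
  simp

theorem Tf_sym : Sym (Tf E φ) where
  s x y z := by rw [Tf_apply, Tf_apply]; ring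
  c x y z := by
    rw [Tf_apply, Tf_apply, Tf_apply, Ph_swap E φ z x y, Ph_swap E φ z y x, Ph_swap E φ x y z]
    ring

/-- `U` is orthogonal to the kernel of `δ` -/
def Orth (U : Submodule ℚ M) : Prop := ∀ h, E.δ h = 0 → ∀ y ∈ U, φ h y = 0

variable {φ}

theorem Orth.eq {U : Submodule ℚ M} (hU : Orth E φ U) (d : D) (y : M) (hy : y ∈ U) :
    φ d y = φ (E.s (E.δ d)) y := by
  have h1 := hU (d - E.s (E.δ d)) (by rw [map_sub, E.δs, sub_self]) y hy
  rw [map_sub, LinearMap.sub_apply] at h1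
  linarith

theorem Orth.sb {U : Submodule ℚ M} (hU : Orth E φ U) (a b : A) (ha : a ≠ 0) (hb : b ≠ 0)
    (hab : a - b ≠ 0) (y : M) (hy : y ∈ U) :
    φ (E.sb a b) y = Ph E φ (c.c (a - b) - c.c b) (c.c a - c.c b) y := by
  rw [hU.eq E _ y hy, E.δsb a b ha hb hab]
  rfl

variable {Q : Set (A × A)} (hφ : Okf E Q φ)

include hφ

theorem Okf.relU {U : Submodule ℚ M} (hU : Orth E φ U) : RelU c U (Tf E φ) := by
  intro a b e ha hb he hab hx
  have hk : a - e ≠ 0 := by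
    rw [← hab]
    have : a - (a + b) = -b := by ring
    rw [this]
    exact neg_ne_zero.2 hb
  have hk' : c.c (a - e) = c.c b := by
    rw [← hab]
    have : a - (a + b) = -b := by ring
    rw [this, c.neg]
  have h1 := hφ.dec a e ha he hk
  rw [hU.sb E a e ha he hk _ hx, hk'] at h1
  rw [Tf_apply, h1, add_zero]

theorem Okf.dec' (a b : A) (ha : a ≠ 0) (hb : b ≠ 0) (hab : a - b ≠ 0) :
    φ (E.sb a b) (c.c (a - b) - c.c b) = 0 := by
  have hba : b - a ≠ 0 := by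
    rw [← neg_sub]
    exact neg_ne_zero.2 hab
  have hd : b - a - b ≠ 0 := by
    have : b - a - b = -a := by ring
    rw [this]
    exact neg_ne_zero.2 ha
  have h1 := hφ.dec (b - a) b hba hb hd
  have h2 := (hφ.ft (c.c (b - a) - c.c b)).osub a b ha hb hab
  have h3 : c.c (b - a) = c.c (a - b) := by rw [← neg_sub a b, c.neg]
  rw [h1, h3] at h2
  linarith

variable (L : Loc c)

/-- one step of the induction, first part -/
theorem Loc.stepO (hQ : ∀ q ∈ Q, q.1 ∈ L.sm ∧ q.2 ∈ L.sm ∧ q.1 - q.2 ∈ L.sm ∧ q.1 ∈ L.S 147 ∧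
    q.2 ∈ L.S 98) (hO : Orth E φ L.W)
    (hT : ∀ x ∈ L.W, ∀ y ∈ L.W, ∀ z ∈ L.W, Tf E φ x y z = 0) :
    Orth E φ (L.W ⊔ Submodule.span ℚ {L.p}) := by
  have hA := L.stepA (Tf E φ) (Tf_sym E φ) hT (hφ.relU E hO)
  let ω : M →ₗ[ℚ] M →ₗ[ℚ] ℚ := (1 / 2 : ℚ) • (Ph E φ L.p - (Ph E φ L.p).flip)
  have hωe : ∀ x y, ω x y = (1 / 2 : ℚ) * (Ph E φ L.p x y - Ph E φ L.p y x) := fun x y => rfl
  have hωa : ∀ x, ω x x = 0 := fun x => by rw [hωe, sub_self, mul_zero]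
  have hωW : ∀ x ∈ L.W, ∀ y ∈ L.W, ω x y = Ph E φ L.p x y := by
    intro x hx y hy
    have h1 := hA x hx y hy
    rw [Tf_apply] at h1
    rw [hωe]
    linarith
  have hk : ∀ a b k : A, a ≠ 0 → b ≠ 0 → k ≠ 0 → c.c a ∈ L.W → c.c b ∈ L.W →
      c.c k - L.p ∈ L.W → a + k = b →
      φ (E.sb a b) L.p = - ω (c.c a - c.c b) ((c.c k - L.p) - c.c b) := by
    intro a b k ha hb hk haW hbW hkW e
    have hab : a - b = -k := by rw [← e]; ring
    have hab0 : a - b ≠ 0 := by rw [hab]; exact neg_ne_zero.2 hk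
    have h1 := hφ.dec' E a b ha hb hab0
    have h2 : c.c (a - b) = c.c k := by rw [hab, c.neg]
    have h3 : c.c k - c.c b = L.p + ((c.c k - L.p) - c.c b) := by abel
    have hu : (c.c k - L.p) - c.c b ∈ L.W := Submodule.sub_mem _ hkW hbW
    have hZ : c.c a - c.c b ∈ L.W := Submodule.sub_mem _ haW hbW
    have h4 := hO.sb E a b ha hb hab0 _ hu
    rw [h2, h3] at h1 h4
    set u := (c.c k - L.p) - c.c b with hu'
    set Z := c.c a - c.c b with hZ'
    rw [map_add] at h1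
    rw [map_add, LinearMap.add_apply, LinearMap.add_apply, ← hωW Z hZ u hu] at h4
    have h5 := hT u hu u hu Z hZ
    rw [Tf_apply, Ph_swap E φ Z u u] at h5
    linarith
  set G : A → A → ℚ := fun a b => φ (E.sb a b) L.p - tau c ω a b with hG
  have hGF : Ft G := (hφ.ft L.p).sub (tau_Ft c ω hωa)
  have hGH : HG L G (ω L.p) := by
    intro a b k ha hb hk0 haW hbW hkW e
    have h1 := hk a b k ha hb hk0 haW hbW hkW e
    have hab : a - b = -k := by rw [← e]; ring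
    have h2 : c.c (a - b) = c.c k := by rw [hab, c.neg]
    simp only [hG]
    rw [h1]
    unfold tau tt
    rw [h2]
    have e3 : c.c k = L.p + (c.c k - L.p) := by abel
    set k' := c.c k - L.p with hk'
    rw [e3]
    simp only [map_add, map_sub, LinearMap.add_apply, LinearMap.sub_apply, hωa]
    rw [alt_swap ω hωa (c.c b) L.p, alt_swap ω hωa (c.c b) k', alt_swap ω hωa k' (c.c a)]
    ring
  intro h hh y hy
  have hp : φ h L.p = 0 := by
    obtain ⟨h', hh', hs, he⟩ := hφ.fin h hh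
    rw [he]
    obtain ⟨f, hf⟩ := E.fac ω hωa
    have key : h' ∈ LinearMap.ker (φ.flip L.p - f ∘ₗ E.δ) := by
      have h1 : Submodule.span ℚ ((fun q : A × A => E.sb q.1 q.2) '' Q) ≤
          LinearMap.ker (φ.flip L.p - f ∘ₗ E.δ) := by
        rw [Submodule.span_le]
        rintro _ ⟨q, hq, rfl⟩
        obtain ⟨q1, q2, q3, q4, q5⟩ := hQ q hq
        have h2 := L.G_zero G (ω L.p) hGF hGH q.1 q.2 q1 q2 q3 q4 q5
        simp only [hG] at h2
        simp only [SetLike.mem_coe, LinearMap.mem_ker, LinearMap.sub_apply, LinearMap.flip_apply,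
          LinearMap.comp_apply]
        rw [E.δsb _ _ (L.sm0 q1) (L.sm0 q2) (L.sm0 q3), hf, ← h2]
        unfold tau tt
        simp only [map_sub, LinearMap.sub_apply, hωa]
        rw [alt_swap ω hωa (c.c q.1) (c.c q.2), alt_swap ω hωa (c.c q.2) (c.c (q.1 - q.2))]
        ring
      exact h1 hs
    rw [LinearMap.mem_ker, LinearMap.sub_apply, LinearMap.flip_apply, LinearMap.comp_apply, hh',
      map_zero, sub_zero] at key
    exact key
  obtain ⟨w, hw, z, hz, rfl⟩ := Submodule.mem_sup.1 hy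
  obtain ⟨q, rfl⟩ := Submodule.mem_span_singleton.1 hz
  rw [map_add, map_smul, hO h hh w hw, hp, smul_zero, add_zero]

/-- one step of the induction -/
theorem Loc.stepD (hQ : ∀ q ∈ Q, q.1 ∈ L.sm ∧ q.2 ∈ L.sm ∧ q.1 - q.2 ∈ L.sm ∧ q.1 ∈ L.S 147 ∧
    q.2 ∈ L.S 98) (hK : L.K2) (hO : Orth E φ L.W)
    (hT : ∀ x ∈ L.W, ∀ y ∈ L.W, ∀ z ∈ L.W, Tf E φ x y z = 0) :
    Orth E φ (L.W ⊔ Submodule.span ℚ {L.p}) ∧
    ∀ x ∈ L.W ⊔ Submodule.span ℚ {L.p}, ∀ y ∈ L.W ⊔ Submodule.span ℚ {L.p},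
      ∀ z ∈ L.W ⊔ Submodule.span ℚ {L.p}, Tf E φ x y z = 0 := by
  have h1 := L.stepO E hφ hQ hO hT
  exact ⟨h1, L.step (Tf E φ) (Tf_sym E φ) hT (hφ.relU E h1) hK⟩

end Pool.Agent.V8H63.NF
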