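import Pool.Agent.V8H63.NF.LocB

set_option autoImplicit false
set_option linter.unusedSectionVars false

/-!
# Functions with the five-term relation at a prime
-/

namespace Pool.Agent.V8H63.NF

open Pool.Agent.V8H63.W3

variable {A : Type} [CommRing A] [IsDomain A] {M : Type} [AddCommGroup M] [Module ℚ M]

/-- homogeneous functions with the five-term relation -/
structure Ft (G : A → A → ℚ) : Prop where
  smul : ∀ l a b, l ≠ 0 → a ≠ 0 → b ≠ 0 → a - b ≠ 0 → G (l * a) (l * b) = G a b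
  swap : ∀ a b, a ≠ 0 → b ≠ 0 → a - b ≠ 0 → G b a = - G a b
  osub : ∀ a b, a ≠ 0 → b ≠ 0 → a - b ≠ 0 → G (b - a) b = - G a b
  five : ∀ a b d, a ≠ 0 → b ≠ 0 → d ≠ 0 → a - b ≠ 0 → d - b ≠ 0 → d - a ≠ 0 →
    G a b - G d b + G d a - G (d - b) (a - b) = G (a * (d - b)) (b * (d - a))

theorem Ft.sub {G G' : A → A → ℚ} (h : Ft G) (h' : Ft G') : Ft (fun a b => G a b - G' a b) where
  smul l a b hl ha hb hab := by rw [h.smul l a b hl ha hb hab, h'.smul l a b hl ha hb hab]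
  swap a b ha hb hab := by rw [h.swap a b ha hb hab, h'.swap a b ha hb hab]; ring
  osub a b ha hb hab := by rw [h.osub a b ha hb hab, h'.osub a b ha hb hab]; ring
  five a b d ha hb hd h1 h2 h3 := by
    rw [← h.five a b d ha hb hd h1 h2 h3, ← h'.five a b d ha hb hd h1 h2 h3]; ring

theorem tau_Ft (c : Cm A M) (ω : M →ₗ[ℚ] M →ₗ[ℚ] ℚ) (hω : ∀ x, ω x x = 0) : Ft (tau c ω) where
  smul l a b hl ha hb hab := tau_smul c ω hω l a b hl ha hb hab
  swap a b _ _ _ := tau_swap c ω hω a b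
  osub a b _ _ _ := tau_one_sub c ω hω a b
  five a b d ha hb hd h1 h2 h3 := by
    have hsub : d - b - (a - b) = d - a := by ring
    have hsub2 : a * (d - b) - b * (d - a) = d * (a - b) := by ring
    have H1 := tt_five ω hω (c.c b) (c.c (a - b)) (c.c a) (c.c (d - a)) (c.c (d - b)) (c.c d)
    unfold tau
    rw [hsub2, hsub, c.mul _ _ hb h3, c.mul _ _ ha h2, c.mul _ _ hd h1]
    exact H1

variable {c : Cm A M} (L : Loc c) (G : A → A → ℚ) (t : M →ₗ[ℚ] ℚ)

/-- the values on the pairs which involve the prime exactly once -/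
def HG : Prop :=
  ∀ a b k : A, a ≠ 0 → b ≠ 0 → k ≠ 0 → c.c a ∈ L.W → c.c b ∈ L.W → c.c k - L.p ∈ L.W →
    a + k = b → G a b = t (c.c b) - t (c.c a)

variable (hG : Ft G) (H : HG L G t)

include hG H

theorem Loc.G1 (a a' b : A) (ha : a ≠ 0) (ha' : a' ≠ 0) (hb : b ≠ 0) (hab : a - b ≠ 0)
    (hab' : a' - b ≠ 0) (h1 : c.c a ∈ L.W) (h1' : c.c a' ∈ L.W) (h2 : c.c b ∈ L.W)
    (h3 : c.c (a - b) ∈ L.W) (h3' : c.c (a' - b) ∈ L.W)
    (hk : a' - a = 0 ∨ c.c (a' - a) - L.p ∈ L.W) :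
    G a b = G a' b := by
  rcases hk with hk | hk
  · rw [sub_eq_zero.1 hk]
  by_cases hk0 : a' - a = 0
  · rw [sub_eq_zero.1 hk0]
  have hk0' : a - a' ≠ 0 := fun h => hk0 (by rw [← neg_sub, h, neg_zero])
  have H1 := H a a' (a' - a) ha ha' hk0 h1 h1' hk (by ring)
  have H2 := H (a - b) (a' - b) (a' - a) hab hab' hk0 h3 h3' hk (by ring)
  have hbk : c.c (b * (a' - a)) - L.p = c.c b + (c.c (a' - a) - L.p) := by
    rw [c.mul _ _ hb hk0]
    abel
  have H3 := H (a' * (a - b)) (a * (a' - b)) (b * (a' - a)) (mul_ne_zero ha' hab)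
    (mul_ne_zero ha hab') (mul_ne_zero hb hk0) (L.WW h1' h3 ha' hab) (L.WW h1 h3' ha hab')
    (by rw [hbk]; exact Submodule.add_mem _ h2 hk) (by ring)
  rw [c.mul _ _ ha' hab, c.mul _ _ ha hab', map_add, map_add] at H3
  have H4 := hG.five a b a' ha hb ha' hab hab' hk0
  have H5 := hG.swap a a' ha ha' hk0'
  have e6 : a - b - (a' - b) ≠ 0 := by
    have : a - b - (a' - b) = a - a' := by ring
    rw [this]; exact hk0'
  have H6 := hG.swap (a - b) (a' - b) hab hab' e6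
  have hXY : a * (a' - b) - b * (a' - a) = a' * (a - b) := by ring
  have hYX : b * (a' - a) - a * (a' - b) ≠ 0 := by
    have : b * (a' - a) - a * (a' - b) = - (a' * (a - b)) := by ring
    rw [this]; exact neg_ne_zero.2 (mul_ne_zero ha' hab)
  have H7 := hG.osub (b * (a' - a)) (a * (a' - b)) (mul_ne_zero hb hk0) (mul_ne_zero ha hab') hYX
  have H8 := hG.swap (b * (a' - a)) (a * (a' - b)) (mul_ne_zero hb hk0) (mul_ne_zero ha hab') hYX
  rw [hXY] at H7
  linarith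

theorem Loc.GMP (a b a' b' : A) (ha : a ≠ 0) (hb : b ≠ 0) (ha' : a' ≠ 0) (hb' : b' ≠ 0)
    (hab : a - b ≠ 0) (hab' : a' - b' ≠ 0) (h1 : c.c a ∈ L.W) (h2 : c.c b ∈ L.W)
    (h3 : c.c (a - b) ∈ L.W) (h1' : c.c a' ∈ L.W) (h2' : c.c b' ∈ L.W)
    (h3' : c.c (a' - b') ∈ L.W) (hρ : L.ρ a * L.ρ b' = L.ρ a' * L.ρ b)
    (hS : b * a' - b' * a ∈ L.S 191) : G a b = G a' b' := by
  have e1 := hG.smul b' a b hb' ha hb hab
  have e2 := hG.smul b a' b' hb ha' hb' hab'
  rw [← e1, ← e2, mul_comm b b']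
  refine L.G1 G t hG H (b' * a) (b * a') (b' * b) (mul_ne_zero hb' ha) (mul_ne_zero hb ha')
    (mul_ne_zero hb' hb) ?_ ?_ (L.WW h2' h1 hb' ha) (L.WW h2 h1' hb ha')
    (L.WW h2' h2 hb' hb) ?_ ?_ ?_
  · rw [← mul_sub]
    exact mul_ne_zero hb' hab
  · rw [mul_comm b' b, ← mul_sub]
    exact mul_ne_zero hb hab'
  · rw [← mul_sub]
    exact L.WW h2' h3 hb' hab
  · rw [mul_comm b' b, ← mul_sub]
    exact L.WW h2 h3' hb hab'
  · by_cases h0 : b * a' - b' * a = 0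
    · exact Or.inl h0
    · right
      refine L.diff _ h0 ?_ hS
      rw [map_sub, map_mul, map_mul, mul_comm, ← hρ, mul_comm, sub_self]

omit hG H in
/-- the function on the residue field -/
theorem Loc.exists_gG : ∃ g : L.κ → ℚ, g 0 = 0 ∧ g 1 = 0 ∧ ∀ r, r ≠ 0 → r ≠ 1 →
    ∃ a ∈ L.S 49, ∃ b ∈ L.S 49, a ∈ L.sm ∧ b ∈ L.sm ∧ a - b ∈ L.sm ∧ L.ρ a = r * L.ρ b ∧
      g r = G a b := by
  classical
  have h : ∀ r : L.κ, ∃ q : ℚ, (r = 0 → q = 0) ∧ (r = 1 → q = 0) ∧ (r ≠ 0 → r ≠ 1 →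
    ∃ a ∈ L.S 49, ∃ b ∈ L.S 49, a ∈ L.sm ∧ b ∈ L.sm ∧ a - b ∈ L.sm ∧ L.ρ a = r * L.ρ b ∧
      q = G a b) := by
    intro r
    by_cases h0 : r = 0
    · exact ⟨0, fun _ => rfl, fun _ => rfl, fun h => absurd h0 h⟩
    by_cases h1 : r = 1
    · exact ⟨0, fun _ => rfl, fun _ => rfl, fun _ h => absurd h1 h⟩
    obtain ⟨a, ha, b, hb, has, hbs, hab⟩ := L.pair r h0 49 49 (by norm_num) (by norm_num)
      (by norm_num) (by norm_num) (by norm_num)
    refine ⟨G a b, fun h => absurd h h0, fun h => absurd h h1, fun _ _ =>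
      ⟨a, ha, b, hb, has, hbs, ?_, hab, rfl⟩⟩
    refine L.small _ ?_ (L.mono _ _ (by norm_num) (L.sub _ _ _ ha hb))
    intro h
    rw [sub_eq_zero.1 h] at hab
    have h2 := L.smρ b hbs
    have h3 : (1 - r) * L.ρ b = 0 := by rw [sub_mul, one_mul, ← hab, sub_self]
    rcases mul_eq_zero.1 h3 with h4 | h4
    · exact h1 (sub_eq_zero.1 h4).symm
    · exact h2 h4
  choose g hg using h
  exact ⟨g, (hg 0).1 rfl, (hg 1).2.1 rfl, fun r h0 h1 => (hg r).2.2 h0 h1⟩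

section g

variable (g : L.κ → ℚ) (g0 : g 0 = 0) (g1 : g 1 = 0) (hg : ∀ r, r ≠ 0 → r ≠ 1 →
    ∃ a ∈ L.S 49, ∃ b ∈ L.S 49, a ∈ L.sm ∧ b ∈ L.sm ∧ a - b ∈ L.sm ∧ L.ρ a = r * L.ρ b ∧
      g r = G a b)

include hg

theorem Loc.G2 (r : L.κ) (h0 : r ≠ 0) (h1 : r ≠ 1) (a b : A) (ha : a ≠ 0) (hb : b ≠ 0)
    (hab : a - b ≠ 0) (haW : c.c a ∈ L.W) (hbW : c.c b ∈ L.W) (habW : c.c (a - b) ∈ L.W)
    (haS : a ∈ L.S 141) (hbS : b ∈ L.S 141) (hρ : L.ρ a = r * L.ρ b) :
    G a b = g r := by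
  obtain ⟨a', ha', b', hb', has, hbs, habs, hab', e⟩ := hg r h0 h1
  rw [e]
  refine L.GMP G t hG H a b a' b' ha hb (L.sm0 has) (L.sm0 hbs) hab (L.sm0 habs) haW hbW habW
    (L.cW has) (L.cW hbs) (L.cW habs) ?_ ?_
  · rw [hρ, hab']
    ring
  · exact L.sub _ _ _ (L.mul _ _ _ _ hbS ha') (L.mono _ _ (by norm_num) (L.mul _ _ _ _ hb' haS))

include g0 g1

theorem Loc.gG_zero (r : L.κ) : g r = 0 := by
  have hfin : ∀ r : L.κ, ∃ K : Subfield L.κ, Finite K ∧ r ∈ K := fun r => ⟨⊤, inferInstance,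
    Subfield.mem_top r⟩
  have hone : ∀ {r : L.κ} {a b : A}, r ≠ 1 → b ∈ L.sm → L.ρ a = r * L.ρ b → a - b ≠ 0 := by
    intro r a b h1 hbs hab h
    rw [sub_eq_zero.1 h] at hab
    have h2 := L.smρ b hbs
    have h3 : (1 - r) * L.ρ b = 0 := by rw [sub_mul, one_mul, ← hab, sub_self]
    rcases mul_eq_zero.1 h3 with h4 | h4
    · exact h1 (sub_eq_zero.1 h4).symm
    · exact h2 h4
  refine fiveTerm_zero hfin g g0 g1 ?_ ?_ ?_ r
  · intro r
    by_cases hr0 : r = 0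
    · rw [hr0, inv_zero, g0, neg_zero]
    by_cases hr1 : r = 1
    · rw [hr1, inv_one, g1, neg_zero]
    obtain ⟨a, ha, b, hb, has, hbs, habs, hab, e⟩ := hg r hr0 hr1
    have h1 : r⁻¹ ≠ 1 := fun h => hr1 (inv_eq_one.1 h)
    have hba : b - a ∈ L.sm := by
      refine L.small _ ?_ (L.mono _ _ (by norm_num) (L.sub _ _ _ hb ha))
      rw [← neg_sub]
      exact neg_ne_zero.2 (L.sm0 habs)
    rw [e, ← L.G2 G t hG H g hg r⁻¹ (inv_ne_zero hr0) h1 b a (L.sm0 hbs) (L.sm0 has)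
      (L.sm0 hba) (L.cW hbs) (L.cW has) (L.cW hba) (L.mono _ _ (by norm_num) hb)
      (L.mono _ _ (by norm_num) ha) (by rw [hab]; field_simp), hG.swap a b (L.sm0 has) (L.sm0 hbs)
      (L.sm0 habs)]
  · intro r
    by_cases hr0 : r = 0
    · rw [hr0, sub_zero, g1, g0, neg_zero]
    by_cases hr1 : r = 1
    · rw [hr1, sub_self, g1, g0, neg_zero]
    obtain ⟨a, ha, b, hb, has, hbs, habs, hab, e⟩ := hg r hr0 hr1
    have hba : b - a ∈ L.sm := by
      refine L.small _ ?_ (L.mono _ _ (by norm_num) (L.sub _ _ _ hb ha))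
      rw [← neg_sub]
      exact neg_ne_zero.2 (L.sm0 habs)
    have h0 : 1 - r ≠ 0 := sub_ne_zero.2 (Ne.symm hr1)
    have h1 : 1 - r ≠ 1 := by
      intro h
      apply hr0
      have : r = 1 - (1 - r) := by ring
      rw [this, h, sub_self]
    have hd : b - a - b = -a := by ring
    rw [e, ← L.G2 G t hG H g hg (1 - r) h0 h1 (b - a) b (L.sm0 hba) (L.sm0 hbs)
      (by rw [hd]; exact neg_ne_zero.2 (L.sm0 has)) (L.cW hba) (L.cW hbs)
      (by rw [hd, c.neg]; exact L.cW has)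
      (L.mono _ _ (by norm_num) (L.sub _ _ _ hb ha)) (L.mono _ _ (by norm_num) hb)
      (by rw [map_sub, hab]; ring), hG.osub a b (L.sm0 has) (L.sm0 hbs) (L.sm0 habs)]
  · intro r q hr0 hr1 hq0 hq1 hrq
    obtain ⟨a, ha, b, hb, d, hd, h0, hab, hdb⟩ := L.thue3 r q
    have hmS : ∀ {x}, x ∈ L.S 66 → x ∈ L.S 95 := fun h => L.mono _ _ (by norm_num) h
    have hb0 : b ≠ 0 := by
      rintro rfl
      rw [map_zero, mul_zero] at hab hdb
      have ha0 : a = 0 := by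
        by_contra h
        exact L.smρ a (L.small a h (hmS ha)) hab
      have hd0 : d = 0 := by
        by_contra h
        exact L.smρ d (L.small d h (hmS hd)) hdb
      tauto
    have hbs := L.small b hb0 (hmS hb)
    have hρb := L.smρ b hbs
    have ha0 : a ≠ 0 := by
      rintro rfl
      rw [map_zero] at hab
      exact (mul_ne_zero hr0 hρb) hab.symm
    have hd0 : d ≠ 0 := by
      rintro rfl
      rw [map_zero] at hdb
      exact (mul_ne_zero hq0 hρb) hdb.symm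
    have has := L.small a ha0 (hmS ha)
    have hds := L.small d hd0 (hmS hd)
    have hS67 : ∀ {x y}, x ∈ L.S 66 → y ∈ L.S 66 → x - y ≠ 0 → x - y ∈ L.sm :=
      fun hx hy h => L.small _ h (L.mono _ _ (by norm_num) (L.sub _ _ _ hx hy))
    have nab := hone hr1 hbs hab
    have ndb := hone hq1 hbs hdb
    have nda : d - a ≠ 0 := by
      intro h
      apply hrq
      rw [sub_eq_zero.1 h, hab] at hdb
      exact mul_right_cancel₀ hρb hdb
    have sab := hS67 ha hb nab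
    have sdb := hS67 hd hb ndb
    have sda := hS67 hd ha nda
    have hρa := L.smρ a has
    have hρab : L.ρ (a - b) = (r - 1) * L.ρ b := by rw [map_sub, hab]; ring
    have hρdb : L.ρ (d - b) = (q - 1) * L.ρ b := by rw [map_sub, hdb]; ring
    have hρda : L.ρ (d - a) = (q - r) * L.ρ b := by rw [map_sub, hdb, hab]; ring
    have hr1' : r - 1 ≠ 0 := sub_ne_zero.2 hr1
    have hq1' : q - 1 ≠ 0 := sub_ne_zero.2 hq1
    have hqr' : q - r ≠ 0 := sub_ne_zero.2 (Ne.symm hrq)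
    have e1 : G a b = g r := L.G2 G t hG H g hg r hr0 hr1 a b ha0 hb0 nab (L.cW has)
      (L.cW hbs) (L.cW sab) (L.mono _ _ (by norm_num) ha) (L.mono _ _ (by norm_num) hb) hab
    have e2 : G d b = g q := L.G2 G t hG H g hg q hq0 hq1 d b hd0 hb0 ndb (L.cW hds)
      (L.cW hbs) (L.cW sdb) (L.mono _ _ (by norm_num) hd) (L.mono _ _ (by norm_num) hb) hdb
    have e3 : G d a = g (q / r) := by
      refine L.G2 G t hG H g hg (q / r) (div_ne_zero hq0 hr0) ?_ d a hd0 ha0 nda (L.cW hds)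
        (L.cW has) (L.cW sda) (L.mono _ _ (by norm_num) hd) (L.mono _ _ (by norm_num) ha) ?_
      · intro h
        rw [div_eq_one_iff_eq hr0] at h
        exact hrq h.symm
      · rw [hdb, hab]
        field_simp
    have hsub : d - b - (a - b) = d - a := by ring
    have e4 : G (d - b) (a - b) = g ((q - 1) / (r - 1)) := by
      refine L.G2 G t hG H g hg _ (div_ne_zero hq1' hr1') ?_ (d - b) (a - b) ndb nab
        (by rw [hsub]; exact nda) (L.cW sdb) (L.cW sab) (by rw [hsub]; exact L.cW sda)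
        (L.mono _ _ (by norm_num) (L.sub _ _ _ hd hb))
        (L.mono _ _ (by norm_num) (L.sub _ _ _ ha hb)) ?_
      · intro h
        rw [div_eq_one_iff_eq hr1'] at h
        exact hrq (sub_left_injective h).symm
      · rw [hρdb, hρab]
        field_simp
    have hsub2 : a * (d - b) - b * (d - a) = d * (a - b) := by ring
    have e5 : G (a * (d - b)) (b * (d - a)) = g (r * (q - 1) / (q - r)) := by
      refine L.G2 G t hG H g hg _ (div_ne_zero (mul_ne_zero hr0 hq1') hqr') ?_ _ _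
        (mul_ne_zero ha0 ndb) (mul_ne_zero hb0 nda) (by rw [hsub2]; exact mul_ne_zero hd0 nab)
        (L.WW (L.cW has) (L.cW sdb) ha0 ndb) (L.WW (L.cW hbs) (L.cW sda) hb0 nda)
        (by rw [hsub2]; exact L.WW (L.cW hds) (L.cW sab) hd0 nab)
        (L.mono _ _ (by norm_num) (L.mul _ _ _ _ ha (L.sub _ _ _ hd hb)))
        (L.mono _ _ (by norm_num) (L.mul _ _ _ _ hb (L.sub _ _ _ hd ha))) ?_
      · intro h
        rw [div_eq_one_iff_eq hqr'] at h
        have h2 : q * (r - 1) = 0 := by linear_combination h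
        exact (mul_ne_zero hq0 hr1') h2
      · rw [map_mul, map_mul, hρdb, hρda, hab]
        field_simp
    have H1 := hG.five a b d ha0 hb0 hd0 nab ndb nda
    rw [← e1, ← e2, ← e3, ← e4, ← e5]
    exact H1

end g

/-- the values of bounded size vanish -/
theorem Loc.G_zero (a b : A) (has : a ∈ L.sm) (hbs : b ∈ L.sm) (habs : a - b ∈ L.sm)
    (haS : a ∈ L.S 147) (hbS : b ∈ L.S 98) : G a b = 0 := by
  obtain ⟨g, g0, g1, hg⟩ := L.exists_gG G
  have hρa := L.smρ a has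
  have hρb := L.smρ b hbs
  set r : L.κ := L.ρ a / L.ρ b with hr
  have h0 : r ≠ 0 := div_ne_zero hρa hρb
  have h1 : r ≠ 1 := by
    intro h
    rw [hr, div_eq_one_iff_eq hρb] at h
    exact L.smρ _ habs (by rw [map_sub, h, sub_self])
  obtain ⟨a', ha', b', hb', has', hbs', hab'⟩ := L.pair r h0 60 38 (by norm_num) (by norm_num)
    (by norm_num) (by norm_num) (by norm_num)
  have nab : a' - b' ≠ 0 := by
    intro h
    rw [sub_eq_zero.1 h] at hab'
    have h3 : (1 - r) * L.ρ b' = 0 := by rw [sub_mul, one_mul, ← hab', sub_self]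
    rcases mul_eq_zero.1 h3 with h4 | h4
    · exact h1 (sub_eq_zero.1 h4).symm
    · exact L.smρ b' hbs' h4
  have sab : a' - b' ∈ L.sm := L.small _ nab
    (L.mono _ _ (by norm_num) (L.sub _ _ _ ha' (L.mono _ _ (by norm_num) hb')))
  have e1 := L.G2 G t hG H g hg r h0 h1 a' b' (L.sm0 has') (L.sm0 hbs') nab (L.cW has')
    (L.cW hbs') (L.cW sab) (L.mono _ _ (by norm_num) ha') (L.mono _ _ (by norm_num) hb') hab'
  rw [L.gG_zero G t hG H g g0 g1 hg] at e1
  rw [← e1]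
  refine L.GMP G t hG H a b a' b' (L.sm0 has) (L.sm0 hbs) (L.sm0 has') (L.sm0 hbs')
    (L.sm0 habs) nab (L.cW has) (L.cW hbs) (L.cW habs) (L.cW has') (L.cW hbs') (L.cW sab) ?_ ?_
  · rw [hab', hr]
    field_simp
  · exact L.sub 190 _ _ (L.mono _ _ (by norm_num) (L.mul _ _ _ _ hbS ha'))
      (L.mono _ _ (by norm_num) (L.mul _ _ _ _ hb' haS))

end Pool.Agent.V8H63.NF
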