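import Pool.Agent.V8H63.NF.Geo

set_option autoImplicit false
set_option linter.unusedSectionVars false

/-!
# Small solutions of congruences in number fields
-/

namespace Pool.Agent.V8H63.NF

open NumberField

variable (F : Type) [Field F] [NumberField F]

/-- the constant -/
noncomputable def Cst : ℝ := max 2 (∑ i, house ((RingOfIntegers.basis F i : 𝓞 F) : F))

theorem two_le_Cst : 2 ≤ Cst F := le_max_left _ _

theorem one_le_Cst : 1 ≤ Cst F := by have := two_le_Cst F; linarith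

/-- elements with coordinates between `0` and `H` -/
noncomputable def el (H : ℕ) (v : Module.Free.ChooseBasisIndex ℤ (𝓞 F) → Fin (H + 1)) : 𝓞 F :=
  ∑ i, ((v i : ℕ) : ℤ) • RingOfIntegers.basis F i

theorem el_inj (H : ℕ) (v w : Module.Free.ChooseBasisIndex ℤ (𝓞 F) → Fin (H + 1))
    (h : el F H v = el F H w) : v = w := by
  funext i
  have h1 := congrArg (fun x => (RingOfIntegers.basis F).repr x i) h
  simp only [el, map_sum, map_smul, Module.Basis.repr_self, Finsupp.coe_finsetSum,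
    Finset.sum_apply, Finsupp.smul_apply, Finsupp.single_apply, smul_eq_mul, mul_ite, mul_one,
    mul_zero, Finset.sum_ite_eq', Finset.mem_univ, if_true] at h1
  exact Fin.ext (by exact_mod_cast h1)

theorem house_smul (n : ℤ) (x : F) : house ((n : F) * x) ≤ |(n : ℝ)| * house x := by
  refine (house_mul_le _ _).trans ?_
  rw [house_intCast]
  push_cast
  exact le_refl _

theorem house_neg (x : F) : house (-x) = house x := by
  simp [house]

theorem house_sub_le (x y : F) : house (x - y) ≤ house x + house y := by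
  rw [sub_eq_add_neg]
  refine (house_add_le _ _).trans ?_
  rw [house_neg]

theorem el_house (H : ℕ) (v w : Module.Free.ChooseBasisIndex ℤ (𝓞 F) → Fin (H + 1)) :
    house ((el F H v - el F H w : 𝓞 F) : F) ≤ H * Cst F := by
  have h1 : ((el F H v - el F H w : 𝓞 F) : F) =
      ∑ i, ((((v i : ℕ) : ℤ) - ((w i : ℕ) : ℤ) : ℤ) : F) *
        ((RingOfIntegers.basis F i : 𝓞 F) : F) := by
    have h2 : el F H v - el F H w =
        ∑ i, (((v i : ℕ) : ℤ) - ((w i : ℕ) : ℤ)) • RingOfIntegers.basis F i := by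
      unfold el
      rw [← Finset.sum_sub_distrib]
      exact Finset.sum_congr rfl fun i _ => by rw [sub_smul]
    rw [h2]
    change algebraMap (𝓞 F) F _ = _
    rw [map_sum]
    refine Finset.sum_congr rfl fun i _ => ?_
    rw [zsmul_eq_mul, map_mul, map_intCast]
  rw [h1]
  refine (house_sum_le_sum_house _ _).trans ?_
  have h3 : ∀ i ∈ (Finset.univ : Finset (Module.Free.ChooseBasisIndex ℤ (𝓞 F))),
      house (((((v i : ℕ) : ℤ) - ((w i : ℕ) : ℤ) : ℤ) : F) *
        ((RingOfIntegers.basis F i : 𝓞 F) : F)) ≤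
      H * house ((RingOfIntegers.basis F i : 𝓞 F) : F) := by
    intro i _
    refine (house_smul F _ _).trans (mul_le_mul_of_nonneg_right ?_ (house_nonneg _))
    have hv := (v i).is_le
    have hw := (w i).is_le
    push_cast
    rw [abs_le]
    have hv' : ((v i : ℕ) : ℝ) ≤ H := by exact_mod_cast hv
    have hw' : ((w i : ℕ) : ℝ) ≤ H := by exact_mod_cast hw
    have hv0 : (0 : ℝ) ≤ ((v i : ℕ) : ℝ) := Nat.cast_nonneg _
    have hw0 : (0 : ℝ) ≤ ((w i : ℕ) : ℝ) := Nat.cast_nonneg _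
    constructor <;> linarith
  refine (Finset.sum_le_sum h3).trans ?_
  rw [← Finset.mul_sum]
  exact mul_le_mul_of_nonneg_left (le_max_right _ _) (Nat.cast_nonneg _)

theorem card_index : Fintype.card (Module.Free.ChooseBasisIndex ℤ (𝓞 F)) =
    Module.finrank ℚ F := by
  rw [← Module.finrank_eq_card_chooseBasisIndex, RingOfIntegers.rank]

/-- the pigeonhole principle -/
theorem pigeon {K : Type} [Fintype K] (Hs : K → ℕ) {G : Type} [AddCommGroup G] [Finite G]
    (f : (K → 𝓞 F) →+ G)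
    (h : Nat.card G < ∏ k, (Hs k + 1) ^ (Module.finrank ℚ F)) :
    ∃ x : K → 𝓞 F, x ≠ 0 ∧ f x = 0 ∧ ∀ k, house ((x k : 𝓞 F) : F) ≤ Hs k * Cst F := by
  classical
  have := Fintype.ofFinite G
  rw [Nat.card_eq_fintype_card] at h
  obtain ⟨v, w, hvw, he⟩ := Fintype.exists_ne_map_eq_of_card_lt
    (fun v : (k : K) → (Module.Free.ChooseBasisIndex ℤ (𝓞 F) → Fin (Hs k + 1)) =>
      f (fun k => el F (Hs k) (v k))) (by
      rw [Fintype.card_pi]
      simp only [Fintype.card_pi, Fintype.card_fin, Finset.prod_const, Finset.card_univ,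
        card_index]
      exact h)
  refine ⟨fun k => el F (Hs k) (v k) - el F (Hs k) (w k), ?_, ?_, fun k => el_house F _ _ _⟩
  · intro h0
    apply hvw
    funext k
    have h1 := congrFun h0 k
    exact el_inj F _ _ _ (sub_eq_zero.1 h1)
  · have h1 : (fun k => el F (Hs k) (v k) - el F (Hs k) (w k)) =
        (fun k => el F (Hs k) (v k)) - (fun k => el F (Hs k) (w k)) := rfl
    rw [h1, map_sub, sub_eq_zero]
    exact he

/-- the real number `Y` with `Y ^ (96 d) = N` -/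
noncomputable def Yp (N : ℕ) : ℝ := (N : ℝ) ^ ((1 : ℝ) / ((96 * Module.finrank ℚ F : ℕ) : ℝ))

theorem Yp_nonneg (N : ℕ) : 0 ≤ Yp F N := Real.rpow_nonneg (Nat.cast_nonneg _) _

theorem Yp_pow (N : ℕ) : (Yp F N) ^ (96 * Module.finrank ℚ F) = N := by
  unfold Yp
  have h0 : (96 * Module.finrank ℚ F) ≠ 0 := by
    have : 0 < Module.finrank ℚ F := Module.finrank_pos
    omega
  rw [one_div, Real.rpow_inv_natCast_pow (Nat.cast_nonneg _) h0]

theorem Yp_mono {N N' : ℕ} (h : N ≤ N') : Yp F N ≤ Yp F N' :=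
  Real.rpow_le_rpow (Nat.cast_nonneg _) (by exact_mod_cast h) (by positivity)

theorem Yp_large (B : ℝ) : ∃ N₀ : ℕ, ∀ N, N₀ ≤ N → B ≤ Yp F N := by
  by_cases hB : B ≤ 0
  · exact ⟨0, fun N _ => hB.trans (Yp_nonneg F N)⟩
  push Not at hB
  obtain ⟨N₀, hN₀⟩ := exists_nat_ge (B ^ (96 * Module.finrank ℚ F))
  refine ⟨N₀, fun N hN => ?_⟩
  by_contra h
  push Not at h
  have h0 : (96 * Module.finrank ℚ F) ≠ 0 := by
    have : 0 < Module.finrank ℚ F := Module.finrank_pos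
    omega
  have h1 := pow_lt_pow_left₀ h (Yp_nonneg F N) h0
  rw [Yp_pow] at h1
  have h2 : (N₀ : ℝ) ≤ N := by exact_mod_cast hN
  linarith

variable {F}

/-- the card of a box -/
theorem box_card {Y : ℝ} (hY : 1 ≤ Y) (i : ℕ) :
    Y ^ (i * Module.finrank ℚ F) < (((⌊Y ^ i⌋₊ + 1) ^ Module.finrank ℚ F : ℕ) : ℝ) := by
  push_cast
  rw [pow_mul]
  exact pow_lt_pow_left₀ (Nat.lt_floor_add_one _) (by positivity)
    (Module.finrank_pos (R := ℚ) (M := F)).ne'

theorem box_house {Y : ℝ} (hY : Cst F ≤ Y) (i : ℕ) {x : F}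
    (h : house x ≤ (⌊Y ^ i⌋₊ : ℝ) * Cst F) : house x ≤ Y ^ (i + 1) := by
  have hY0 : 0 ≤ Y := by have := two_le_Cst F; linarith
  have h1 : (⌊Y ^ i⌋₊ : ℝ) ≤ Y ^ i := Nat.floor_le (pow_nonneg hY0 _)
  have hC : 0 ≤ Cst F := by have := two_le_Cst F; linarith
  refine h.trans ?_
  rw [pow_succ]
  exact mul_le_mul h1 hY hC (pow_nonneg hY0 _)

section prime

variable {P : Ideal (𝓞 F)} [hP : P.IsPrime] (hP0 : P ≠ ⊥)
  (hY : Cst F ≤ Yp F (Ideal.absNorm P))

include hP0

theorem finite_quot : Finite (𝓞 F ⧸ P) :=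
  (Ideal.absNorm_ne_zero_iff P).1 (by rwa [Ne, Ideal.absNorm_eq_zero_iff])

theorem card_quot : (Nat.card (𝓞 F ⧸ P) : ℝ) =
    Yp F (Ideal.absNorm P) ^ (96 * Module.finrank ℚ F) := by
  rw [Yp_pow, Ideal.absNorm_apply, Submodule.cardQuot_apply]

include hY

theorem exists_pi : ∃ π : 𝓞 F, π ≠ 0 ∧ π ∈ P ∧
    house (π : F) ≤ Cst F * Yp F (Ideal.absNorm P) ^ 96 := by
  have := finite_quot hP0
  have h1Y : 1 ≤ Yp F (Ideal.absNorm P) := (one_le_Cst F).trans hY
  set Y := Yp F (Ideal.absNorm P) with hYdef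
  obtain ⟨x, hx0, hx, hxh⟩ := pigeon F (K := Unit) (fun _ => ⌊Y ^ 96⌋₊)
    (G := 𝓞 F ⧸ P) ((Ideal.Quotient.mk P).toAddMonoidHom.comp
      (Pi.evalAddMonoidHom (fun _ : Unit => 𝓞 F) ())) (by
      have h1 := box_card (F := F) h1Y 96
      have h2 := card_quot hP0
      rw [← hYdef] at h2
      rw [← h2] at h1
      simpa using (by exact_mod_cast h1 : Nat.card (𝓞 F ⧸ P) <
        (⌊Y ^ 96⌋₊ + 1) ^ Module.finrank ℚ F))
  refine ⟨x (), ?_, ?_, ?_⟩
  · intro h
    exact hx0 (funext fun _ => h)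
  · exact Ideal.Quotient.eq_zero_iff_mem.1 hx
  · refine (hxh ()).trans ?_
    rw [mul_comm]
    exact mul_le_mul_of_nonneg_left (Nat.floor_le (by positivity))
      (by have := two_le_Cst F; linarith)

theorem thue2' (r : 𝓞 F ⧸ P) (i j : ℕ) (hi : 1 ≤ i) (hj : 1 ≤ j) (hij : 98 ≤ i + j) :
    ∃ a b : 𝓞 F, house (a : F) ≤ Yp F (Ideal.absNorm P) ^ i ∧
      house (b : F) ≤ Yp F (Ideal.absNorm P) ^ j ∧ (a ≠ 0 ∨ b ≠ 0) ∧
      Ideal.Quotient.mk P a = r * Ideal.Quotient.mk P b := by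
  have := finite_quot hP0
  have h1Y : 1 ≤ Yp F (Ideal.absNorm P) := (one_le_Cst F).trans hY
  have h2 := card_quot hP0
  set Y := Yp F (Ideal.absNorm P) with hYdef
  let f : (Fin 2 → 𝓞 F) →+ (𝓞 F ⧸ P) :=
    { toFun := fun x => Ideal.Quotient.mk P (x 0) - r * Ideal.Quotient.mk P (x 1)
      map_zero' := by simp
      map_add' := fun x y => by simp only [Pi.add_apply, map_add]; ring }
  obtain ⟨x, hx0, hx, hxh⟩ := pigeon F (K := Fin 2) ![⌊Y ^ (i - 1)⌋₊, ⌊Y ^ (j - 1)⌋₊] f (by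
    have h3 := box_card (F := F) h1Y (i - 1)
    have h4 := box_card (F := F) h1Y (j - 1)
    have h5 : Y ^ ((i - 1) * Module.finrank ℚ F) * Y ^ ((j - 1) * Module.finrank ℚ F) <
        (((⌊Y ^ (i - 1)⌋₊ + 1) ^ Module.finrank ℚ F : ℕ) : ℝ) *
        (((⌊Y ^ (j - 1)⌋₊ + 1) ^ Module.finrank ℚ F : ℕ) : ℝ) :=
      mul_lt_mul'' h3 h4 (by positivity) (by positivity)
    rw [← pow_add, ← add_mul] at h5
    have h6 : Y ^ (96 * Module.finrank ℚ F) ≤ Y ^ ((i - 1 + (j - 1)) * Module.finrank ℚ F) :=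
      pow_le_pow_right₀ h1Y (Nat.mul_le_mul_right _ (by omega))
    have h7 := h2.trans_lt (h6.trans_lt h5)
    simp only [Fin.prod_univ_two, Matrix.cons_val_zero, Matrix.cons_val_one]
    exact_mod_cast h7)
  refine ⟨x 0, x 1, ?_, ?_, ?_, ?_⟩
  · have h3 := box_house hY (i - 1) (hxh 0)
    rwa [Nat.sub_add_cancel hi] at h3
  · have h3 := box_house hY (j - 1) (hxh 1)
    rwa [Nat.sub_add_cancel hj] at h3
  · by_contra hn
    push Not at hn
    apply hx0
    funext k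
    fin_cases k
    · exact hn.1
    · exact hn.2
  · exact sub_eq_zero.1 hx

theorem thue3' (r t : 𝓞 F ⧸ P) :
    ∃ a b e : 𝓞 F, house (a : F) ≤ Yp F (Ideal.absNorm P) ^ 66 ∧
      house (b : F) ≤ Yp F (Ideal.absNorm P) ^ 66 ∧
      house (e : F) ≤ Yp F (Ideal.absNorm P) ^ 66 ∧ (a ≠ 0 ∨ b ≠ 0 ∨ e ≠ 0) ∧
      Ideal.Quotient.mk P a = r * Ideal.Quotient.mk P b ∧
      Ideal.Quotient.mk P e = t * Ideal.Quotient.mk P b := by
  have := finite_quot hP0
  have h1Y : 1 ≤ Yp F (Ideal.absNorm P) := (one_le_Cst F).trans hY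
  have h2 := card_quot hP0
  set Y := Yp F (Ideal.absNorm P) with hYdef
  let f : (Fin 3 → 𝓞 F) →+ (𝓞 F ⧸ P) × (𝓞 F ⧸ P) :=
    { toFun := fun x => (Ideal.Quotient.mk P (x 0) - r * Ideal.Quotient.mk P (x 1),
        Ideal.Quotient.mk P (x 2) - t * Ideal.Quotient.mk P (x 1))
      map_zero' := by simp
      map_add' := fun x y => by
        simp only [Pi.add_apply, map_add, Prod.mk_add_mk, Prod.mk.injEq]
        constructor <;> ring }
  obtain ⟨x, hx0, hx, hxh⟩ := pigeon F (K := Fin 3) (fun _ => ⌊Y ^ 65⌋₊) f (by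
    have h3 := box_card (F := F) h1Y 65
    have h5 : Y ^ (96 * Module.finrank ℚ F) * Y ^ (96 * Module.finrank ℚ F) <
        (((⌊Y ^ 65⌋₊ + 1) ^ Module.finrank ℚ F : ℕ) : ℝ) ^ 3 := by
      refine lt_of_le_of_lt ?_ (pow_lt_pow_left₀ h3 (by positivity) (by norm_num))
      rw [← pow_mul, ← pow_add]
      exact pow_le_pow_right₀ h1Y (by ring_nf; omega)
    rw [← h2] at h5
    rw [Nat.card_prod]
    simp only [Finset.prod_const, Finset.card_univ, Fintype.card_fin]
    exact_mod_cast h5)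
  refine ⟨x 0, x 1, x 2, box_house hY 65 (hxh 0), box_house hY 65 (hxh 1),
    box_house hY 65 (hxh 2), ?_, sub_eq_zero.1 (congrArg Prod.fst hx),
    sub_eq_zero.1 (congrArg Prod.snd hx)⟩
  by_contra hn
  push Not at hn
  apply hx0
  funext k
  fin_cases k
  · exact hn.1
  · exact hn.2.1
  · exact hn.2.2

omit hP0 in
theorem norm_lt_of_house {a : 𝓞 F} {i j : ℕ} (hij : i < j)
    (ha : house (a : F) ≤ Yp F (Ideal.absNorm P) ^ i) :
    ((Ideal.absNorm (Ideal.span {a}) : ℕ) : ℝ) <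
      Yp F (Ideal.absNorm P) ^ (j * Module.finrank ℚ F) := by
  have h2Y : 2 ≤ Yp F (Ideal.absNorm P) := (two_le_Cst F).trans hY
  refine lt_of_le_of_lt (norm_le_house a) ?_
  refine lt_of_le_of_lt (pow_le_pow_left₀ (house_nonneg _) ha _) ?_
  rw [← pow_mul]
  refine pow_lt_pow_right₀ (by linarith) ?_
  exact Nat.mul_lt_mul_of_pos_right hij Module.finrank_pos

omit hP0 in
theorem norm_lt_of_house95 {a : 𝓞 F} (ha : house (a : F) ≤ Yp F (Ideal.absNorm P) ^ 95) :
    Ideal.absNorm (Ideal.span {a}) < Ideal.absNorm P := by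
  have h := norm_lt_of_house hY (show 95 < 96 by norm_num) ha
  rw [Yp_pow] at h
  exact_mod_cast h

omit hP0 in
theorem norm_lt_of_house191 {a : 𝓞 F} (ha : house (a : F) ≤ Yp F (Ideal.absNorm P) ^ 191) :
    Ideal.absNorm (Ideal.span {a}) < Ideal.absNorm P ^ 2 := by
  have h := norm_lt_of_house hY (show 191 < 192 by norm_num) ha
  have e : 192 * Module.finrank ℚ F = (96 * Module.finrank ℚ F) * 2 := by ring
  rw [e, pow_mul, Yp_pow] at h
  exact_mod_cast h

end prime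

variable {M : Type} [AddCommGroup M] [Module ℚ M] (c : Cm (𝓞 F) M)

/-- the local data -/
noncomputable def mkLoc {P : Ideal (𝓞 F)} (hP : P.IsPrime) (hP0 : P ≠ ⊥)
    (hY : Cst F ≤ Yp F (Ideal.absNorm P)) {s : Set (Ideal (𝓞 F))}
    (hs : Pr F (Ideal.absNorm P) ⊆ s) (hPs : P ∉ s) {π : 𝓞 F} (hπ0 : π ≠ 0) (hπP : π ∈ P)
    (hπn : Ideal.absNorm (Ideal.span {π}) < Ideal.absNorm P ^ 2)
    (gen : ∀ x ∈ Sm s, c.c x ∈ Submodule.span ℚ (c.c '' (Sm s ∩
      {a | house (a : F) ≤ Yp F (Ideal.absNorm P) ^ 97}))) : Loc c :=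
  haveI := hP.isMaximal hP0
  letI := Ideal.Quotient.field P
  { κ := 𝓞 F ⧸ P
    fin := finite_quot hP0
    ρ := Ideal.Quotient.mk P
    sm := Sm s
    p := c.c π
    S := fun i => {a | house (a : F) ≤ Yp F (Ideal.absNorm P) ^ i}
    mono := fun i j hij a ha => le_trans ha
      (pow_le_pow_right₀ ((one_le_Cst F).trans hY) hij)
    mul := fun i j x y hx hy => by
      change house ((x * y : 𝓞 F) : F) ≤ _
      have h1 : ((x * y : 𝓞 F) : F) = (x : F) * (y : F) := rfl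
      rw [h1, pow_add]
      exact (house_mul_le _ _).trans (mul_le_mul hx hy (house_nonneg _)
        (pow_nonneg (Yp_nonneg F _) _))
    sub := fun i x y hx hy => by
      change house ((x - y : 𝓞 F) : F) ≤ _
      have h1 : ((x - y : 𝓞 F) : F) = (x : F) - (y : F) := rfl
      rw [h1, pow_succ]
      refine (house_sub_le F _ _).trans ?_
      have h2 : 2 ≤ Yp F (Ideal.absNorm P) := (two_le_Cst F).trans hY
      have h3 : 0 ≤ Yp F (Ideal.absNorm P) ^ i := pow_nonneg (Yp_nonneg F _) _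
      have hx' : house (x : F) ≤ Yp F (Ideal.absNorm P) ^ i := hx
      have hy' : house (y : F) ≤ Yp F (Ideal.absNorm P) ^ i := hy
      nlinarith
    smρ := fun x hx h => hPs (hx.2 P hP (Ideal.Quotient.eq_zero_iff_mem.1 h))
    smmul := fun x hx y hy => Sm_mul hx hy
    small := fun x hx0 hx => Sm_of_lt hx0 (norm_lt_of_house95 hY hx) hs
    diff := fun x hx0 hxρ hx => by
      obtain ⟨I, hI, hI'⟩ := cofactor hs hx0 (Ideal.Quotient.eq_zero_iff_mem.1 hxρ)
        (norm_lt_of_house191 hY hx)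
      obtain ⟨J, hJ, hJ'⟩ := cofactor hs hπ0 hπP hπn
      exact cls c hx0 hπ0 hI hJ hI' hJ'
    thue2 := fun r i j hi hj hij => by
      obtain ⟨a, b, ha, hb, h0, h1⟩ := thue2' hP0 hY r i j hi hj hij
      exact ⟨a, ha, b, hb, h0, h1⟩
    thue3 := fun r t => by
      obtain ⟨a, b, e, ha, hb, he, h0, h1, h2⟩ := thue3' hP0 hY r t
      exact ⟨a, ha, b, hb, e, he, h0, h1, h2⟩
    gen := gen }

end Pool.Agent.V8H63.NF
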