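import Pool.Agent.V8H63.NF.AltJ

set_option autoImplicit false
set_option linter.unusedSectionVars false

/-!
# Finiteness of the cohomology in degree `n - 1`
-/

namespace Pool.Agent.V8H63.NF

open scoped TensorProduct
open NumberField H39Gon H39Gon.TaskB H39Gon.E2 Pool.Agent.V8H63.W3

/-! ### maps -/

section maps

variable {F : Type} [Field F]

/-- linear maps on `ℚ[P^1_F]` are determined by their values on the generators -/
theorem dq_ext {N : Type} [AddCommGroup N] [Module ℚ N] (f g : DQ F →ₗ[ℚ] N)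
    (h : ∀ x : P1 F, f ((1 : ℚ) ⊗ₜ[ℤ] Finsupp.single x 1) = g ((1 : ℚ) ⊗ₜ[ℤ] Finsupp.single x 1)) :
    f = g := by
  apply TensorProduct.AlgebraTensorModule.curry_injective
  ext x
  exact h x

/-- evaluation of alternating forms -/
def evA {j : ℕ} (y : Fin j → UV F) : (UV F [⋀^Fin j]→ₗ[ℤ] ℚ) →ₗ[ℚ] ℚ where
  toFun f := f y
  map_add' _ _ := rfl
  map_smul' _ _ := rfl

/-- `α ↦ α ⊗ y_1 ∧ ... ∧ y_j` -/
noncomputable def emb {j : ℕ} (y : Fin j → UV F) : DQ F →ₗ[ℚ] TQ F 2 j :=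
  lf ((TensorProduct.mk ℤ ℚ (B 2 F ⊗[ℤ] (⋀[ℤ]^j (UV F))) 1) ∘ₗ
    ((TensorProduct.mk ℤ (B 2 F) (⋀[ℤ]^j (UV F))).flip (exteriorPower.ιMulti ℤ j y)) ∘ₗ (R 2 F).mkQ)

theorem emb_apply {j : ℕ} (y : Fin j → UV F) (α : ZP F) : emb y ((1 : ℚ) ⊗ₜ[ℤ] α) =
    (1 : ℚ) ⊗ₜ[ℤ] ((R 2 F).mkQ α ⊗ₜ[ℤ] exteriorPower.ιMulti ℤ j y) := by
  unfold emb
  rw [lf_apply]
  rfl

theorem toTheta_emb {j : ℕ} (φ : TQ F 2 j →ₗ[ℚ] ℚ) (d : DQ F) (y : Fin j → UV F) :
    lf (toTheta φ) d y = φ (emb y d) := by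
  revert d
  apply tens_ind
  · rw [map_zero, map_zero, map_zero]; rfl
  · intro a b ha hb
    rw [map_add, map_add, map_add, AlternatingMap.add_apply, ha, hb]
  · intro q a ha
    rw [map_smul, map_smul, map_smul, AlternatingMap.smul_apply, ha]
  · intro v
    rw [lf_apply, emb_apply]
    rfl

/-- alternating maps in two variables -/
def alt2N {V W : Type} [AddCommGroup V] [AddCommGroup W] (ω : V →ₗ[ℤ] V →ₗ[ℤ] W)
    (hω : ∀ x, ω x x = 0) : V [⋀^Fin 2]→ₗ[ℤ] W :=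
  { mk2 ω with
    map_eq_zero_of_eq' := by
      intro v i j hv hij
      change ω (v 0) (v 1) = 0
      have h : v 0 = v 1 := by
        fin_cases i <;> fin_cases j <;> simp_all
      rw [h, hω] }

/-- the functional `χ ∘ e` -/
theorem chi_e {j : ℕ} (χ : LQ F (j + 2) →ₗ[ℚ] ℚ) :
    ∃ l : LQ F 2 →ₗ[ℚ] (UV F [⋀^Fin j]→ₗ[ℤ] ℚ),
      (∀ a b y, l (lq F 2 ![a, b]) y = toAlt χ (Fin.cons a (Fin.cons b y))) ∧
      ∀ d y, χ (e1e F j (emb y d)) = l (δF F d) y := by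
  let ω : UV F →ₗ[ℤ] UV F →ₗ[ℤ] (UV F [⋀^Fin j]→ₗ[ℤ] ℚ) :=
    AlternatingMap.curryLeftLinearMap ∘ₗ (toAlt χ).curryLeft
  have hω : ∀ a b y, ω a b y = toAlt χ (Fin.cons a (Fin.cons b y)) := fun a b y => rfl
  have hω0 : ∀ a, ω a a = 0 := by
    intro a
    ext y
    rw [hω]
    exact (toAlt χ).map_eq_zero_of_eq _ (i := 0) (j := 1) rfl (by simp)
  set a2 : UV F [⋀^Fin 2]→ₗ[ℤ] (UV F [⋀^Fin j]→ₗ[ℤ] ℚ) := alt2N ω hω0 with ha2
  have ha2' : ∀ a b, a2 ![a, b] = ω a b := fun a b => rfl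
  refine ⟨lf (exteriorPower.alternatingMapLinearEquiv a2), ?_, ?_⟩
  · intro a b y
    unfold lq
    rw [lf_apply, exteriorPower.alternatingMapLinearEquiv_apply_ιMulti, ha2', hω]
  · intro d y
    have key : χ ∘ₗ (e1e F j) ∘ₗ (emb y) =
        (evA y) ∘ₗ (lf (exteriorPower.alternatingMapLinearEquiv a2)) ∘ₗ (δF F) := by
      apply dq_ext
      intro x
      rw [LinearMap.comp_apply, LinearMap.comp_apply, LinearMap.comp_apply, LinearMap.comp_apply,
        δF_apply, lf_apply, emb_apply]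
      change χ (e1e F j (tq F 2 j x y)) =
        (exteriorPower.alternatingMapLinearEquiv a2) (delta2 F (Finsupp.single x 1)) y
      rcases x with _ | x
      · rw [e1e_apply, e1ev_none]
        have e3 : delta2 F (Finsupp.single none 1) = 0 := by
          unfold delta2
          rw [Finsupp.linearCombination_single, one_smul]
        rw [e3, map_zero]
        simp
      · rw [e1e_some, delta2_single, exteriorPower.alternatingMapLinearEquiv_apply_ιMulti, ha2',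
          hω]
        rfl
    exact LinearMap.congr_fun key d

/-- the functionals which kill the relations of `B_2` kill the kernel of `emb` -/
theorem lf_emb0 {j : ℕ} (Θ : ZP F →ₗ[ℤ] (UV F [⋀^Fin j]→ₗ[ℤ] ℚ)) (hΘ : ∀ r ∈ R 2 F, Θ r = 0)
    (d : DQ F) (hd : emb (Fin.elim0 : Fin 0 → UV F) d = 0) : lf Θ d = 0 := by
  ext y
  let θ : ZP F →ₗ[ℤ] (UV F [⋀^Fin 0]→ₗ[ℤ] ℚ) := AddMonoidHom.toIntLinearMap
    { toFun := fun α => AlternatingMap.constOfIsEmpty ℤ (UV F) (Fin 0) (Θ α y)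
      map_zero' := by ext z; simp
      map_add' := fun a b => by ext z; simp }
  have hθ : ∀ α z, θ α z = Θ α y := fun α z => rfl
  have hθR : ∀ r ∈ R 2 F, θ r = 0 := by
    intro r hr
    ext z
    rw [hθ, hΘ r hr]
    rfl
  have key : (evA y) ∘ₗ (lf Θ) = (ofTheta θ hθR) ∘ₗ (emb (Fin.elim0 : Fin 0 → UV F)) := by
    apply dq_ext
    intro x
    rw [LinearMap.comp_apply, LinearMap.comp_apply, lf_apply, emb_apply]
    exact (ofTheta_apply θ hθR x Fin.elim0).symm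
  have h2 := LinearMap.congr_fun key d
  rw [LinearMap.comp_apply, LinearMap.comp_apply, hd, map_zero] at h2
  exact h2

theorem emb0_surj : Function.Surjective (emb (F := F) (Fin.elim0 : Fin 0 → UV F)) := by
  apply surjective_of_dual
  intro φ hφ
  apply text
  intro x y
  rw [LinearMap.zero_apply, ← hφ ((1 : ℚ) ⊗ₜ[ℤ] Finsupp.single x 1), emb_apply]
  have : y = Fin.elim0 := Subsingleton.elim _ _
  rw [this]
  rfl

theorem δF_emb0 (d : DQ F) :
    δF F d = 0 ↔ e1e F 0 (emb (Fin.elim0 : Fin 0 → UV F) d) = 0 := by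
  have key : ∀ d : DQ F, δF F d = e1e F 0 (emb (Fin.elim0 : Fin 0 → UV F) d) := by
    intro d
    by_contra hn
    have h1 : δF F d - e1e F 0 (emb (Fin.elim0 : Fin 0 → UV F) d) ∉ (⊥ : Submodule ℚ (LQ F 2)) := by
      rw [Submodule.mem_bot, sub_eq_zero]
      exact hn
    obtain ⟨χ, -, h2⟩ := exists_dual_ne h1
    apply h2
    obtain ⟨l, hl1, hl2⟩ := chi_e (j := 0) χ
    have h3 := hl2 d Fin.elim0
    rw [map_sub, sub_eq_zero]
    refine Eq.trans ?_ h3.symm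
    -- `χ = l(·)(elim0)`
    let l' : LQ F 2 →ₗ[ℚ] ℚ :=
      { toFun := fun v => l v Fin.elim0
        map_add' := fun a b => by rw [map_add]; rfl
        map_smul' := fun q a => by rw [map_smul]; rfl }
    have h4 : χ = l' := by
      apply lext
      intro y
      have h5 : y = ![y 0, y 1] := by
        ext i; fin_cases i <;> rfl
      have h6 : l' (lq F 2 y) = toAlt χ (Fin.cons (y 0) (Fin.cons (y 1) Fin.elim0)) := by
        change l (lq F 2 y) Fin.elim0 = _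
        conv_lhs => rw [h5, hl1]
      rw [h6, toAlt_apply]
      congr 2
    exact LinearMap.congr_fun h4 _
  rw [key]

end maps

/-! ### the theorem on functionals -/

section main

variable {F : Type} [Field F] [NumberField F] (hs : Function.Surjective (e1e F 0))

/-- the conclusion of `claim` in terms of functionals on `(B_2 ⊗ Λ^(j+1))_ℚ` -/
theorem factor {i : ℕ} (φ : TQ F 2 (i + 1) →ₗ[ℚ] ℚ)
    (c1 : ∀ h, δF F h = 0 → ∀ y, lf (toTheta φ) h y = 0)
    (c2 : ∀ x y z w, Wb hs (toTheta φ) z x (Fin.cons y w) +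
      Wb hs (toTheta φ) z y (Fin.cons x w) = 0) :
    ∃ ψ : LQ F (i + 1 + 2) →ₗ[ℚ] ℚ, ∀ v, φ v = ψ (e1e F (i + 1) v) := by
  let Qb : UV F →ₗ[ℤ] (UV F →ₗ[ℤ] (UV F [⋀^Fin (i + 1)]→ₗ[ℤ] ℚ)) :=
    ((wz (UV F)).compr₂ ((((lf (toTheta φ)) ∘ₗ (blF hs).s).restrictScalars ℤ) ∘ₗ
      (TensorProduct.mk ℤ ℚ (⋀[ℤ]^2 (UV F)) 1))).flip
  have hQb : ∀ s v, Qb s v = Wb hs (toTheta φ) v s := fun s v => rfl
  obtain ⟨Θ, hΘ⟩ := koszul_last (i + 1) Qb (by
      intro s
      rw [hQb]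
      unfold Wb
      have h1 : lq F 2 ![s, s] = 0 := by
        unfold lq
        rw [AlternatingMap.map_eq_zero_of_eq _ _ (i := 0) (j := 1) (by simp) (by simp),
          TensorProduct.tmul_zero]
      rw [h1, map_zero, map_zero]) (by
      intro i' hi s v y
      obtain rfl : i = i' := by omega
      rw [hQb]
      have h1 := c2 s s v y
      have h2 : Wb hs (toTheta φ) v s (Fin.cons s y) = 0 := by linarith
      exact h2)
  refine ⟨ofAlt Θ, fun v => ?_⟩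
  have h2 : φ = (ofAlt Θ) ∘ₗ (e1e F (i + 1)) := by
    apply text
    intro x y
    rw [LinearMap.comp_apply]
    have h3 := c1 ((1 : ℚ) ⊗ₜ[ℤ] Finsupp.single x 1 -
      (blF hs).s (δF F ((1 : ℚ) ⊗ₜ[ℤ] Finsupp.single x 1))) (by
        rw [map_sub, (show δF F ((blF hs).s (δF F ((1 : ℚ) ⊗ₜ[ℤ] Finsupp.single x 1))) =
          δF F ((1 : ℚ) ⊗ₜ[ℤ] Finsupp.single x 1) from (blF hs).δs _), sub_self]) y
    rw [map_sub, lf_apply, AlternatingMap.sub_apply, toTheta_apply, sub_eq_zero] at h3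
    rw [h3]
    rcases x with _ | x
    · have e3 : delta2 F (Finsupp.single none 1) = 0 := by
        unfold delta2
        rw [Finsupp.linearCombination_single, one_smul]
      rw [e1e_apply, e1ev_none, δF_apply, e3, TensorProduct.tmul_zero, map_zero, map_zero]
      simp
    · rw [e1e_some, ofAlt_apply, hΘ, hQb, δF_apply, delta2_single]
      rfl
  rw [h2]
  rfl

/-- the correction terms -/
noncomputable def corr {i : ℕ} (x y z : UV F) (w : Fin i → UV F) : TQ F 2 (i + 1) :=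
  emb (Fin.cons y w) ((blF hs).s (lq F 2 ![z, x])) +
    emb (Fin.cons x w) ((blF hs).s (lq F 2 ![z, y]))

theorem e_emb0 {j : ℕ} (d : DQ F) (hd : δF F d = 0) (y : Fin j → UV F) :
    e1e F j (emb y d) = 0 := by
  by_contra hn
  have h1 : e1e F j (emb y d) ∉ (⊥ : Submodule ℚ (LQ F (j + 2))) := by
    rw [Submodule.mem_bot]
    exact hn
  obtain ⟨χ, -, h2⟩ := exists_dual_ne h1
  apply h2
  obtain ⟨l, -, hl2⟩ := chi_e χ
  rw [hl2, hd, map_zero]
  rfl

theorem e_corr {i : ℕ} (x y z : UV F) (w : Fin i → UV F) :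
    e1e F (i + 1) (corr hs x y z w) = 0 := by
  by_contra hn
  have h1 : e1e F (i + 1) (corr hs x y z w) ∉ (⊥ : Submodule ℚ (LQ F (i + 1 + 2))) := by
    rw [Submodule.mem_bot]
    exact hn
  obtain ⟨χ, -, h2⟩ := exists_dual_ne h1
  apply h2
  obtain ⟨l, hl1, hl2⟩ := chi_e χ
  unfold corr
  have hδ : ∀ v, δF F ((blF hs).s v) = v := (blF hs).δs
  rw [map_add, map_add, hl2, hl2, hδ, hδ, hl1, hl1]
  have h3 := cons_swap ((toAlt χ).curryLeft z) x y w
  have h4 : ∀ u : Fin (i + 2) → UV F, (toAlt χ).curryLeft z u = toAlt χ (Fin.cons z u) :=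
    fun u => rfl
  rw [h4, h4] at h3
  linarith

/-- the finite sets of correction terms -/
def CorrS (X : Set (UV F)) (i : ℕ) : Set (TQ F 2 (i + 1)) :=
  {v | ∃ x ∈ X, ∃ y ∈ X, ∃ z ∈ X, ∃ w : Fin i → UV F, (∀ k, w k ∈ X) ∧ v = corr hs x y z w}

theorem CorrS_finite {X : Set (UV F)} (hX : X.Finite) (i : ℕ) : (CorrS hs X i).Finite := by
  have h1 : (Set.pi Set.univ (fun _ : Fin i => X)).Finite := Set.Finite.pi fun _ => hX
  have h2 : CorrS hs X i ⊆ (fun q : UV F × UV F × UV F × (Fin i → UV F) =>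
      corr hs q.1 q.2.1 q.2.2.1 q.2.2.2) '' (X ×ˢ X ×ˢ X ×ˢ
        (Set.pi Set.univ (fun _ : Fin i => X))) := by
    rintro _ ⟨x, hx, y, hy, z, hz, w, hw, rfl⟩
    exact ⟨(x, y, z, w), ⟨hx, hy, hz, fun k _ => hw k⟩, rfl⟩
  exact ((hX.prod (hX.prod (hX.prod h1))).image _).subset h2

/-- the terms `emb y h`, `h ∈ H` finite -/
def ProdS (H : Set (DQ F)) (X : Set (UV F)) (i : ℕ) : Set (TQ F 2 (i + 1)) :=
  {v | ∃ h ∈ H, ∃ y : Fin (i + 1) → UV F, (∀ k, y k ∈ X) ∧ v = emb y h}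

theorem ProdS_finite {H : Set (DQ F)} (hH : H.Finite) {X : Set (UV F)} (hX : X.Finite) (i : ℕ) :
    (ProdS H X i).Finite := by
  have h1 : (Set.pi Set.univ (fun _ : Fin (i + 1) => X)).Finite := Set.Finite.pi fun _ => hX
  have h2 : ProdS H X i ⊆ (fun q : DQ F × (Fin (i + 1) → UV F) =>
      emb q.2 q.1) '' (H ×ˢ (Set.pi Set.univ (fun _ : Fin (i + 1) => X))) := by
    rintro _ ⟨h, hh, y, hy, rfl⟩
    exact ⟨(h, y), ⟨hh, fun k _ => hy k⟩, rfl⟩
  exact ((hH.prod h1).image _).subset h2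

/-- the alternating forms in many variables vanish on a finite set -/
theorem emb_zero {X : Set (UV F)} (hX : X.Finite) {j : ℕ} (hj : hX.toFinset.card < j)
    (y : Fin j → UV F) (hy : ∀ k, y k ∈ X) (d : DQ F) : emb y d = 0 := by
  have h1 : exteriorPower.ιMulti ℤ j y = 0 := by
    obtain ⟨a, b, hab, he⟩ := Fintype.exists_ne_map_eq_of_card_lt
      (fun k : Fin j => (⟨y k, hX.mem_toFinset.2 (hy k)⟩ : hX.toFinset)) (by simpa using hj)
    exact AlternatingMap.map_eq_zero_of_eq _ _ (by simpa using he) hab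
  revert d
  apply tens_ind
  · rw [map_zero]
  · intro a b ha hb; rw [map_add, ha, hb, add_zero]
  · intro q a ha; rw [map_smul, ha, smul_zero]
  · intro α
    rw [emb_apply, h1, TensorProduct.tmul_zero, TensorProduct.tmul_zero]

theorem CorrS_large {X : Set (UV F)} (hX : X.Finite) {i : ℕ} (hi : hX.toFinset.card ≤ i) :
    CorrS hs X i ⊆ {0} := by
  rintro _ ⟨x, hx, y, hy, z, hz, w, hw, rfl⟩
  have hc : ∀ {v : UV F}, v ∈ X → ∀ k, (Fin.cons v w : Fin (i + 1) → UV F) k ∈ X := by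
    intro v hv k
    refine Fin.cases ?_ (fun k => ?_) k
    · exact hv
    · exact hw k
  rw [Set.mem_singleton_iff]
  unfold corr
  rw [emb_zero hX (by omega) _ (hc hy), emb_zero hX (by omega) _ (hc hx), add_zero]

theorem ProdS_large {H : Set (DQ F)} {X : Set (UV F)} (hX : X.Finite) {i : ℕ}
    (hi : hX.toFinset.card ≤ i) : ProdS H X i ⊆ {0} := by
  rintro _ ⟨h, hh, y, hy, rfl⟩
  rw [Set.mem_singleton_iff, emb_zero hX (by omega) _ hy]

/-- **modulo products** -/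
theorem main_prod : ∃ X : Set (UV F), X.Finite ∧ ∀ (i : ℕ) (u : TQ F 2 (i + 1)),
    e1e F (i + 1) u = 0 →
      u ∈ Submodule.span ℚ (SDec F i ∪ SProd F (i + 1) ∪ CorrS hs X i) := by
  obtain ⟨X, hX, hcl⟩ := claim hs (∅ : Set (𝓞 F × 𝓞 F)) Set.finite_empty (by simp)
  refine ⟨X, hX, fun i u hu => ?_⟩
  by_contra hn
  obtain ⟨φ, h1, h2⟩ := exists_dual_ne hn
  have hker : ∀ h, δF F h = 0 → lf (toTheta φ) h = 0 := by
    intro h hh
    obtain ⟨l, hl⟩ := H39Gon.C4.exists_ext (delta2 F) (toTheta φ) (by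
      intro α hα
      ext y
      have h3 : toTheta φ α y =
          φ ((1 : ℚ) ⊗ₜ[ℤ] ((R 2 F).mkQ α ⊗ₜ[ℤ] exteriorPower.ιMulti ℤ (i + 1) y)) := rfl
      rw [h3]
      exact h1 _ (Submodule.subset_span (Or.inl (Or.inr ⟨α, y, hα, rfl⟩))))
    have h4 : lf (toTheta φ) = (lf l) ∘ₗ (δF F) := by
      apply dq_ext
      intro x
      rw [LinearMap.comp_apply, lf_apply, δF_apply, lf_apply, hl]
      rfl
    rw [h4, LinearMap.comp_apply, hh, map_zero]
  have hG : Good ∅ (toTheta φ) := by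
    refine ⟨fun r hr => toTheta_R φ r hr, fun x y hx => ?_, fun h hh => ⟨0, by simp, by simp, ?_⟩⟩
    · rw [toTheta_apply]
      exact h1 _ (Submodule.subset_span (Or.inl (Or.inl ⟨x, y, hx, rfl⟩)))
    · rw [hker h hh, map_zero]
  obtain ⟨c1, c2⟩ := hcl i (toTheta φ) hG (fun h hh y _ => by rw [hker h hh]; rfl) (by
    intro x hx y hy z hz w hw
    unfold Wb
    rw [toTheta_emb, toTheta_emb, ← map_add]
    exact h1 _ (Submodule.subset_span (Or.inr ⟨x, hx, y, hy, z, hz, w, hw, rfl⟩)))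
  obtain ⟨ψ, hψ⟩ := factor hs φ c1 c2
  apply h2
  rw [hψ, hu, map_zero]

end main

end Pool.Agent.V8H63.NF
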