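import Pool.Agent.V8H63.NF.NFfin

set_option autoImplicit false
set_option linter.unusedSectionVars false

/-!
# Finiteness of the cohomology in degree `n - 1`, without products
-/

namespace Pool.Agent.V8H63.NF

open scoped TensorProduct
open NumberField H39Gon H39Gon.TaskB H39Gon.E2 Pool.Agent.V8H63.W3

variable {F : Type} [Field F]

open Classical in
/-- removing the generators `{0}`, `{1}`, `{∞}` -/
noncomputable def cleanZ (F : Type) [Field F] : ZP F →ₗ[ℤ] ZP F :=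
  Finsupp.linearCombination ℤ (fun x : P1 F =>
    if x = none ∨ x = some 0 ∨ x = some 1 then 0 else Finsupp.single x 1)

/-- the same over `ℚ` -/
noncomputable def cleanQ (F : Type) [Field F] : DQ F →ₗ[ℚ] DQ F :=
  lf ((TensorProduct.mk ℤ ℚ (ZP F) 1) ∘ₗ cleanZ F)

theorem cleanQ_apply (x : P1 F) : cleanQ F ((1 : ℚ) ⊗ₜ[ℤ] Finsupp.single x 1) =
    (1 : ℚ) ⊗ₜ[ℤ] cleanZ F (Finsupp.single x 1) := by
  unfold cleanQ
  rw [lf_apply]
  rfl

theorem cleanZ_bad {x : P1 F} (h : x = none ∨ x = some 0 ∨ x = some 1) :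
    cleanZ F (Finsupp.single x 1) = 0 := by
  unfold cleanZ
  rw [Finsupp.linearCombination_single, one_smul, if_pos h]

theorem cleanZ_good {x : P1 F} (h : ¬ (x = none ∨ x = some 0 ∨ x = some 1)) :
    cleanZ F (Finsupp.single x 1) = Finsupp.single x 1 := by
  unfold cleanZ
  rw [Finsupp.linearCombination_single, one_smul, if_neg h]

theorem δF_clean (d : DQ F) : δF F (cleanQ F d) = δF F d := by
  have h : (δF F) ∘ₗ (cleanQ F) = δF F := by
    apply dq_ext
    intro x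
    rw [LinearMap.comp_apply, cleanQ_apply, δF_apply, δF_apply]
    by_cases hx : x = none ∨ x = some 0 ∨ x = some 1
    · rw [cleanZ_bad hx, map_zero]
      rcases hx with rfl | rfl | rfl
      · unfold delta2
        rw [Finsupp.linearCombination_single, one_smul]
      · rw [delta2_single, e1cl_zero, (exteriorPower.ιMulti ℤ 2).map_coord_zero (i := 1) (by simp)]
      · rw [delta2_single, e1cl_one, (exteriorPower.ιMulti ℤ 2).map_coord_zero (i := 1) (by simp)]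
    · rw [cleanZ_good hx]
  exact LinearMap.congr_fun h d

theorem lf_clean {j : ℕ} (Θ : ZP F →ₗ[ℤ] (UV F [⋀^Fin j]→ₗ[ℤ] ℚ)) (hΘ : ∀ r ∈ R 2 F, Θ r = 0)
    (d : DQ F) : lf Θ (cleanQ F d) = lf Θ d := by
  have h : (lf Θ) ∘ₗ (cleanQ F) = lf Θ := by
    apply dq_ext
    intro x
    rw [LinearMap.comp_apply, cleanQ_apply, lf_apply, lf_apply]
    by_cases hx : x = none ∨ x = some 0 ∨ x = some 1
    · rw [cleanZ_bad hx, map_zero]
      symm
      ext y
      let θ : ZP F →ₗ[ℤ] ℚ := AddMonoidHom.toIntLinearMap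
        { toFun := fun α => Θ α y
          map_zero' := by rw [map_zero]; rfl
          map_add' := fun a b => by rw [map_add]; rfl }
      have hθ : ∀ r ∈ R 2 F, θ r = 0 := by
        intro r hr
        change Θ r y = 0
        rw [hΘ r hr]
        rfl
      rcases hx with rfl | rfl | rfl
      · exact r2_inf θ hθ
      · exact r2_zero θ hθ
      · exact ee_one θ hθ
    · rw [cleanZ_good hx]
  exact LinearMap.congr_fun h d

variable [NumberField F]

theorem clean_mem (d : DQ F) : cleanQ F d ∈ Submodule.span ℚ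
    {m | ∃ a b : 𝓞 F, a ≠ 0 ∧ b ≠ 0 ∧ a - b ≠ 0 ∧ m = sbF a b} := by
  set S := Submodule.span ℚ {m | ∃ a b : 𝓞 F, a ≠ 0 ∧ b ≠ 0 ∧ a - b ≠ 0 ∧ m = sbF a b} with hS
  have h : S.mkQ ∘ₗ (cleanQ F) = 0 := by
    apply dq_ext
    intro x
    rw [LinearMap.comp_apply, cleanQ_apply, LinearMap.zero_apply, Submodule.mkQ_apply,
      Submodule.Quotient.mk_eq_zero]
    by_cases hx : x = none ∨ x = some 0 ∨ x = some 1
    · rw [cleanZ_bad hx, TensorProduct.tmul_zero]
      exact Submodule.zero_mem _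
    · rw [cleanZ_good hx]
      push Not at hx
      rcases x with _ | x
      · exact absurd rfl hx.1
      · obtain ⟨a, b, ha, hb, hab, rfl⟩ := exists_frac' x (fun h => hx.2.1 (by rw [h]))
          (fun h => hx.2.2 (by rw [h]))
        exact Submodule.subset_span ⟨a, b, ha, hb, hab, rfl⟩
  have h2 := LinearMap.congr_fun h d
  rwa [LinearMap.comp_apply, LinearMap.zero_apply, Submodule.mkQ_apply,
    Submodule.Quotient.mk_eq_zero] at h2

/-- the elements of the kernel of `δ` come from finitely many pairs -/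
theorem exQ (h3 : ∃ S : Set (TQ F 2 0), S.Finite ∧ ∀ u, e1e F 0 u = 0 → u ∈ Submodule.span ℚ S) :
    ∃ (Q : Set (𝓞 F × 𝓞 F)) (H : Set (DQ F)), Q.Finite ∧
      (∀ q ∈ Q, q.1 ≠ 0 ∧ q.2 ≠ 0 ∧ q.1 - q.2 ≠ 0) ∧ H.Finite ∧ (∀ h ∈ H, δF F h = 0) ∧
      ∀ h, δF F h = 0 → ∃ h', δF F h' = 0 ∧
        h' ∈ Submodule.span ℚ ((fun q : 𝓞 F × 𝓞 F => sbF q.1 q.2) '' Q) ∧
        h' ∈ Submodule.span ℚ H ∧
        ∀ (j : ℕ) (Θ : ZP F →ₗ[ℤ] (UV F [⋀^Fin j]→ₗ[ℤ] ℚ)), (∀ r ∈ R 2 F, Θ r = 0) →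
          lf Θ h = lf Θ h' := by
  classical
  set π := emb (F := F) (Fin.elim0 : Fin 0 → UV F) with hπ
  obtain ⟨S, hS, hSk⟩ := h3
  have hfd : (LinearMap.ker (e1e F 0)).FG := by
    have h1 : LinearMap.ker (e1e F 0) ≤ Submodule.span ℚ S := fun u hu => hSk u hu
    have : FiniteDimensional ℚ (Submodule.span ℚ S) := FiniteDimensional.span_of_finite ℚ hS
    have h2 : FiniteDimensional ℚ (LinearMap.ker (e1e F 0)) :=
      Submodule.finiteDimensional_of_le h1
    exact (Submodule.fg_iff_finiteDimensional _).2 h2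
  obtain ⟨K, hK⟩ := hfd
  have hKk : ∀ k ∈ K, e1e F 0 k = 0 := by
    intro k hk
    have : k ∈ LinearMap.ker (e1e F 0) := by
      rw [← hK]
      exact Submodule.subset_span hk
    exact this
  choose g hg using (emb0_surj (F := F))
  have hgδ : ∀ k ∈ K, δF F (g k) = 0 := by
    intro k hk
    rw [δF_emb0, hg, hKk k hk]
  have hT : ∀ k : TQ F 2 0, ∃ T : Set (𝓞 F × 𝓞 F), T.Finite ∧
      (∀ q ∈ T, q.1 ≠ 0 ∧ q.2 ≠ 0 ∧ q.1 - q.2 ≠ 0) ∧
      cleanQ F (g k) ∈ Submodule.span ℚ ((fun q : 𝓞 F × 𝓞 F => sbF q.1 q.2) '' T) := by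
    intro k
    obtain ⟨T, hT, hTm⟩ := Submodule.mem_span_finite_of_mem_span (clean_mem (g k))
    have hT' : ∀ m : DQ F, m ∈ T → ∃ a b : 𝓞 F, a ≠ 0 ∧ b ≠ 0 ∧ a - b ≠ 0 ∧ m = sbF a b :=
      fun m hm => hT hm
    choose! f1 f2 p1 p2 p3 p4 using hT'
    refine ⟨(fun m => (f1 m, f2 m)) '' (T : Set (DQ F)), T.finite_toSet.image _, ?_, ?_⟩
    · rintro _ ⟨m, hm, rfl⟩
      exact ⟨p1 m hm, p2 m hm, p3 m hm⟩
    · refine Submodule.span_mono ?_ hTm
      intro m hm
      exact ⟨(f1 m, f2 m), ⟨m, hm, rfl⟩, (p4 m hm).symm⟩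
  choose T hT1 hT2 hT3 using hT
  refine ⟨⋃ k ∈ K, T k, (fun k => cleanQ F (g k)) '' (K : Set (TQ F 2 0)), ?_, ?_,
    K.finite_toSet.image _, ?_, ?_⟩
  · exact K.finite_toSet.biUnion fun k _ => hT1 k
  · intro q hq
    simp only [Set.mem_iUnion] at hq
    obtain ⟨k, _, hq⟩ := hq
    exact hT2 k q hq
  · rintro _ ⟨k, hk, rfl⟩
    rw [δF_clean, hgδ k hk]
  · -- the elements
    have key : ∀ k ∈ Submodule.span ℚ (K : Set (TQ F 2 0)), ∃ h', δF F h' = 0 ∧
        h' ∈ Submodule.span ℚ ((fun q : 𝓞 F × 𝓞 F => sbF q.1 q.2) '' (⋃ k ∈ K, T k)) ∧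
        h' ∈ Submodule.span ℚ ((fun k => cleanQ F (g k)) '' (K : Set (TQ F 2 0))) ∧
        ∀ h, π h = k → ∀ (j : ℕ) (Θ : ZP F →ₗ[ℤ] (UV F [⋀^Fin j]→ₗ[ℤ] ℚ)),
          (∀ r ∈ R 2 F, Θ r = 0) → lf Θ h = lf Θ h' := by
      intro k hk
      induction hk using Submodule.span_induction with
      | mem k hk =>
        refine ⟨cleanQ F (g k), by rw [δF_clean, hgδ k hk], ?_, ?_, ?_⟩
        · refine Submodule.span_mono (Set.image_mono ?_) (hT3 k)
          exact Set.subset_biUnion_of_mem (u := T) hk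
        · exact Submodule.subset_span ⟨k, hk, rfl⟩
        · intro h hh j Θ hΘ
          rw [lf_clean Θ hΘ]
          have h1 := lf_emb0 Θ hΘ (h - g k) (by rw [map_sub, hg, ← hπ, hh, sub_self])
          rw [map_sub, sub_eq_zero] at h1
          exact h1
      | zero =>
        refine ⟨0, map_zero _, Submodule.zero_mem _, Submodule.zero_mem _, ?_⟩
        intro h hh j Θ hΘ
        rw [lf_emb0 Θ hΘ h hh, map_zero]
      | add a b _ _ iha ihb =>
        obtain ⟨ha, q1, q2, q2', q3⟩ := iha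
        obtain ⟨hb, r1, r2, r2', r3⟩ := ihb
        refine ⟨ha + hb, by rw [map_add, q1, r1, add_zero], Submodule.add_mem _ q2 r2,
          Submodule.add_mem _ q2' r2', ?_⟩
        intro h hh j Θ hΘ
        have h1 := q3 (g a) (hg a) j Θ hΘ
        have h2 := r3 (h - g a) (by rw [map_sub, hh, hπ, hg]; abel) j Θ hΘ
        rw [map_sub] at h2
        rw [map_add, ← h1, ← h2]
        abel
      | smul c a _ iha =>
        obtain ⟨ha, q1, q2, q2', q3⟩ := iha
        refine ⟨c • ha, by rw [map_smul, q1, smul_zero], Submodule.smul_mem _ _ q2,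
          Submodule.smul_mem _ _ q2', ?_⟩
        intro h hh j Θ hΘ
        have h1 := q3 (g a) (hg a) j Θ hΘ
        have h2 := lf_emb0 Θ hΘ (h - c • g a) (by rw [map_sub, map_smul, ← hπ, hh, hg, sub_self])
        rw [map_sub, sub_eq_zero] at h2
        rw [h2, map_smul, map_smul, h1]
    intro h hh
    obtain ⟨h', a1, a2, a3, a4⟩ := key (π h) (by
      rw [hK]
      exact (δF_emb0 h).1 hh)
    exact ⟨h', a1, a2, a3, a4 h rfl⟩

variable (hs : Function.Surjective (e1e F 0))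

/-- **without products** -/
theorem main_str
    (h3 : ∃ S : Set (TQ F 2 0), S.Finite ∧ ∀ u, e1e F 0 u = 0 → u ∈ Submodule.span ℚ S) :
    ∃ (X : Set (UV F)) (H : Set (DQ F)), X.Finite ∧ H.Finite ∧ (∀ h ∈ H, δF F h = 0) ∧
      ∀ (i : ℕ) (u : TQ F 2 (i + 1)), e1e F (i + 1) u = 0 →
        u ∈ Submodule.span ℚ (SDec F i ∪ (CorrS hs X i ∪ ProdS H X i)) := by
  obtain ⟨Q, H, hQ, hQ0, hH, hHδ, hQH⟩ := exQ h3
  obtain ⟨X, hX, hcl⟩ := claim hs Q hQ hQ0
  refine ⟨X, H, hX, hH, hHδ, fun i u hu => ?_⟩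
  by_contra hn
  obtain ⟨φ, h1, h2⟩ := exists_dual_ne hn
  have hG : Good Q (toTheta φ) := by
    refine ⟨fun r hr => toTheta_R φ r hr, fun x y hx => ?_, fun h hh => ?_⟩
    · rw [toTheta_apply]
      exact h1 _ (Submodule.subset_span (Or.inl ⟨x, y, hx, rfl⟩))
    · obtain ⟨h', a1, a2, -, a4⟩ := hQH h hh
      exact ⟨h', a1, a2, a4 _ _ (fun r hr => toTheta_R φ r hr)⟩
  obtain ⟨c1, c2⟩ := hcl i (toTheta φ) hG (by
    intro h hh y hy
    obtain ⟨h', -, -, a3, a4⟩ := hQH h hh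
    rw [a4 _ _ (fun r hr => toTheta_R φ r hr), toTheta_emb]
    have h5 : Submodule.span ℚ H ≤ LinearMap.ker (φ ∘ₗ (emb y)) := by
      rw [Submodule.span_le]
      intro k hk
      rw [SetLike.mem_coe, LinearMap.mem_ker, LinearMap.comp_apply]
      exact h1 _ (Submodule.subset_span (Or.inr (Or.inr ⟨k, hk, y, hy, rfl⟩)))
    exact h5 a3) (by
    intro x hx y hy z hz w hw
    unfold Wb
    rw [toTheta_emb, toTheta_emb, ← map_add]
    exact h1 _ (Submodule.subset_span (Or.inr (Or.inl ⟨x, hx, y, hy, z, hz, w, hw, rfl⟩))))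
  obtain ⟨ψ, hψ⟩ := factor hs φ c1 c2
  apply h2
  rw [hψ, hu, map_zero]

end Pool.Agent.V8H63.NF
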