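import Pool.Agent.V8H63.NF.NFstr

set_option autoImplicit false
set_option linter.unusedSectionVars false

/-!
# The consequences, for the definitions of `GonP`
-/

namespace Pool.Agent.V8H63.NF

open scoped TensorProduct
open NumberField GonP Pool.Agent.V8H63.W3

variable {F : Type} [Field F]

theorem hs_of (hs : Function.Surjective (eG F 0)) : Function.Surjective (H39Gon.e1e F 0) := by
  intro l
  obtain ⟨u, hu⟩ := hs ((eLQ F (0 + 2)).symm l)
  refine ⟨eT F 0 0 u, ?_⟩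
  exact (eLQ F (0 + 2)).symm.injective hu

theorem eG_zero_iff (j : ℕ) (u : TQ F 2 j) : eG F j u = 0 ↔ H39Gon.e1e F j (eT F 0 j u) = 0 := by
  unfold eG
  rw [LinearEquiv.map_eq_zero_iff]

theorem image_B3 (j : ℕ) : (eT F 0 (j + 1)) '' (ImageB3 F j) = SDec F j := by
  ext v
  constructor
  · rintro ⟨_, ⟨x, y, hx, rfl⟩, rfl⟩
    exact ⟨x, y, hx, eT_tq 0 (j + 1) _ _⟩
  · rintro ⟨x, y, hx, rfl⟩
    exact ⟨_, ⟨x, y, hx, rfl⟩, eT_tq 0 (j + 1) _ _⟩

theorem image_H1 (j : ℕ) : (eT F 0 j) '' (ProdH1 F j) = SProd F j := by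
  ext v
  constructor
  · rintro ⟨_, ⟨α, y, hα, rfl⟩, rfl⟩
    exact ⟨α, y, (delta2_zero_iff α).1 hα, eT_prod j α y⟩
  · rintro ⟨α, y, hα, rfl⟩
    exact ⟨_, ⟨α, y, (delta2_zero_iff α).2 hα, rfl⟩, eT_prod j α y⟩

theorem mem_span_iff (j : ℕ) (A : Set (TQ F 2 j)) (u : TQ F 2 j) :
    u ∈ Submodule.span ℚ A ↔ eT F 0 j u ∈ Submodule.span ℚ ((eT F 0 j) '' A) := by
  have h2 : Submodule.span ℚ ((eT F 0 j) '' A) =
      (Submodule.span ℚ A).map (eT F 0 j).toLinearMap :=
    (Submodule.map_span (eT F 0 j).toLinearMap _).symm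
  rw [h2]
  constructor
  · intro hu
    exact ⟨u, hu, rfl⟩
  · rintro ⟨w, hw, hwu⟩
    rwa [← (eT F 0 j).injective hwu]

theorem span_zero_set {V : Type} [AddCommGroup V] [Module ℚ V] {A B : Set V} (hB : B ⊆ {0}) {u : V}
    (hu : u ∈ Submodule.span ℚ (A ∪ B)) : u ∈ Submodule.span ℚ A := by
  have h : Submodule.span ℚ (A ∪ B) ≤ Submodule.span ℚ A := by
    rw [Submodule.span_le]
    rintro x (hx | hx)
    · exact Submodule.subset_span hx
    · rw [Set.mem_singleton_iff.1 (hB hx)]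
      exact Submodule.zero_mem _
  exact h hu

theorem ker_span {j : ℕ} {A : Set (H39Gon.TQ F 2 j)} (hA : ∀ v ∈ A, H39Gon.e1e F j v = 0)
    {u : H39Gon.TQ F 2 j} (hu : u ∈ Submodule.span ℚ A) : H39Gon.e1e F j u = 0 := by
  have h : Submodule.span ℚ A ≤ LinearMap.ker (H39Gon.e1e F j) := by
    rw [Submodule.span_le]
    exact fun v hv => hA v hv
  exact h hu

theorem SDec_ker (j : ℕ) (v : H39Gon.TQ F 2 (j + 1)) (hv : v ∈ SDec F j) :
    H39Gon.e1e F (j + 1) v = 0 := e_dec j v (Submodule.subset_span (Or.inl hv))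

theorem SProd_ker (j : ℕ) (v : H39Gon.TQ F 2 (j + 1)) (hv : v ∈ Pool.Agent.V8H63.W3.SProd F (j + 1)) :
    H39Gon.e1e F (j + 1) v = 0 := e_dec j v (Submodule.subset_span (Or.inr hv))

variable [NumberField F]

theorem out_prod (hs : Function.Surjective (eG F 0)) : ∃ j₀ : ℕ, ∀ j : ℕ,
    ∃ S : Set (TQ F 2 (j + 1)), S.Finite ∧ (j₀ ≤ j → S = ∅) ∧
      ∀ u, eG F (j + 1) u = 0 ↔
        u ∈ Submodule.span ℚ (ImageB3 F j ∪ ProdH1 F (j + 1) ∪ S) := by
  obtain ⟨X, hX, hm⟩ := main_prod (hs_of hs)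
  refine ⟨hX.toFinset.card, fun j => ?_⟩
  by_cases hj : hX.toFinset.card ≤ j
  · refine ⟨∅, Set.finite_empty, fun _ => rfl, fun u => ?_⟩
    rw [Set.union_empty, mem_span_iff, Set.image_union, image_B3, image_H1, eG_zero_iff]
    constructor
    · intro hu
      exact span_zero_set (CorrS_large (hs_of hs) hX hj) (hm j _ hu)
    · exact fun hu => e_dec j _ hu
  · refine ⟨(eT F 0 (j + 1)).symm '' (CorrS (hs_of hs) X j), (CorrS_finite _ hX j).image _,
      fun h => absurd h hj, fun u => ?_⟩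
    have e : (eT F 0 (j + 1)) '' ((eT F 0 (j + 1)).symm '' (CorrS (hs_of hs) X j)) =
        CorrS (hs_of hs) X j := by
      rw [← Set.image_comp]
      have : (⇑(eT F 0 (j + 1)) ∘ ⇑(eT F 0 (j + 1)).symm) = id := by
        funext x; simp
      rw [this, Set.image_id]
    rw [mem_span_iff, Set.image_union, Set.image_union, image_B3, image_H1, eG_zero_iff, e]
    constructor
    · exact hm j _
    · intro hu
      refine ker_span ?_ hu
      rintro v ((hv | hv) | ⟨x, _, y, _, z, _, w, _, rfl⟩)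
      · exact SDec_ker j v hv
      · exact SProd_ker j v hv
      · exact e_corr _ x y z w

theorem out_str (hs : Function.Surjective (eG F 0))
    (h3 : ∃ S : Set (TQ F 2 0), S.Finite ∧ ∀ u, eG F 0 u = 0 → u ∈ Submodule.span ℚ S) :
    ∃ j₁ : ℕ, ∀ j : ℕ, ∃ S : Set (TQ F 2 (j + 1)), S.Finite ∧ (j₁ ≤ j → S = ∅) ∧
      ∀ u, eG F (j + 1) u = 0 ↔ u ∈ Submodule.span ℚ (ImageB3 F j ∪ S) := by
  obtain ⟨S, hS, hSk⟩ := h3
  obtain ⟨X, H, hX, hH, hHδ, hm⟩ := main_str (hs_of hs) ⟨(eT F 0 0) '' S, hS.image _, by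
    intro u hu
    have h1 : u = eT F 0 0 ((eT F 0 0).symm u) := by simp
    rw [h1, ← mem_span_iff]
    apply hSk
    rw [eG_zero_iff, ← h1]
    exact hu⟩
  refine ⟨hX.toFinset.card, fun j => ?_⟩
  by_cases hj : hX.toFinset.card ≤ j
  · refine ⟨∅, Set.finite_empty, fun _ => rfl, fun u => ?_⟩
    rw [Set.union_empty, mem_span_iff, image_B3, eG_zero_iff]
    constructor
    · intro hu
      refine span_zero_set ?_ (hm j _ hu)
      rintro v (hv | hv)
      · exact CorrS_large (hs_of hs) hX hj hv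
      · exact ProdS_large hX hj hv
    · exact fun hu => ker_span (SDec_ker j) hu
  · refine ⟨(eT F 0 (j + 1)).symm '' (CorrS (hs_of hs) X j ∪ ProdS H X j),
      ((CorrS_finite _ hX j).union (ProdS_finite hH hX j)).image _,
      fun h => absurd h hj, fun u => ?_⟩
    have e : (eT F 0 (j + 1)) '' ((eT F 0 (j + 1)).symm '' (CorrS (hs_of hs) X j ∪ ProdS H X j)) =
        CorrS (hs_of hs) X j ∪ ProdS H X j := by
      rw [← Set.image_comp]
      have : (⇑(eT F 0 (j + 1)) ∘ ⇑(eT F 0 (j + 1)).symm) = id := by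
        funext x; simp
      rw [this, Set.image_id]
    rw [mem_span_iff, Set.image_union, image_B3, eG_zero_iff, e]
    constructor
    · exact hm j _
    · intro hu
      refine ker_span ?_ hu
      rintro v (hv | ⟨x, _, y, _, z, _, w, _, rfl⟩ | ⟨h, hh, y, _, rfl⟩)
      · exact SDec_ker j v hv
      · exact e_corr _ x y z w
      · exact e_emb0 h (hHδ h hh) y

end Pool.Agent.V8H63.NF
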