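import Pool.Agent.V8H63.NF.K2g

set_option autoImplicit false
set_option linter.unusedSectionVars false

/-!
# The consequences, for the definitions of `GonP`
-/

namespace Pool.Agent.V8H63.NF

open scoped TensorProduct
open NumberField GonP Pool.Agent.V8H63.W3

variable {F : Type} [Field F]

theorem range_e0 : LinearMap.range (H39Gon.e1e F 0) = LinearMap.range (δF F) := by
  ext l
  constructor
  · rintro ⟨u, rfl⟩
    obtain ⟨d, rfl⟩ := emb0_surj u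
    exact ⟨d, δF_e0 d⟩
  · rintro ⟨d, rfl⟩
    exact ⟨_, (δF_e0 d).symm⟩

theorem eLQ_eG (j : ℕ) (u : TQ F 2 j) : eLQ F (j + 2) (eG F j u) = H39Gon.e1e F j (eT F 0 j u) := by
  unfold eG
  rw [LinearEquiv.apply_symm_apply]

theorem kgen_of {X : Set (UV F)} (h : ∀ w : LQ F 2, w ∈ Submodule.span ℚ (Set.range (eG F 0) ∪
    {v | ∃ x ∈ X, ∃ y : UV F, v = lq 2 ![x, y]})) : KGen X := by
  intro l
  have h1 : Submodule.span ℚ (Set.range (eG F 0) ∪ {v | ∃ x ∈ X, ∃ y : UV F, v = lq 2 ![x, y]}) ≤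
      (LinearMap.range (δF F) ⊔ NZ X).comap (eLQ F 2).toLinearMap := by
    rw [Submodule.span_le]
    rintro v (⟨u, rfl⟩ | ⟨x, hx, y, rfl⟩)
    · refine Submodule.mem_sup_left ?_
      rw [← range_e0]
      exact ⟨_, (eLQ_eG 0 u).symm⟩
    · refine Submodule.mem_sup_right ?_
      have h2 : (eLQ F 2).toLinearMap (lq 2 ![x, y]) = H39Gon.lq F 2 ![x, y] := eLQ_lq 2 _
      rw [h2]
      exact Submodule.subset_span ⟨x, hx, y, rfl⟩
  have h2 := h1 (h ((eLQ F 2).symm l))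
  rw [Submodule.mem_comap, LinearEquiv.coe_coe, LinearEquiv.apply_symm_apply] at h2
  obtain ⟨_, ⟨d, rfl⟩, g, hg, h3⟩ := Submodule.mem_sup.1 h2
  refine ⟨d, ?_⟩
  rwa [← h3, add_sub_cancel_left]

/-- **`n ≥ |X| + 5`** -/
theorem outVX {X : Finset (UV F)} (h : ∀ w : LQ F 2, w ∈ Submodule.span ℚ (Set.range (eG F 0) ∪
    {v | ∃ x ∈ X, ∃ y : UV F, v = lq 2 ![x, y]})) (j : ℕ) (hj : X.card ≤ j)
    (u : TQ F 2 (j + 3)) : eG F (j + 3) u = 0 ↔ u ∈ Submodule.span ℚ (ImageB3 F (j + 2)) := by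
  rw [mem_span_iff (j + 3), image_B3, eG_zero_iff]
  refine ⟨vanU X.toList ?_ j (by rwa [Finset.length_toList]) _,
    fun h => ker_span (SDec_ker (j + 2)) h⟩
  have h1 : KGen ((X : Set (UV F))) := kgen_of h
  refine h1.mono ?_
  intro x hx
  exact Finset.mem_toList.2 hx

/-- number fields -/
theorem outGen [NumberField F] : ∃ X : Finset (UV F), ∀ w : LQ F 2,
    w ∈ Submodule.span ℚ (Set.range (eG F 0) ∪ {v | ∃ x ∈ X, ∃ y ∈ X, v = lq 2 ![x, y]}) := by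
  obtain ⟨X, hX, h⟩ := K2gen_lq (F := F)
  refine ⟨hX.toFinset, fun w => ?_⟩
  obtain ⟨d, hd⟩ := h (eLQ F 2 w)
  set G := Submodule.span ℚ (Set.range (eG F 0) ∪
    {v | ∃ x ∈ hX.toFinset, ∃ y ∈ hX.toFinset, v = lq 2 ![x, y]}) with hG
  have h1 : Submodule.span ℚ {l | ∃ x ∈ X, ∃ y ∈ X, l = H39Gon.lq F 2 ![x, y]} ≤
      G.comap (eLQ F 2).symm.toLinearMap := by
    rw [Submodule.span_le]
    rintro _ ⟨x, hx, y, hy, rfl⟩
    have h2 : (eLQ F 2).symm.toLinearMap (H39Gon.lq F 2 ![x, y]) = lq 2 ![x, y] :=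
      eLQ_symm_lq 2 _
    rw [SetLike.mem_coe, Submodule.mem_comap, h2]
    exact Submodule.subset_span (Or.inr ⟨x, hX.mem_toFinset.2 hx, y, hX.mem_toFinset.2 hy, rfl⟩)
  have h2 := h1 hd
  have h3 : (eLQ F 2).symm (δF F d) ∈ G := by
    have h4 : δF F d ∈ LinearMap.range (H39Gon.e1e F 0) := by
      rw [range_e0]
      exact ⟨d, rfl⟩
    obtain ⟨u, hu⟩ := h4
    refine Submodule.subset_span (Or.inl ⟨(eT F 0 0).symm u, ?_⟩)
    unfold eG
    rw [LinearEquiv.apply_symm_apply, hu]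
  have h5 : w = (eLQ F 2).symm (eLQ F 2 w - δF F d) + (eLQ F 2).symm (δF F d) := by
    rw [← map_add, sub_add_cancel, LinearEquiv.symm_apply_apply]
  rw [h5]
  exact G.add_mem h2 h3

/-- number fields: vanishing for large `n` -/
theorem outNF [NumberField F] : ∃ j₀ : ℕ, ∀ j, j₀ ≤ j → ∀ u : TQ F 2 (j + 1),
    eG F (j + 1) u = 0 ↔ u ∈ Submodule.span ℚ (ImageB3 F j) := by
  obtain ⟨X, hX⟩ := outGen (F := F)
  refine ⟨X.card + 2, fun j hj u => ?_⟩
  obtain ⟨i, rfl⟩ : ∃ i, j = i + 2 := ⟨j - 2, by omega⟩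
  refine outVX (X := X) (fun w => ?_) i (by omega) u
  refine Submodule.span_mono ?_ (hX w)
  rintro v (hv | ⟨x, hx, y, hy, rfl⟩)
  · exact Or.inl hv
  · exact Or.inr ⟨x, hx, y, rfl⟩

/-- **the exchange identity** -/
theorem outEx (x y : F) (hx0 : x ≠ 0) (hx1 : x ≠ 1) (hy0 : y ≠ 0) (hy1 : y ≠ 1) (j : ℕ)
    (w : Fin j → UV F) :
    tq 2 (j + 2) (some x) (Fin.cons (cl (1 - y)) (Fin.cons (cl y) w)) -
      tq 2 (j + 2) (some y) (Fin.cons (cl (1 - x)) (Fin.cons (cl x) w)) ∈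
        Submodule.span ℚ (ImageB3 F (j + 1)) := by
  rw [mem_span_iff (j + 2), image_B3, map_sub]
  have e : ∀ (x : F) (y : Fin (j + 2) → UV F), eT F 0 (j + 2) (tq 2 (j + 2) (some x) y) =
      H39Gon.tq F 2 (j + 2) (some x) y := fun x y => eT_tq 0 (j + 2) (some x) y
  rw [e, e]
  exact exSpan x y hx0 hx1 hy0 hy1 j w

/-- products factor through Milnor K-theory -/
theorem outPM (α : ZP F) (hα : delta2 F α = 0) (x : F) (j : ℕ) (w : Fin j → UV F)
    (v : TQ F 2 (j + 2)) (hv : v = toRat (tm (toQuo (R 2 F) α) (wedge (Fin.cons (cl (1 - x))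
      (Fin.cons (cl x) w))))) : v ∈ Submodule.span ℚ (ImageB3 F (j + 1)) := by
  rw [mem_span_iff (j + 2), image_B3]
  have e : eT F 0 (j + 2) v = emb (Fin.cons (cl (1 - x)) (Fin.cons (cl x) w))
      ((1 : ℚ) ⊗ₜ[ℤ] α) := by
    rw [hv, emb_apply]
    exact eT_prod (j + 2) α _
  rw [e]
  exact prodSpan α ((delta2_zero_iff α).1 hα) x j w

end Pool.Agent.V8H63.NF
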