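import Pool.Agent.V8H63.NF.NFfin

set_option autoImplicit false
set_option linter.unusedSectionVars false

/-!
# The exchange identity

For a field `F` and `x, y ∈ F` the element `{x}_2 ⊗ (1-y) ∧ y - {y}_2 ⊗ (1-x) ∧ x` of
`B_2(F) ⊗ Λ^2 F^*` is, rationally, a combination of elements `{z}_2 ⊗ z ∧ w`.
-/

namespace Pool.Agent.V8H63.NF

open scoped TensorProduct
open H39Gon H39Gon.TaskB H39Gon.E2 Pool.Agent.V8H63.W3

/-- five alternating forms -/
theorem five_forms {V : Type} [AddCommGroup V] (G1 G2 G3 G4 G5 : V →ₗ[ℤ] V →ₗ[ℤ] ℚ)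
    (_h1 : ∀ u, G1 u u = 0) (h2 : ∀ u, G2 u u = 0) (h3 : ∀ u, G3 u u = 0) (h4 : ∀ u, G4 u u = 0)
    (h5 : ∀ u, G5 u u = 0) (a b c d e : V)
    (ka : ∀ v, G1 a v = 0) (kb : ∀ v, G1 b v = 0) (kc : ∀ v, G2 c v = 0) (kd : ∀ v, G2 d v = 0)
    (k3 : ∀ v, G3 (c - a) v = 0) (k4 : ∀ v, G4 (d - b) v = 0)
    (k5 : ∀ v, G5 (a + d - e) v = 0) (k5' : ∀ v, G5 (b + c - e) v = 0)
    (h : ∀ u v, G1 u v - G2 u v + G3 u v - G4 u v = G5 u v) : G1 c d = G2 a b := by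
  have s : ∀ (G : V →ₗ[ℤ] V →ₗ[ℤ] ℚ), (∀ u, G u u = 0) → ∀ u v, G u v = - G v u :=
    fun G hG u v => GD.alt_swap G hG u v
  have e1 := h a b
  have e2 := h a d
  have e3 := h b c
  have e4 := h c d
  have l3a := k3 b
  have l3d := k3 d
  have l4a := k4 a
  have l4c := k4 c
  have l5a := k5 a
  have l5a' := k5' a
  have l5b := k5 b
  have l5b' := k5' b
  have l5c := k5 c
  have l5c' := k5' c
  simp only [map_sub, map_add, LinearMap.sub_apply, LinearMap.add_apply, h5, ka,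
    kb, kc] at e1 e2 e3 e4 l3a l3d l4a l4c l5a l5a' l5b l5b' l5c l5c'
  have t1 := s G2 h2 b c
  have t2 := s G3 h3 a b
  have t3 := s G4 h4 a b
  have t4 := s G4 h4 a d
  have t5 := s G4 h4 c b
  have t6 := s G5 h5 a b
  have t7 := s G5 h5 a c
  have t8 := s G5 h5 a d
  have t9 := s G5 h5 b c
  have t10 := s G5 h5 c d
  have t12 := s G3 h3 c b
  have t13 := s G4 h4 c d
  have t15 := s G2 h2 a d
  rw [kd] at t15
  rw [kc] at t1
  linarith

section fld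

variable {F : Type} [Field F]

/-- the bilinear form `u, v ↦ Θ(u ∧ v ∧ y)` -/
noncomputable def gf {i : ℕ} (f : UV F [⋀^Fin (i + 2)]→ₗ[ℤ] ℚ) (y : Fin i → UV F) :
    UV F →ₗ[ℤ] UV F →ₗ[ℤ] ℚ :=
  LinearMap.mk₂ ℤ (fun u v => f (Fin.cons u (Fin.cons v y)))
    (fun a b v => by
      have h := (f.curryLeft).map_add a b
      exact congrArg (fun g : UV F [⋀^Fin (i + 1)]→ₗ[ℤ] ℚ => g (Fin.cons v y)) h)
    (fun n a v => by
      have h := (f.curryLeft).map_smul n a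
      exact congrArg (fun g : UV F [⋀^Fin (i + 1)]→ₗ[ℤ] ℚ => g (Fin.cons v y)) h)
    (fun v a b => by
      have h := ((f.curryLeft v).curryLeft).map_add a b
      exact congrArg (fun g : UV F [⋀^Fin i]→ₗ[ℤ] ℚ => g y) h)
    (fun n v a => by
      have h := ((f.curryLeft v).curryLeft).map_smul n a
      exact congrArg (fun g : UV F [⋀^Fin i]→ₗ[ℤ] ℚ => g y) h)

theorem gf_apply {i : ℕ} (f : UV F [⋀^Fin (i + 2)]→ₗ[ℤ] ℚ) (y : Fin i → UV F) (u v : UV F) :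
    gf f y u v = f (Fin.cons u (Fin.cons v y)) := rfl

theorem gf_self {i : ℕ} (f : UV F [⋀^Fin (i + 2)]→ₗ[ℤ] ℚ) (y : Fin i → UV F) (u : UV F) :
    gf f y u u = 0 := by
  rw [gf_apply]
  exact f.map_eq_zero_of_eq _ (i := 0) (j := 1) rfl (by simp)

variable {i : ℕ} (Θ : ZP F →ₗ[ℤ] (UV F [⋀^Fin (i + 2)]→ₗ[ℤ] ℚ))

/-- the form attached to `x` -/
noncomputable def gx (y : Fin i → UV F) (x : F) : UV F →ₗ[ℤ] UV F →ₗ[ℤ] ℚ :=
  gf (Θ (Finsupp.single (some x) 1)) y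

/-- evaluation -/
noncomputable def thuv (y : Fin i → UV F) (u v : UV F) : ZP F →ₗ[ℤ] ℚ :=
  AddMonoidHom.toIntLinearMap
    { toFun := fun α => Θ α (Fin.cons u (Fin.cons v y))
      map_zero' := by rw [map_zero]; rfl
      map_add' := fun a b => by rw [map_add]; rfl }

theorem thuv_ee (y : Fin i → UV F) (u v : UV F) (x : F) :
    ee (thuv Θ y u v) x = gx Θ y x u v := rfl

theorem gx_neg (y : Fin i → UV F) (x z : F) (hz : z ≠ 0) (v : UV F) :
    gx Θ y x (cl (-z)) v = gx Θ y x (cl z) v := by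
  have h : cl (-z) = cl (-1 : F) + cl z := by rw [← cl_mul (by simp) hz, neg_one_mul]
  have h2 := tor_zero ((gx Θ y x).flip v)
  rw [LinearMap.flip_apply] at h2
  rw [h, map_add, LinearMap.add_apply, h2, zero_add]

variable (hR : ∀ r ∈ R 2 F, Θ r = 0)
  (hdec : ∀ (x : F) (w : Fin (i + 1) → UV F), x ≠ 0 →
    Θ (Finsupp.single (some x) 1) (Fin.cons (cl x) w) = 0)

include hR in
theorem thuv_R (y : Fin i → UV F) (u v : UV F) : ∀ r ∈ R 2 F, thuv Θ y u v r = 0 := by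
  intro r hr
  change Θ r (Fin.cons u (Fin.cons v y)) = 0
  rw [hR r hr]
  rfl

include hdec in
theorem gx_self (y : Fin i → UV F) (x : F) (hx : x ≠ 0) (v : UV F) :
    gx Θ y x (cl x) v = 0 := hdec x _ hx

include hR hdec in
theorem gx_one_sub (y : Fin i → UV F) (x : F) (hx : 1 - x ≠ 0) (v : UV F) :
    gx Θ y x (cl (1 - x)) v = 0 := by
  have h := ee_sub (thuv Θ y (cl (1 - x)) v) (thuv_R Θ hR y _ _) x
  rw [thuv_ee, thuv_ee, gx_self Θ hdec y (1 - x) hx v, add_zero] at h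
  exact h

include hR hdec in
/-- **the exchange identity** -/
theorem exchange (y : Fin i → UV F) (x z : F) (hx0 : x ≠ 0) (hx1 : x ≠ 1) (hz0 : z ≠ 0)
    (hz1 : z ≠ 1) : gx Θ y x (cl z) (cl (1 - z)) = gx Θ y z (cl x) (cl (1 - x)) := by
  by_cases hzx : z = x
  · rw [hzx]
  have hx1' : 1 - x ≠ 0 := sub_ne_zero.2 (Ne.symm hx1)
  have hz1' : 1 - z ≠ 0 := sub_ne_zero.2 (Ne.symm hz1)
  have hx1'' : x - 1 ≠ 0 := sub_ne_zero.2 hx1
  have hz1'' : z - 1 ≠ 0 := sub_ne_zero.2 hz1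
  have hzx' : z - x ≠ 0 := sub_ne_zero.2 hzx
  have e3 : cl (z / x) = cl z - cl x := cl_div hz0 hx0
  have e4 : (z - 1) / (x - 1) = (1 - z) / (1 - x) := by
    rw [← neg_sub 1 z, ← neg_sub 1 x, neg_div_neg_eq]
  have e4' : cl ((1 - z) / (1 - x)) = cl (1 - z) - cl (1 - x) := cl_div hz1' hx1'
  have q5 : x * (z - 1) / (z - x) ≠ 0 := div_ne_zero (mul_ne_zero hx0 hz1'') hzx'
  have q6 : 1 - x * (z - 1) / (z - x) = z * (1 - x) / (z - x) := by
    field_simp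
    ring
  have q6' : 1 - x * (z - 1) / (z - x) ≠ 0 := by
    rw [q6]
    exact div_ne_zero (mul_ne_zero hz0 hx1') hzx'
  refine five_forms (gx Θ y x) (gx Θ y z) (gx Θ y (z / x)) (gx Θ y ((z - 1) / (x - 1)))
    (gx Θ y (x * (z - 1) / (z - x))) (fun u => gf_self _ _ u) (fun u => gf_self _ _ u)
    (fun u => gf_self _ _ u) (fun u => gf_self _ _ u) (fun u => gf_self _ _ u)
    (cl x) (cl (1 - x)) (cl z) (cl (1 - z)) (cl (z - x)) (fun v => gx_self Θ hdec y x hx0 v)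
    (fun v => gx_one_sub Θ hR hdec y x hx1' v) (fun v => gx_self Θ hdec y z hz0 v)
    (fun v => gx_one_sub Θ hR hdec y z hz1' v) (fun v => ?_) (fun v => ?_) (fun v => ?_)
    (fun v => ?_) (fun u v => ?_)
  · have h := gx_self Θ hdec y (z / x) (div_ne_zero hz0 hx0) v
    rwa [e3] at h
  · have h := gx_self Θ hdec y ((z - 1) / (x - 1)) (div_ne_zero hz1'' hx1'') v
    rw [e4] at h ⊢
    rwa [e4'] at h
  · have h := gx_self Θ hdec y (x * (z - 1) / (z - x)) q5 v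
    have h1 : x * (z - 1) / (z - x) = -(x * (1 - z) / (z - x)) := by
      rw [← neg_sub 1 z]
      ring
    have q7 : x * (1 - z) / (z - x) ≠ 0 := div_ne_zero (mul_ne_zero hx0 hz1') hzx'
    have h2 := gx_neg Θ y (x * (z - 1) / (z - x)) _ q7 v
    rw [← h1, h, cl_div (mul_ne_zero hx0 hz1') hzx', cl_mul hx0 hz1'] at h2
    exact h2.symm
  · have h := gx_one_sub Θ hR hdec y (x * (z - 1) / (z - x)) q6' v
    rw [q6, cl_div (mul_ne_zero hz0 hx1') hzx', cl_mul hz0 hx1'] at h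
    rw [add_comm (cl (1 - x))]
    exact h
  · have h := ee_five (thuv Θ y u v) (thuv_R Θ hR y u v) x z hx0 hx1 hz0 hz1 hzx
    rw [thuv_ee, thuv_ee, thuv_ee, thuv_ee, thuv_ee] at h
    exact h

/-- alternating forms as forms on `Λ^2` -/
noncomputable def c2 (F : Type) [Field F] (i : ℕ) : (UV F [⋀^Fin (i + 2)]→ₗ[ℤ] ℚ) →ₗ[ℤ]
    (UV F [⋀^Fin 2]→ₗ[ℤ] (UV F [⋀^Fin i]→ₗ[ℤ] ℚ)) :=
  AddMonoidHom.toIntLinearMap
    { toFun := fun f => alt2N (AlternatingMap.curryLeftLinearMap ∘ₗ f.curryLeft) (fun a => by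
        ext y
        exact f.map_eq_zero_of_eq _ (i := 0) (j := 1) rfl (by simp))
      map_zero' := rfl
      map_add' := fun _ _ => rfl }

theorem c2_apply (f : UV F [⋀^Fin (i + 2)]→ₗ[ℤ] ℚ) (a b : UV F) (y : Fin i → UV F) :
    c2 F i f ![a, b] y = f (Fin.cons a (Fin.cons b y)) := rfl

/-- the same, over `ℚ` -/
noncomputable def E2r (F : Type) [Field F] (i : ℕ) : (UV F [⋀^Fin (i + 2)]→ₗ[ℤ] ℚ) →ₗ[ℚ]
    (LQ F 2 →ₗ[ℚ] (UV F [⋀^Fin i]→ₗ[ℤ] ℚ)) :=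
  AddMonoidHom.toRatLinearMap
    { toFun := fun f => lf (exteriorPower.alternatingMapLinearEquiv (c2 F i f))
      map_zero' := by rw [map_zero, map_zero, map_zero]
      map_add' := fun f g => by rw [map_add, map_add, map_add] }

theorem E2r_lq (f : UV F [⋀^Fin (i + 2)]→ₗ[ℤ] ℚ) (a b : UV F) (y : Fin i → UV F) :
    E2r F i f (lq F 2 ![a, b]) y = f (Fin.cons a (Fin.cons b y)) := by
  change lf (exteriorPower.alternatingMapLinearEquiv (c2 F i f)) (lq F 2 ![a, b]) y = _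
  unfold lq
  rw [lf_apply, exteriorPower.alternatingMapLinearEquiv_apply_ιMulti, c2_apply]

theorem lq_self (a : UV F) : lq F 2 ![a, a] = 0 := by
  unfold lq
  rw [AlternatingMap.map_eq_zero_of_eq _ _ (i := 0) (j := 1) (by simp) (by simp),
    TensorProduct.tmul_zero]

theorem δF_some (x : F) : δF F ((1 : ℚ) ⊗ₜ[ℤ] Finsupp.single (some x) 1) =
    lq F 2 ![cl (1 - x), cl x] := by
  rw [δF_apply, delta2_single]
  rfl

theorem δF_none : δF F ((1 : ℚ) ⊗ₜ[ℤ] Finsupp.single (none : P1 F) 1) = 0 := by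
  have e3 : delta2 F (Finsupp.single none 1) = 0 := by
    unfold delta2
    rw [Finsupp.linearCombination_single, one_smul]
  rw [δF_apply, e3, TensorProduct.tmul_zero]

theorem δF_zero' : δF F ((1 : ℚ) ⊗ₜ[ℤ] Finsupp.single (some (0 : F)) 1) = 0 := by
  rw [δF_apply, delta2_single, e1cl_zero,
    (exteriorPower.ιMulti ℤ 2).map_coord_zero (i := 1) (by simp), TensorProduct.tmul_zero]

theorem δF_one' : δF F ((1 : ℚ) ⊗ₜ[ℤ] Finsupp.single (some (1 : F)) 1) = 0 := by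
  rw [δF_apply, delta2_single, e1cl_one,
    (exteriorPower.ιMulti ℤ 2).map_coord_zero (i := 1) (by simp), TensorProduct.tmul_zero]

section bad

variable {j : ℕ} (Ξ : ZP F →ₗ[ℤ] (UV F [⋀^Fin j]→ₗ[ℤ] ℚ)) (hΞ : ∀ r ∈ R 2 F, Ξ r = 0)

include hΞ

/-- the functionals vanish at `{∞}`, `{0}`, `{1}` -/
theorem th_bad (x : P1 F) (hx : x = none ∨ x = some 0 ∨ x = some 1) :
    Ξ (Finsupp.single x 1) = 0 := by
  ext y
  let θ : ZP F →ₗ[ℤ] ℚ := AddMonoidHom.toIntLinearMap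
    { toFun := fun α => Ξ α y
      map_zero' := by rw [map_zero]; rfl
      map_add' := fun a b => by rw [map_add]; rfl }
  have hθ : ∀ r ∈ R 2 F, θ r = 0 := by
    intro r hr
    change Ξ r y = 0
    rw [hΞ r hr]
    rfl
  rcases hx with rfl | rfl | rfl
  · exact r2_inf θ hθ
  · exact r2_zero θ hθ
  · exact ee_one θ hθ

end bad

theorem δF_bad (x : P1 F) (hx : x = none ∨ x = some 0 ∨ x = some 1) :
    δF F ((1 : ℚ) ⊗ₜ[ℤ] Finsupp.single x 1) = 0 := by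
  rcases hx with rfl | rfl | rfl
  · exact δF_none
  · exact δF_zero'
  · exact δF_one'

theorem gf_swap (f : UV F [⋀^Fin (i + 2)]→ₗ[ℤ] ℚ) (y : Fin i → UV F) (u v : UV F) :
    gf f y u v = - gf f y v u := GD.alt_swap (gf f y) (gf_self f y) u v

include hR hdec in
theorem pair_gen (y : Fin i → UV F) (x z : P1 F) :
    E2r F i (Θ (Finsupp.single x 1)) (δF F ((1 : ℚ) ⊗ₜ[ℤ] Finsupp.single z 1)) y =
      E2r F i (Θ (Finsupp.single z 1)) (δF F ((1 : ℚ) ⊗ₜ[ℤ] Finsupp.single x 1)) y := by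
  by_cases hx : x = none ∨ x = some 0 ∨ x = some 1
  · rw [th_bad Θ hR x hx, δF_bad x hx, map_zero, map_zero]
    rfl
  by_cases hz : z = none ∨ z = some 0 ∨ z = some 1
  · rw [th_bad Θ hR z hz, δF_bad z hz, map_zero, map_zero]
    rfl
  push Not at hx hz
  rcases x with _ | x
  · exact absurd rfl hx.1
  rcases z with _ | z
  · exact absurd rfl hz.1
  have h := exchange Θ hR hdec y x z (fun h => hx.2.1 (by rw [h])) (fun h => hx.2.2 (by rw [h]))
    (fun h => hz.2.1 (by rw [h])) (fun h => hz.2.2 (by rw [h]))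
  rw [δF_some, δF_some, E2r_lq, E2r_lq]
  unfold gx at h
  rw [gf_swap, gf_swap (Θ (Finsupp.single (some z) 1))] at h
  exact neg_injective h

include hR hdec in
/-- **symmetry** -/
theorem pair_sym (y : Fin i → UV F) (α β : DQ F) :
    E2r F i (lf Θ α) (δF F β) y = E2r F i (lf Θ β) (δF F α) y := by
  have h1 : ∀ (x : P1 F) (β : DQ F), E2r F i (Θ (Finsupp.single x 1)) (δF F β) y =
      E2r F i (lf Θ β) (δF F ((1 : ℚ) ⊗ₜ[ℤ] Finsupp.single x 1)) y := by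
    intro x
    have h2 : (evA y) ∘ₗ (E2r F i (Θ (Finsupp.single x 1))) ∘ₗ (δF F) =
        (evA y) ∘ₗ ((E2r F i).flip (δF F ((1 : ℚ) ⊗ₜ[ℤ] Finsupp.single x 1))) ∘ₗ (lf Θ) := by
      apply dq_ext
      intro z
      change E2r F i (Θ (Finsupp.single x 1)) (δF F ((1 : ℚ) ⊗ₜ[ℤ] Finsupp.single z 1)) y =
        E2r F i (lf Θ ((1 : ℚ) ⊗ₜ[ℤ] Finsupp.single z 1))
          (δF F ((1 : ℚ) ⊗ₜ[ℤ] Finsupp.single x 1)) y
      rw [lf_apply]
      exact pair_gen Θ hR hdec y x z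
    intro β
    exact LinearMap.congr_fun h2 β
  have h3 : (evA y) ∘ₗ ((E2r F i).flip (δF F β)) ∘ₗ (lf Θ) =
      (evA y) ∘ₗ (E2r F i (lf Θ β)) ∘ₗ (δF F) := by
    apply dq_ext
    intro x
    change E2r F i (lf Θ ((1 : ℚ) ⊗ₜ[ℤ] Finsupp.single x 1)) (δF F β) y =
      E2r F i (lf Θ β) (δF F ((1 : ℚ) ⊗ₜ[ℤ] Finsupp.single x 1)) y
    rw [lf_apply]
    exact h1 x β
  exact LinearMap.congr_fun h3 α

end fld

end Pool.Agent.V8H63.NF
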