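import Pool.Agent.V8H63.NF.Sy

set_option autoImplicit false
set_option linter.unusedSectionVars false

/-!
# Consequences of the exchange identity
-/

namespace Pool.Agent.V8H63.NF

open scoped TensorProduct
open H39Gon H39Gon.TaskB H39Gon.E2 Pool.Agent.V8H63.W3

variable {F : Type} [Field F]

theorem δF_e0 (d : DQ F) : δF F d = e1e F 0 (emb (Fin.elim0 : Fin 0 → UV F) d) := by
  by_contra hn
  have h1 : δF F d - e1e F 0 (emb (Fin.elim0 : Fin 0 → UV F) d) ∉ (⊥ : Submodule ℚ (LQ F 2)) := by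
    rw [Submodule.mem_bot, sub_eq_zero]
    exact hn
  obtain ⟨χ, -, h2⟩ := exists_dual_ne h1
  apply h2
  obtain ⟨l, hl1, hl2⟩ := chi_e (j := 0) χ
  have h3 := hl2 d Fin.elim0
  rw [map_sub, sub_eq_zero]
  refine Eq.trans ?_ h3.symm
  let l' : LQ F 2 →ₗ[ℚ] ℚ :=
    { toFun := fun v => l v Fin.elim0
      map_add' := fun a b => by rw [map_add]; rfl
      map_smul' := fun q a => by rw [map_smul]; rfl }
  have h4 : χ = l' := by
    apply lext
    intro y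
    have h5 : y = ![y 0, y 1] := by
      ext i; fin_cases i <;> rfl
    have h6 : l' (lq F 2 y) = toAlt χ (Fin.cons (y 0) (Fin.cons (y 1) Fin.elim0)) := by
      change l (lq F 2 y) Fin.elim0 = _
      conv_lhs => rw [h5, hl1]
    rw [h6, toAlt_apply]
    congr 2
  exact LinearMap.congr_fun h4 _

theorem δF_surj' (hs : Function.Surjective (e1e F 0)) : Function.Surjective (δF F) := by
  intro l
  obtain ⟨u, rfl⟩ := hs l
  obtain ⟨d, rfl⟩ := emb0_surj u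
  exact ⟨d, δF_e0 d⟩

theorem exists_sec (hs : Function.Surjective (e1e F 0)) :
    ∃ s : LQ F 2 →ₗ[ℚ] DQ F, ∀ l, δF F (s l) = l := by
  obtain ⟨s, h⟩ := LinearMap.exists_rightInverse_of_surjective (δF F)
    (LinearMap.range_eq_top.2 (δF_surj' hs))
  exact ⟨s, fun l => LinearMap.congr_fun h l⟩

section

variable {i : ℕ} (Θ : ZP F →ₗ[ℤ] (UV F [⋀^Fin (i + 2)]→ₗ[ℤ] ℚ))
  (hR : ∀ r ∈ R 2 F, Θ r = 0)
  (hdec : ∀ (x : F) (w : Fin (i + 1) → UV F), x ≠ 0 →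
    Θ (Finsupp.single (some x) 1) (Fin.cons (cl x) w) = 0)
  (hs : Function.Surjective (e1e F 0))

include hR hdec hs in
/-- the functionals kill the products with the kernel of `δ_2` -/
theorem kills_ker (α : DQ F) (hα : δF F α = 0) : lf Θ α = 0 := by
  have h1 : ∀ l y, E2r F i (lf Θ α) l y = 0 := by
    intro l y
    obtain ⟨β, rfl⟩ := δF_surj' hs l
    rw [pair_sym Θ hR hdec y α β, hα, map_zero]
    rfl
  ext w
  have h2 : w = Fin.cons (w 0) (Fin.cons (w 1) (Fin.tail (Fin.tail w))) := by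
    conv_lhs => rw [← Fin.cons_self_tail w, ← Fin.cons_self_tail (Fin.tail w)]
    rfl
  rw [h2, ← E2r_lq, h1]
  rfl

end

section

variable {s : LQ F 2 →ₗ[ℚ] DQ F} (hsec : ∀ l, δF F (s l) = l)

/-- `Θ(z ∧ x; ·)` -/
noncomputable def Wg {j : ℕ} (s : LQ F 2 →ₗ[ℚ] DQ F) (Θ : ZP F →ₗ[ℤ] (UV F [⋀^Fin j]→ₗ[ℤ] ℚ))
    (z x : UV F) : UV F [⋀^Fin j]→ₗ[ℤ] ℚ := lf Θ (s (lq F 2 ![z, x]))

theorem Wg_swap {j : ℕ} (Θ : ZP F →ₗ[ℤ] (UV F [⋀^Fin j]→ₗ[ℤ] ℚ)) (z x : UV F) :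
    Wg s Θ z x = - Wg s Θ x z := by
  unfold Wg
  have h : lq F 2 ![z, x] = - lq F 2 ![x, z] := by
    have h1 : exteriorPower.ιMulti ℤ 2 ![z, x] = - exteriorPower.ιMulti ℤ 2 ![x, z] :=
      wz_swap z x
    unfold lq
    rw [h1, TensorProduct.tmul_neg]
  rw [h, map_neg, map_neg]

theorem Wg_self {j : ℕ} (Θ : ZP F →ₗ[ℤ] (UV F [⋀^Fin j]→ₗ[ℤ] ℚ)) (x : UV F) :
    Wg s Θ x x = 0 := by
  unfold Wg
  rw [lq_self, map_zero, map_zero]

include hsec

theorem Wg_sym {i : ℕ} (Θ : ZP F →ₗ[ℤ] (UV F [⋀^Fin (i + 2)]→ₗ[ℤ] ℚ))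
    (hR : ∀ r ∈ R 2 F, Θ r = 0)
    (hdec : ∀ (x : F) (w : Fin (i + 1) → UV F), x ≠ 0 →
      Θ (Finsupp.single (some x) 1) (Fin.cons (cl x) w) = 0) (a b c d : UV F) (y : Fin i → UV F) :
    Wg s Θ a b (Fin.cons c (Fin.cons d y)) = Wg s Θ c d (Fin.cons a (Fin.cons b y)) := by
  have h := pair_sym Θ hR hdec y (s (lq F 2 ![a, b])) (s (lq F 2 ![c, d]))
  rw [hsec, hsec, E2r_lq, E2r_lq] at h
  exact h

theorem Wg_zero {i : ℕ} (Θ : ZP F →ₗ[ℤ] (UV F [⋀^Fin (i + 1 + 2)]→ₗ[ℤ] ℚ))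
    (hR : ∀ r ∈ R 2 F, Θ r = 0)
    (hdec : ∀ (x : F) (w : Fin (i + 1 + 1) → UV F), x ≠ 0 →
      Θ (Finsupp.single (some x) 1) (Fin.cons (cl x) w) = 0) (v t : UV F)
    (y : Fin (i + 2) → UV F) : Wg s Θ v t (Fin.cons t y) = 0 := by
  -- exchange of pairs
  have X : ∀ (a b c d e : UV F) (y : Fin i → UV F),
      Wg s Θ a b (Fin.cons c (Fin.cons d (Fin.cons e y))) =
        Wg s Θ c d (Fin.cons a (Fin.cons b (Fin.cons e y))) := fun a b c d e y =>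
    Wg_sym hsec Θ hR hdec a b c d (Fin.cons e y)
  -- transpositions
  have S1 : ∀ (a b c d e : UV F) (y : Fin i → UV F),
      Wg s Θ a b (Fin.cons c (Fin.cons d (Fin.cons e y))) =
        - Wg s Θ a b (Fin.cons d (Fin.cons c (Fin.cons e y))) := fun a b c d e y =>
    cons_swap _ c d _
  have S2 : ∀ (a b c d e : UV F) (y : Fin i → UV F),
      Wg s Θ a b (Fin.cons c (Fin.cons d (Fin.cons e y))) =
        - Wg s Θ a b (Fin.cons c (Fin.cons e (Fin.cons d y))) := fun a b c d e y =>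
    cons_swap ((Wg s Θ a b).curryLeft c) d e y
  -- cyclic permutations
  have C : ∀ (a b c d e : UV F) (y : Fin i → UV F),
      Wg s Θ a b (Fin.cons c (Fin.cons d (Fin.cons e y))) =
        Wg s Θ a b (Fin.cons d (Fin.cons e (Fin.cons c y))) := by
    intro a b c d e y
    rw [S1, S2, neg_neg]
  have K : ∀ (a b c d e : UV F) (y : Fin i → UV F),
      Wg s Θ a b (Fin.cons c (Fin.cons d (Fin.cons e y))) =
        - Wg s Θ c b (Fin.cons a (Fin.cons d (Fin.cons e y))) := by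
    intro a b c d e y
    rw [X a b c d e, C c d a b e, X c d b e a, C b e c d a, X b e d a c, ← C d a c b e,
      X d a c b e, S1 c b d a e]
  have h1 : ∀ (a b d e : UV F) (y : Fin i → UV F),
      Wg s Θ a b (Fin.cons a (Fin.cons d (Fin.cons e y))) = 0 := by
    intro a b d e y
    have h := K a b a d e y
    linarith
  have h2 : y = Fin.cons (y 0) (Fin.cons (y 1) (Fin.tail (Fin.tail y))) := by
    conv_lhs => rw [← Fin.cons_self_tail y, ← Fin.cons_self_tail (Fin.tail y)]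
    rfl
  rw [h2, Wg_swap]
  change - (Wg s Θ t v (Fin.cons t (Fin.cons (y 0) (Fin.cons (y 1) (Fin.tail (Fin.tail y)))))) = 0
  rw [h1, neg_zero]

/-- functionals which factor -/
theorem factor' {i : ℕ} (φ : TQ F 2 (i + 1) →ₗ[ℚ] ℚ)
    (c1 : ∀ h, δF F h = 0 → lf (toTheta φ) h = 0)
    (c2 : ∀ (v t : UV F) (y : Fin i → UV F), Wg s (toTheta φ) v t (Fin.cons t y) = 0) :
    ∃ ψ : LQ F (i + 1 + 2) →ₗ[ℚ] ℚ, ∀ v, φ v = ψ (e1e F (i + 1) v) := by
  let Qb : UV F →ₗ[ℤ] (UV F →ₗ[ℤ] (UV F [⋀^Fin (i + 1)]→ₗ[ℤ] ℚ)) :=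
    ((wz (UV F)).compr₂ ((((lf (toTheta φ)) ∘ₗ s).restrictScalars ℤ) ∘ₗ
      (TensorProduct.mk ℤ ℚ (⋀[ℤ]^2 (UV F)) 1))).flip
  have hQb : ∀ t v, Qb t v = Wg s (toTheta φ) v t := fun t v => rfl
  obtain ⟨Θ, hΘ⟩ := koszul_last (i + 1) Qb (by
      intro t
      rw [hQb, Wg_self]) (by
      intro i' hi t v y
      obtain rfl : i = i' := by omega
      rw [hQb]
      exact c2 v t y)
  refine ⟨ofAlt Θ, fun v => ?_⟩
  have h2 : φ = (ofAlt Θ) ∘ₗ (e1e F (i + 1)) := by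
    apply text
    intro x y
    rw [LinearMap.comp_apply]
    have h3 := c1 ((1 : ℚ) ⊗ₜ[ℤ] Finsupp.single x 1 -
      s (δF F ((1 : ℚ) ⊗ₜ[ℤ] Finsupp.single x 1))) (by rw [map_sub, hsec, sub_self])
    rw [map_sub, lf_apply, sub_eq_zero] at h3
    rw [← toTheta_apply, h3]
    rcases x with _ | x
    · rw [e1e_apply, e1ev_none, δF_none, map_zero, map_zero]
      simp
    · rw [e1e_some, ofAlt_apply, hΘ, hQb, δF_some]
      rfl
  rw [h2]
  rfl

end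

/-- **`n ≥ 5`** -/
theorem van5 (hs : Function.Surjective (e1e F 0)) (i : ℕ) (u : TQ F 2 (i + 3))
    (hu : e1e F (i + 3) u = 0) : u ∈ Submodule.span ℚ (SDec F (i + 2)) := by
  by_contra hn
  obtain ⟨φ, h1, h2⟩ := exists_dual_ne hn
  obtain ⟨s, hsec⟩ := exists_sec hs
  have hR : ∀ r ∈ R 2 F, toTheta φ r = 0 := fun r hr => toTheta_R φ r hr
  have hdec : ∀ (x : F) (w : Fin (i + 2) → UV F), x ≠ 0 →
      toTheta φ (Finsupp.single (some x) 1) (Fin.cons (cl x) w) = 0 := by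
    intro x w hx
    rw [toTheta_apply]
    exact h1 _ (Submodule.subset_span ⟨x, w, hx, rfl⟩)
  obtain ⟨ψ, hψ⟩ := factor' hsec φ (kills_ker (i := i + 1) (toTheta φ) hR hdec hs)
    (fun v t y => Wg_zero (i := i) hsec (toTheta φ) hR hdec v t y)
  apply h2
  rw [hψ, hu, map_zero]

/-- **`n ≥ 4`**: products are decomposable -/
theorem prod4 (hs : Function.Surjective (e1e F 0)) (i : ℕ) (u : TQ F 2 (i + 2))
    (hu : u ∈ Pool.Agent.V8H63.W3.SProd F (i + 2)) : u ∈ Submodule.span ℚ (SDec F (i + 1)) := by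
  by_contra hn
  obtain ⟨φ, h1, h2⟩ := exists_dual_ne hn
  apply h2
  obtain ⟨α, y, hα, rfl⟩ := hu
  have h3 := kills_ker (i := i) (toTheta φ) (fun r hr => toTheta_R φ r hr) (by
    intro x w hx
    rw [toTheta_apply]
    exact h1 _ (Submodule.subset_span ⟨x, w, hx, rfl⟩)) hs ((1 : ℚ) ⊗ₜ[ℤ] α) (by
    rw [δF_apply, hα, TensorProduct.tmul_zero])
  rw [lf_apply] at h3
  have h4 : toTheta φ α y = 0 := by rw [h3]; rfl
  exact h4

end Pool.Agent.V8H63.NF
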