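import Pool.Agent.V8H63.NF.Sy2
import Pool.Agent.V8H63.NF.Out

set_option autoImplicit false
set_option linter.unusedSectionVars false

/-!
# From `n = 3` to `n = 4`, and number fields
-/

namespace Pool.Agent.V8H63.NF

open scoped TensorProduct
open H39Gon H39Gon.TaskB H39Gon.E2 Pool.Agent.V8H63.W3

variable {F : Type} [Field F]

/-- the functional `β ⊗ y ↦ φ(β ⊗ z ∧ y)` -/
theorem exists_slice (φ : TQ F 2 2 →ₗ[ℚ] ℚ) (z : UV F) : ∃ φz : TQ F 2 1 →ₗ[ℚ] ℚ,
    ∀ (α : ZP F) (y : Fin 1 → UV F), toTheta φz α y = toTheta φ α (Fin.cons z y) := by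
  let θ : ZP F →ₗ[ℤ] (UV F [⋀^Fin 1]→ₗ[ℤ] ℚ) :=
    (AlternatingMap.curryLeftLinearMap.flip z) ∘ₗ (toTheta φ)
  have hθR : ∀ r ∈ R 2 F, θ r = 0 := by
    intro r hr
    change AlternatingMap.curryLeftLinearMap.flip z (toTheta φ r) = 0
    rw [toTheta_R φ r hr, map_zero]
  refine ⟨ofTheta θ hθR, ?_⟩
  intro α y
  have h1 : toTheta (ofTheta θ hθR) = θ := by
    apply Finsupp.lhom_ext'
    intro x
    ext
    rw [LinearMap.comp_apply, LinearMap.comp_apply, Finsupp.lsingle_apply, toTheta_apply,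
      ofTheta_apply]
  rw [h1]
  rfl

theorem van4 (hs : Function.Surjective (e1e F 0))
    (h3 : ∀ u : TQ F 2 1, e1e F 1 u = 0 →
      u ∈ Submodule.span ℚ (SDec F 0 ∪ Pool.Agent.V8H63.W3.SProd F 1))
    (u : TQ F 2 2) (hu : e1e F 2 u = 0) : u ∈ Submodule.span ℚ (SDec F 1) := by
  by_contra hn
  obtain ⟨φ, h1, h2⟩ := exists_dual_ne hn
  obtain ⟨s, hsec⟩ := exists_sec hs
  have hR : ∀ r ∈ R 2 F, toTheta φ r = 0 := fun r hr => toTheta_R φ r hr
  have hdec : ∀ (x : F) (w : Fin 1 → UV F), x ≠ 0 →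
      toTheta φ (Finsupp.single (some x) 1) (Fin.cons (cl x) w) = 0 := by
    intro x w hx
    rw [toTheta_apply]
    exact h1 _ (Submodule.subset_span ⟨x, w, hx, rfl⟩)
  have hker := kills_ker (i := 0) (toTheta φ) hR hdec hs
  have hc2 : ∀ (v t : UV F) (y : Fin 1 → UV F), Wg s (toTheta φ) v t (Fin.cons t y) = 0 := by
    intro v t y
    obtain ⟨φz, hz⟩ := exists_slice φ (y 0)
    -- `φz` kills the kernel of `e 1`
    have k1 : ∀ u, e1e F 1 u = 0 → φz u = 0 := by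
      intro u hu
      have h4 : Submodule.span ℚ (SDec F 0 ∪ Pool.Agent.V8H63.W3.SProd F 1) ≤
          LinearMap.ker φz := by
        rw [Submodule.span_le]
        rintro _ (⟨x, w, hx, rfl⟩ | ⟨α, w, hα, rfl⟩)
        · rw [SetLike.mem_coe, LinearMap.mem_ker, ← toTheta_apply, hz, cons_swap,
            hdec x _ hx, neg_zero]
        · have h5 := hker ((1 : ℚ) ⊗ₜ[ℤ] α) (by rw [δF_apply, hα, TensorProduct.tmul_zero])
          rw [lf_apply] at h5
          have h6 : toTheta φz α w = 0 := by rw [hz, h5]; rfl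
          exact h6
      exact h4 (h3 u hu)
    -- values on `Λ^2 ⊗ V`
    have k2 : ∀ (d : DQ F) (w : UV F), δF F d = lq F 2 ![v, w] →
        lf (toTheta φ) d (Fin.cons (y 0) (fun _ => w)) = 0 := by
      intro d w hd
      have h4 : lf (toTheta φ) d (Fin.cons (y 0) (fun _ : Fin 1 => w)) = φz (emb (fun _ => w) d) := by
        rw [← toTheta_emb]
        have h5 : (evA (Fin.cons (y 0) (fun _ : Fin 1 => w) : Fin 2 → UV F)) ∘ₗ
            (lf (toTheta φ)) = (evA (fun _ : Fin 1 => w)) ∘ₗ (lf (toTheta φz)) := by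
          apply dq_ext
          intro x
          rw [LinearMap.comp_apply, LinearMap.comp_apply, lf_apply, lf_apply]
          exact (hz _ _).symm
        exact LinearMap.congr_fun h5 d
      rw [h4]
      apply k1
      by_contra hn'
      have h6 : e1e F 1 (emb (fun _ : Fin 1 => w) d) ∉ (⊥ : Submodule ℚ (LQ F (1 + 2))) := by
        rw [Submodule.mem_bot]
        exact hn'
      obtain ⟨χ, -, h7⟩ := exists_dual_ne h6
      apply h7
      obtain ⟨l, hl1, hl2⟩ := chi_e χ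
      rw [hl2, hd, hl1]
      exact (toAlt χ).map_eq_zero_of_eq _ (i := 1) (j := 2) rfl (by simp [Fin.ext_iff])
    have h8 : (Fin.cons t y : Fin 2 → UV F) = Fin.cons t (Fin.cons (y 0) (Fin.elim0 : Fin 0 → UV F)) := by
      funext k
      fin_cases k <;> rfl
    have h9 : (Fin.cons (y 0) (Fin.cons t (Fin.elim0 : Fin 0 → UV F)) : Fin 2 → UV F) =
        Fin.cons (y 0) (fun _ => t) := by
      funext k
      fin_cases k <;> rfl
    rw [h8, cons_swap, h9]
    unfold Wg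
    rw [k2 _ t (hsec _), neg_zero]
  obtain ⟨ψ, hψ⟩ := factor' hsec φ hker hc2
  apply h2
  rw [hψ, hu, map_zero]

/-! ### the definitions of `GonP` -/

section out

open GonP

theorem outV5 (hs : Function.Surjective (eG F 0)) (j : ℕ) (u : GonP.TQ F 2 (j + 3)) :
    eG F (j + 3) u = 0 ↔ u ∈ Submodule.span ℚ (ImageB3 F (j + 2)) := by
  rw [mem_span_iff (j + 3), image_B3, eG_zero_iff]
  exact ⟨van5 (hs_of hs) j _, fun h => ker_span (SDec_ker (j + 2)) h⟩

theorem outP4 (hs : Function.Surjective (eG F 0)) (j : ℕ) :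
    ProdH1 F (j + 2) ⊆ Submodule.span ℚ (ImageB3 F (j + 1)) := by
  intro u hu
  have h1 : u ∈ Submodule.span ℚ (ImageB3 F (j + 1)) := by
    rw [mem_span_iff (j + 2), image_B3]
    refine prod4 (hs_of hs) j _ ?_
    rw [← image_H1]
    exact ⟨u, hu, rfl⟩
  exact h1

theorem outV4 (hs : Function.Surjective (eG F 0))
    (h3 : ∀ u : GonP.TQ F 2 1, eG F 1 u = 0 → u ∈ Submodule.span ℚ (ImageB3 F 0 ∪ ProdH1 F 1))
    (u : GonP.TQ F 2 2) : eG F 2 u = 0 ↔ u ∈ Submodule.span ℚ (ImageB3 F 1) := by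
  rw [mem_span_iff 2, image_B3, eG_zero_iff]
  refine ⟨van4 (hs_of hs) ?_ _, fun h => ker_span (SDec_ker 1) h⟩
  intro w hw
  have h4 := h3 ((eT F 0 1).symm w) (by rw [eG_zero_iff]; simpa using hw)
  rw [mem_span_iff 1, Set.image_union, image_B3, image_H1] at h4
  simpa using h4

variable [NumberField F]

/-- number fields, `n = 4` -/
theorem outF4 (hs : Function.Surjective (eG F 0)) : ∃ S : Set (GonP.TQ F 2 2), S.Finite ∧
    ∀ u, eG F 2 u = 0 ↔ u ∈ Submodule.span ℚ (ImageB3 F 1 ∪ S) := by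
  obtain ⟨j₀, h⟩ := out_prod hs
  obtain ⟨S, hS, -, hu⟩ := h 1
  refine ⟨S, hS, fun u => ?_⟩
  rw [hu]
  constructor
  · intro h1
    have h2 : Submodule.span ℚ (ImageB3 F 1 ∪ ProdH1 F (1 + 1) ∪ S) ≤
        Submodule.span ℚ (ImageB3 F 1 ∪ S) := by
      rw [Submodule.span_le]
      rintro v ((hv | hv) | hv)
      · exact Submodule.subset_span (Or.inl hv)
      · exact Submodule.span_mono Set.subset_union_left (outP4 hs 0 hv)
      · exact Submodule.subset_span (Or.inr hv)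
    exact h2 h1
  · intro h1
    refine Submodule.span_mono ?_ h1
    rintro v (hv | hv)
    · exact Or.inl (Or.inl hv)
    · exact Or.inr hv

/-- number fields, `n = 3` -/
theorem outF3 (hs : Function.Surjective (eG F 0)) : ∃ S : Set (GonP.TQ F 2 1), S.Finite ∧
    ∀ u, eG F 1 u = 0 ↔ u ∈ Submodule.span ℚ (ImageB3 F 0 ∪ ProdH1 F 1 ∪ S) := by
  obtain ⟨j₀, h⟩ := out_prod hs
  obtain ⟨S, hS, -, hu⟩ := h 0
  exact ⟨S, hS, hu⟩

theorem outF3' (hs : Function.Surjective (eG F 0))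
    (h3 : ∃ S : Set (GonP.TQ F 2 0), S.Finite ∧ ∀ u, eG F 0 u = 0 → u ∈ Submodule.span ℚ S) :
    ∃ S : Set (GonP.TQ F 2 1), S.Finite ∧
      ∀ u, eG F 1 u = 0 ↔ u ∈ Submodule.span ℚ (ImageB3 F 0 ∪ S) := by
  obtain ⟨j₀, h⟩ := out_str hs h3
  obtain ⟨S, hS, -, hu⟩ := h 0
  exact ⟨S, hS, hu⟩

end out

end Pool.Agent.V8H63.NF
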