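import Mathlib.LinearAlgebra.Alternating.Uncurry.Fin
import Pool.Agent.V8H63.NF.Sy3

set_option autoImplicit false
set_option linter.unusedSectionVars false

/-!
# Fields for which `K_2(F) ⊗ ℚ` is generated by the symbols `{x, y}`, `x` in a finite set
-/

namespace Pool.Agent.V8H63.NF

open scoped TensorProduct
open H39Gon H39Gon.TaskB H39Gon.E2 Pool.Agent.V8H63.W3

variable {F : Type} [Field F]

/-- the symbols with first entry in `Z` -/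
def NZ (Z : Set (UV F)) : Submodule ℚ (LQ F 2) :=
  Submodule.span ℚ {l | ∃ z ∈ Z, ∃ v : UV F, l = lq F 2 ![z, v]}

/-- `K_2(F) ⊗ ℚ` is generated by the symbols with first entry in `Z` -/
def KGen (Z : Set (UV F)) : Prop := ∀ l : LQ F 2, ∃ d : DQ F, l - δF F d ∈ NZ Z

theorem cons3 {j : ℕ} (f : UV F [⋀^Fin (j + 3)]→ₗ[ℤ] ℚ) (a b z : UV F) (w : Fin j → UV F) :
    f (Fin.cons a (Fin.cons b (Fin.cons z w))) = f (Fin.cons z (Fin.cons a (Fin.cons b w))) := by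
  have h1 : f (Fin.cons a (Fin.cons b (Fin.cons z w))) =
      - f (Fin.cons a (Fin.cons z (Fin.cons b w))) := cons_swap (f.curryLeft a) b z w
  rw [h1, cons_swap, neg_neg]

theorem cons2 {j : ℕ} (y : Fin (j + 2) → UV F) :
    y = Fin.cons (y 0) (Fin.cons (y 1) (Fin.tail (Fin.tail y))) := by
  conv_lhs => rw [← Fin.cons_self_tail y, ← Fin.cons_self_tail (Fin.tail y)]
  rfl

theorem E2r_NZ {i : ℕ} {Z : Set (UV F)} (f : UV F [⋀^Fin (i + 2)]→ₗ[ℤ] ℚ)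
    (hf : ∀ z ∈ Z, ∀ w : Fin (i + 1) → UV F, f (Fin.cons z w) = 0) (l : LQ F 2) (hl : l ∈ NZ Z) :
    E2r F i f l = 0 := by
  have h : NZ Z ≤ LinearMap.ker (E2r F i f) := by
    unfold NZ
    rw [Submodule.span_le]
    rintro _ ⟨z, hz, v, rfl⟩
    rw [SetLike.mem_coe, LinearMap.mem_ker]
    ext y
    rw [E2r_lq, hf z hz]
    rfl
  exact h hl

/-- the functional vanishes if the first argument is in `Z` -/
def VanZ {j : ℕ} (Z : Set (UV F)) (Θ : ZP F →ₗ[ℤ] (UV F [⋀^Fin (j + 1)]→ₗ[ℤ] ℚ)) : Prop :=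
  ∀ z ∈ Z, ∀ (α : ZP F) (w : Fin j → UV F), Θ α (Fin.cons z w) = 0

theorem VanZ.lf {j : ℕ} {Z : Set (UV F)} {Θ : ZP F →ₗ[ℤ] (UV F [⋀^Fin (j + 1)]→ₗ[ℤ] ℚ)}
    (h : VanZ Z Θ) (d : DQ F) (z : UV F) (hz : z ∈ Z) (w : Fin j → UV F) :
    W3.lf Θ d (Fin.cons z w) = 0 := by
  have h1 : (evA (Fin.cons z w : Fin (j + 1) → UV F)) ∘ₗ (W3.lf Θ) = 0 := by
    apply dq_ext
    intro x
    rw [LinearMap.comp_apply, lf_apply]
    exact h z hz _ w
  exact LinearMap.congr_fun h1 d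

theorem exists_secZ {Z : Set (UV F)} (hK : KGen Z) :
    ∃ s : LQ F 2 →ₗ[ℚ] DQ F, ∀ l, l - δF F (s l) ∈ NZ Z := by
  have hsurj : Function.Surjective ((NZ Z).mkQ ∘ₗ δF F) := by
    intro q
    obtain ⟨l, rfl⟩ := Submodule.mkQ_surjective _ q
    obtain ⟨d, hd⟩ := hK l
    refine ⟨d, ?_⟩
    rw [LinearMap.comp_apply, ← sub_eq_zero, ← map_sub, Submodule.mkQ_apply,
      Submodule.Quotient.mk_eq_zero, ← neg_sub]
    exact Submodule.neg_mem _ hd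
  obtain ⟨σ, hσ⟩ := LinearMap.exists_rightInverse_of_surjective ((NZ Z).mkQ ∘ₗ δF F)
    (LinearMap.range_eq_top.2 hsurj)
  refine ⟨σ ∘ₗ (NZ Z).mkQ, fun l => ?_⟩
  have h := LinearMap.congr_fun hσ ((NZ Z).mkQ l)
  rw [LinearMap.comp_apply, LinearMap.comp_apply, LinearMap.id_apply, ← sub_eq_zero, ← map_sub,
    Submodule.mkQ_apply, Submodule.Quotient.mk_eq_zero] at h
  rw [LinearMap.comp_apply, ← neg_sub]
  exact Submodule.neg_mem _ h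

section base

variable {Z : Set (UV F)} (hK : KGen Z)

include hK in
theorem kills_kerZ {i : ℕ} (Θ : ZP F →ₗ[ℤ] (UV F [⋀^Fin (i + 2)]→ₗ[ℤ] ℚ))
    (hR : ∀ r ∈ R 2 F, Θ r = 0)
    (hdec : ∀ (x : F) (w : Fin (i + 1) → UV F), x ≠ 0 →
      Θ (Finsupp.single (some x) 1) (Fin.cons (cl x) w) = 0) (hv : VanZ Z Θ) (α : DQ F)
    (hα : δF F α ∈ NZ Z) : lf Θ α = 0 := by
  have h1 : ∀ l y, E2r F i (lf Θ α) l y = 0 := by
    intro l y
    obtain ⟨β, hβ⟩ := hK l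
    have h2 := E2r_NZ (lf Θ α) (fun z hz w => hv.lf α z hz w) _ hβ
    rw [map_sub, sub_eq_zero] at h2
    rw [h2, pair_sym Θ hR hdec y α β, E2r_NZ (lf Θ β) (fun z hz w => hv.lf β z hz w) _ hα]
    rfl
  ext w
  rw [cons2 w, ← E2r_lq, h1]
  rfl

variable {s : LQ F 2 →ₗ[ℚ] DQ F} (hsec : ∀ l, l - δF F (s l) ∈ NZ Z)

include hsec in
theorem Wg_symZ {i : ℕ} (Θ : ZP F →ₗ[ℤ] (UV F [⋀^Fin (i + 2)]→ₗ[ℤ] ℚ))
    (hR : ∀ r ∈ R 2 F, Θ r = 0)
    (hdec : ∀ (x : F) (w : Fin (i + 1) → UV F), x ≠ 0 →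
      Θ (Finsupp.single (some x) 1) (Fin.cons (cl x) w) = 0) (hv : VanZ Z Θ) (a b c d : UV F)
    (y : Fin i → UV F) :
    Wg s Θ a b (Fin.cons c (Fin.cons d y)) = Wg s Θ c d (Fin.cons a (Fin.cons b y)) := by
  have h := pair_sym Θ hR hdec y (s (lq F 2 ![a, b])) (s (lq F 2 ![c, d]))
  have h1 : ∀ (l : LQ F 2) (α : DQ F), E2r F i (lf Θ α) (δF F (s l)) = E2r F i (lf Θ α) l := by
    intro l α
    have h2 := E2r_NZ (lf Θ α) (fun z hz w => hv.lf α z hz w) _ (hsec l)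
    rw [map_sub, sub_eq_zero] at h2
    exact h2.symm
  rw [h1, h1, E2r_lq, E2r_lq] at h
  exact h

include hsec in
theorem Wg_zeroZ {i : ℕ} (Θ : ZP F →ₗ[ℤ] (UV F [⋀^Fin (i + 1 + 2)]→ₗ[ℤ] ℚ))
    (hR : ∀ r ∈ R 2 F, Θ r = 0)
    (hdec : ∀ (x : F) (w : Fin (i + 1 + 1) → UV F), x ≠ 0 →
      Θ (Finsupp.single (some x) 1) (Fin.cons (cl x) w) = 0) (hv : VanZ Z Θ) (v t : UV F)
    (y : Fin (i + 2) → UV F) : Wg s Θ v t (Fin.cons t y) = 0 := by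
  have X : ∀ (a b c d e : UV F) (y : Fin i → UV F),
      Wg s Θ a b (Fin.cons c (Fin.cons d (Fin.cons e y))) =
        Wg s Θ c d (Fin.cons a (Fin.cons b (Fin.cons e y))) := fun a b c d e y =>
    Wg_symZ hsec Θ hR hdec hv a b c d (Fin.cons e y)
  have S1 : ∀ (a b c d e : UV F) (y : Fin i → UV F),
      Wg s Θ a b (Fin.cons c (Fin.cons d (Fin.cons e y))) =
        - Wg s Θ a b (Fin.cons d (Fin.cons c (Fin.cons e y))) := fun a b c d e y =>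
    cons_swap _ c d _
  have S2 : ∀ (a b c d e : UV F) (y : Fin i → UV F),
      Wg s Θ a b (Fin.cons c (Fin.cons d (Fin.cons e y))) =
        - Wg s Θ a b (Fin.cons c (Fin.cons e (Fin.cons d y))) := fun a b c d e y =>
    cons_swap ((Wg s Θ a b).curryLeft c) d e y
  have C : ∀ (a b c d e : UV F) (y : Fin i → UV F),
      Wg s Θ a b (Fin.cons c (Fin.cons d (Fin.cons e y))) =
        Wg s Θ a b (Fin.cons d (Fin.cons e (Fin.cons c y))) := by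
    intro a b c d e y
    rw [S1, S2, neg_neg]
  have K : ∀ (a b c d e : UV F) (y : Fin i → UV F),
      Wg s Θ a b (Fin.cons c (Fin.cons d (Fin.cons e y))) =
        - Wg s Θ c b (Fin.cons a (Fin.cons d (Fin.cons e y))) := by
    intro a b c d e y
    rw [X a b c d e, C c d a b e, X c d b e a, C b e c d a, X b e d a c, ← C d a c b e,
      X d a c b e, S1 c b d a e]
  have h1 : ∀ (a b d e : UV F) (y : Fin i → UV F),
      Wg s Θ a b (Fin.cons a (Fin.cons d (Fin.cons e y))) = 0 := by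
    intro a b d e y
    have h := K a b a d e y
    linarith
  rw [cons2 y, Wg_swap]
  change - (Wg s Θ t v (Fin.cons t (Fin.cons (y 0) (Fin.cons (y 1) (Fin.tail (Fin.tail y)))))) = 0
  rw [h1, neg_zero]

include hK in
/-- the base case -/
theorem baseZ {i : ℕ} (Θ : ZP F →ₗ[ℤ] (UV F [⋀^Fin (i + 1 + 2)]→ₗ[ℤ] ℚ))
    (hR : ∀ r ∈ R 2 F, Θ r = 0)
    (hdec : ∀ (x : F) (w : Fin (i + 1 + 1) → UV F), x ≠ 0 →
      Θ (Finsupp.single (some x) 1) (Fin.cons (cl x) w) = 0) (hv : VanZ Z Θ) :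
    ∃ Ψ : UV F [⋀^Fin (i + 1 + 2 + 2)]→ₗ[ℤ] ℚ, (∀ d, lf Θ d = E2r F (i + 1 + 2) Ψ (δF F d)) ∧
      ∀ z ∈ Z, ∀ w, Ψ (Fin.cons z w) = 0 := by
  obtain ⟨s, hsec⟩ := exists_secZ hK
  let Qb : UV F →ₗ[ℤ] (UV F →ₗ[ℤ] (UV F [⋀^Fin (i + 1 + 2)]→ₗ[ℤ] ℚ)) :=
    ((wz (UV F)).compr₂ ((((lf Θ) ∘ₗ s).restrictScalars ℤ) ∘ₗ
      (TensorProduct.mk ℤ ℚ (⋀[ℤ]^2 (UV F)) 1))).flip
  have hQb : ∀ t v, Qb t v = Wg s Θ v t := fun t v => rfl
  obtain ⟨Ψ, hΨ⟩ := koszul_last (i + 1 + 2) Qb (by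
      intro t
      rw [hQb, Wg_self]) (by
      intro i' hi t v y
      obtain rfl : i + 2 = i' := by omega
      rw [hQb]
      exact Wg_zeroZ hsec Θ hR hdec hv v t y)
  have h1 : E2r F (i + 1 + 2) Ψ = (lf Θ) ∘ₗ s := by
    apply lext
    intro y
    have h5 : y = ![y 0, y 1] := by
      ext k; fin_cases k <;> rfl
    rw [h5]
    ext w
    rw [E2r_lq, hΨ, hQb]
    rfl
  refine ⟨Ψ, fun d => ?_, fun z hz w => ?_⟩
  · rw [h1, LinearMap.comp_apply]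
    have h2 := kills_kerZ hK Θ hR hdec hv (d - s (δF F d)) (by
      rw [map_sub]
      exact hsec _)
    rw [map_sub, sub_eq_zero] at h2
    exact h2
  · have h3 : w = Fin.cons (w 0) (Fin.tail w) := (Fin.cons_self_tail w).symm
    have h4 := kills_kerZ hK Θ hR hdec hv (s (lq F 2 ![z, w 0])) (by
      have h5 : lq F 2 ![z, w 0] ∈ NZ Z := Submodule.subset_span ⟨z, hz, w 0, rfl⟩
      have h6 := Submodule.sub_mem _ h5 (hsec (lq F 2 ![z, w 0]))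
      rwa [sub_sub_cancel] at h6)
    have h7 : Wg s Θ z (w 0) = 0 := h4
    rw [h3, hΨ, hQb, h7]
    rfl

end base

end Pool.Agent.V8H63.NF
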