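import Pool.Agent.V8H63.NF.Sy4

set_option autoImplicit false
set_option linter.unusedSectionVars false

/-!
# Fields for which `K_2(F) ⊗ ℚ` is generated by the symbols `{x, y}`, `x` in a finite set:
the induction
-/

namespace Pool.Agent.V8H63.NF

open scoped TensorProduct
open H39Gon H39Gon.TaskB H39Gon.E2 Pool.Agent.V8H63.W3

/-- extension of an alternating form along a vector -/
theorem exists_wedge {V : Type} [AddCommGroup V] {n : ℕ} (f : V [⋀^Fin (n + 1)]→ₗ[ℤ] ℚ)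
    (ξ : V →ₗ[ℤ] ℚ) (u : V) (Z : Set V) (hξ : ∀ z ∈ Z, ξ z = 0) (hu : ξ u ≠ 0)
    (hf : ∀ z ∈ insert u Z, ∀ w : Fin n → V, f (Fin.cons z w) = 0) :
    ∃ g : V [⋀^Fin (n + 1 + 1)]→ₗ[ℤ] ℚ, (∀ w, g (Fin.cons u w) = f w) ∧
      ∀ z ∈ Z, ∀ w, g (Fin.cons z w) = 0 := by
  let h : V →ₗ[ℤ] (V [⋀^Fin (n + 1)]→ₗ[ℤ] ℚ) := AddMonoidHom.toIntLinearMap
    { toFun := fun v => ξ v • f
      map_zero' := by rw [map_zero, zero_smul]
      map_add' := fun a b => by rw [map_add, add_smul] }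
  have hh : ∀ v w, h v w = ξ v * f w := fun v w => rfl
  have key : ∀ z ∈ insert u Z, ∀ w : Fin (n + 1) → V,
      AlternatingMap.alternatizeUncurryFin h (Fin.cons z w) = ξ z * f w := by
    intro z hz w
    rw [AlternatingMap.alternatizeUncurryFin_apply, Fin.sum_univ_succ]
    have h1 : ∀ k : Fin (n + 1), (Fin.succ k).removeNth (Fin.cons z w : Fin (n + 1 + 1) → V) =
        (Fin.cons z (k.removeNth w) : Fin (n + 1) → V) := by
      intro k
      funext i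
      refine Fin.cases ?_ (fun i => ?_) i
      · simp [Fin.removeNth]
      · simp [Fin.removeNth]
    rw [Finset.sum_eq_zero, add_zero]
    · simp only [Fin.val_zero, pow_zero, one_smul, Fin.cons_zero, hh]
      congr 2
    · intro k _
      rw [h1, hh, hf z hz, mul_zero, smul_zero]
  refine ⟨(ξ u)⁻¹ • AlternatingMap.alternatizeUncurryFin h, fun w => ?_, fun z hz w => ?_⟩
  · rw [AlternatingMap.smul_apply, key u (Set.mem_insert _ _), smul_eq_mul, ← mul_assoc,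
      inv_mul_cancel₀ hu, one_mul]
  · rw [AlternatingMap.smul_apply, key z (Set.mem_insert_of_mem _ hz), hξ z hz, zero_mul,
      smul_zero]

variable {F : Type} [Field F]

theorem δF_R {r : ZP F} (hr : r ∈ R 2 F) : δF F ((1 : ℚ) ⊗ₜ[ℤ] r) = 0 := by
  rw [δF_e0, emb_apply]
  have h : (R 2 F).mkQ r = 0 := by
    rw [Submodule.mkQ_apply, Submodule.Quotient.mk_eq_zero]
    exact hr
  rw [h, TensorProduct.zero_tmul, TensorProduct.tmul_zero, map_zero]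

theorem KGen.mono {Z Z' : Set (UV F)} (h : Z ⊆ Z') (hK : KGen Z) : KGen Z' := by
  intro l
  obtain ⟨d, hd⟩ := hK l
  refine ⟨d, ?_⟩
  refine Submodule.span_mono ?_ hd
  rintro _ ⟨z, hz, v, rfl⟩
  exact ⟨z, h hz, v, rfl⟩

/-- the functional `α ↦ E2r Ψ (δ α)` -/
noncomputable def ThΨ {j : ℕ} (Ψ : UV F [⋀^Fin (j + 2)]→ₗ[ℤ] ℚ) :
    ZP F →ₗ[ℤ] (UV F [⋀^Fin j]→ₗ[ℤ] ℚ) :=
  AddMonoidHom.toIntLinearMap
    { toFun := fun α => E2r F j Ψ (δF F ((1 : ℚ) ⊗ₜ[ℤ] α))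
      map_zero' := by rw [TensorProduct.tmul_zero, map_zero, map_zero]
      map_add' := fun a b => by rw [TensorProduct.tmul_add, map_add, map_add] }

theorem ThΨ_apply {j : ℕ} (Ψ : UV F [⋀^Fin (j + 2)]→ₗ[ℤ] ℚ) (α : ZP F) :
    ThΨ Ψ α = E2r F j Ψ (δF F ((1 : ℚ) ⊗ₜ[ℤ] α)) := rfl

theorem ThΨ_lf {j : ℕ} (Ψ : UV F [⋀^Fin (j + 2)]→ₗ[ℤ] ℚ) (d : DQ F) :
    lf (ThΨ Ψ) d = E2r F j Ψ (δF F d) := by
  have h : lf (ThΨ Ψ) = (E2r F j Ψ) ∘ₗ (δF F) := by
    apply dq_ext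
    intro x
    rw [lf_apply]
    rfl
  rw [h]
  rfl

theorem ThΨ_R {j : ℕ} (Ψ : UV F [⋀^Fin (j + 2)]→ₗ[ℤ] ℚ) : ∀ r ∈ R 2 F, ThΨ Ψ r = 0 := by
  intro r hr
  rw [ThΨ_apply, δF_R hr, map_zero]

theorem ThΨ_dec {j : ℕ} (Ψ : UV F [⋀^Fin (j + 1 + 2)]→ₗ[ℤ] ℚ) (x : F) (w : Fin j → UV F) :
    ThΨ Ψ (Finsupp.single (some x) 1) (Fin.cons (cl x) w) = 0 := by
  rw [ThΨ_apply, δF_some, E2r_lq]
  exact (Ψ.curryLeft (cl (1 - x))).map_eq_zero_of_eq _ (i := 0) (j := 1) rfl (by simp)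

/-- `E2r` and contraction -/
theorem E2r_cons {j : ℕ} (Ψ : UV F [⋀^Fin (j + 1 + 2)]→ₗ[ℤ] ℚ)
    (Ψ₁ : UV F [⋀^Fin (j + 2)]→ₗ[ℤ] ℚ) (u : UV F) (h : ∀ w, Ψ (Fin.cons u w) = Ψ₁ w)
    (l : LQ F 2) (w : Fin j → UV F) : E2r F (j + 1) Ψ l (Fin.cons u w) = E2r F j Ψ₁ l w := by
  have key : (evA (Fin.cons u w : Fin (j + 1) → UV F)) ∘ₗ (E2r F (j + 1) Ψ) =
      (evA w) ∘ₗ (E2r F j Ψ₁) := by
    apply lext
    intro y
    have h5 : y = ![y 0, y 1] := by
      ext k; fin_cases k <;> rfl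
    rw [h5, LinearMap.comp_apply, LinearMap.comp_apply]
    change E2r F (j + 1) Ψ (lq F 2 ![y 0, y 1]) (Fin.cons u w) =
      E2r F j Ψ₁ (lq F 2 ![y 0, y 1]) w
    rw [E2r_lq, E2r_lq]
    exact (cons3 Ψ (y 0) (y 1) u w).trans (h _)
  exact LinearMap.congr_fun key l

/-- the inductive step -/
theorem indZ (L : List (UV F)) : ∀ (Z : Set (UV F)), KGen (Z ∪ {x | x ∈ L}) → ∀ (i : ℕ),
    L.length ≤ i → ∀ (Θ : ZP F →ₗ[ℤ] (UV F [⋀^Fin (i + 1 + 2)]→ₗ[ℤ] ℚ)),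
    (∀ r ∈ R 2 F, Θ r = 0) → (∀ (x : F) (w : Fin (i + 1 + 1) → UV F), x ≠ 0 →
      Θ (Finsupp.single (some x) 1) (Fin.cons (cl x) w) = 0) → VanZ Z Θ →
    ∃ Ψ : UV F [⋀^Fin (i + 1 + 2 + 2)]→ₗ[ℤ] ℚ, (∀ d, lf Θ d = E2r F (i + 1 + 2) Ψ (δF F d)) ∧
      ∀ z ∈ Z, ∀ w, Ψ (Fin.cons z w) = 0 := by
  induction L with
  | nil =>
    intro Z hK i _ Θ hR hdec hv
    refine baseZ (hK.mono ?_) Θ hR hdec hv
    rintro x (hx | hx)
    · exact hx
    · simp at hx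
  | cons u L ih =>
    intro Z hK i hi Θ hR hdec hv
    have hK' : KGen (insert u Z ∪ {x | x ∈ L}) := by
      refine hK.mono ?_
      rintro x (hx | hx)
      · exact Or.inl (Set.mem_insert_of_mem _ hx)
      · rcases List.mem_cons.1 hx with rfl | hx
        · exact Or.inl (Set.mem_insert _ _)
        · exact Or.inr hx
    rw [List.length_cons] at hi
    by_cases hξ : ∃ ξ : UV F →ₗ[ℤ] ℚ, (∀ z ∈ Z, ξ z = 0) ∧ ξ u ≠ 0
    · obtain ⟨ξ, hξ1, hξ2⟩ := hξ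
      obtain ⟨i, rfl⟩ : ∃ k, i = k + 1 := ⟨i - 1, by omega⟩
      have hi' : L.length ≤ i := by omega
      -- the slice
      let Θu : ZP F →ₗ[ℤ] (UV F [⋀^Fin (i + 1 + 2)]→ₗ[ℤ] ℚ) :=
        (AlternatingMap.curryLeftLinearMap.flip u) ∘ₗ Θ
      have hΘu : ∀ α w, Θu α w = Θ α (Fin.cons u w) := fun α w => rfl
      have hsw : ∀ (α : ZP F) (a : UV F) (w : Fin (i + 1 + 1) → UV F), Θu α (Fin.cons a w) =
          - Θ α (Fin.cons a (Fin.cons u w)) := fun α a w => cons_swap (Θ α) u a w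
      obtain ⟨Ψ₁, h1, h2⟩ := ih (insert u Z) hK' i hi' Θu (by
          intro r hr
          ext w
          rw [hΘu, hR r hr]
          rfl) (by
          intro x w hx
          rw [hsw, hdec x _ hx, neg_zero]) (by
          rintro z (rfl | hz) α w
          · rw [hΘu]
            exact (Θ α).map_eq_zero_of_eq _ (i := 0) (j := 1) rfl (by simp)
          · rw [hsw, hv z hz, neg_zero])
      obtain ⟨Ψ₂, h3, h4⟩ := exists_wedge Ψ₁ ξ u Z hξ1 hξ2 h2
      obtain ⟨Ψ', h5, h6⟩ := ih (insert u Z) hK' (i + 1) (by omega) (Θ - ThΨ Ψ₂) (by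
          intro r hr
          rw [LinearMap.sub_apply, hR r hr, ThΨ_R Ψ₂ r hr, sub_zero]) (by
          intro x w hx
          rw [LinearMap.sub_apply, AlternatingMap.sub_apply, hdec x w hx, ThΨ_dec Ψ₂ x w,
            sub_zero]) (by
          rintro z (rfl | hz) α w
          · rw [LinearMap.sub_apply, AlternatingMap.sub_apply, ThΨ_apply,
              E2r_cons Ψ₂ Ψ₁ z h3, ← h1, lf_apply, hΘu, sub_self]
          · rw [LinearMap.sub_apply, AlternatingMap.sub_apply, ThΨ_apply,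
              E2r_cons Ψ₂ 0 z (fun w => h4 z hz w), hv z hz, map_zero]
            simp)
      refine ⟨Ψ₂ + Ψ', fun d => ?_, fun z hz w => ?_⟩
      · rw [map_add, LinearMap.add_apply, ← h5, ← ThΨ_lf, map_sub, LinearMap.sub_apply]
        simp
      · rw [AlternatingMap.add_apply, h4 z hz, h6 z (Set.mem_insert_of_mem _ hz), add_zero]
    · push Not at hξ
      have hv' : VanZ (insert u Z) Θ := by
        rintro z (rfl | hz) α w
        · let ξ : UV F →ₗ[ℤ] ℚ := AddMonoidHom.toIntLinearMap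
            { toFun := fun v => Θ α (Fin.cons v w)
              map_zero' := by
                have h := ((Θ α).curryLeft).map_zero
                exact congrArg (fun g : UV F [⋀^Fin (i + 1 + 1)]→ₗ[ℤ] ℚ => g w) h
              map_add' := fun a b => by
                have h := ((Θ α).curryLeft).map_add a b
                exact congrArg (fun g : UV F [⋀^Fin (i + 1 + 1)]→ₗ[ℤ] ℚ => g w) h }
          exact hξ ξ (fun z hz => hv z hz α w)
        · exact hv z hz α w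
      obtain ⟨Ψ, h1, h2⟩ := ih (insert u Z) hK' i (by omega) Θ hR hdec hv'
      exact ⟨Ψ, h1, fun z hz w => h2 z (Set.mem_insert_of_mem _ hz) w⟩

/-- **the vanishing theorem** -/
theorem vanU (L : List (UV F)) (hK : KGen {x | x ∈ L}) (i : ℕ) (hi : L.length ≤ i)
    (u : TQ F 2 (i + 3)) (hu : e1e F (i + 3) u = 0) : u ∈ Submodule.span ℚ (SDec F (i + 2)) := by
  by_contra hn
  obtain ⟨φ, h1, h2⟩ := exists_dual_ne hn
  have hR : ∀ r ∈ R 2 F, toTheta φ r = 0 := fun r hr => toTheta_R φ r hr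
  have hdec : ∀ (x : F) (w : Fin (i + 2) → UV F), x ≠ 0 →
      toTheta φ (Finsupp.single (some x) 1) (Fin.cons (cl x) w) = 0 := by
    intro x w hx
    rw [toTheta_apply]
    exact h1 _ (Submodule.subset_span ⟨x, w, hx, rfl⟩)
  obtain ⟨Ψ, hΨ, -⟩ := indZ L ∅ (by simpa using hK) i hi (toTheta φ) hR hdec
    (fun z hz => absurd hz (Set.notMem_empty z))
  apply h2
  have h3 : φ = (ofAlt Ψ) ∘ₗ (e1e F (i + 3)) := by
    apply text
    intro x y
    rw [LinearMap.comp_apply]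
    have h4 := hΨ ((1 : ℚ) ⊗ₜ[ℤ] Finsupp.single x 1)
    rw [lf_apply] at h4
    rw [← toTheta_apply, h4]
    rcases x with _ | x
    · rw [e1e_apply, e1ev_none, δF_none, map_zero]
      simp
    · rw [e1e_some, ofAlt_apply, δF_some, E2r_lq]
  rw [h3, LinearMap.comp_apply, hu, map_zero]

end Pool.Agent.V8H63.NF
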