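import Pool.Agent.V8H63.NF.Mk

set_option autoImplicit false
set_option linter.unusedSectionVars false

/-!
# Induction over the primes ordered by their norm, finite generation
-/

namespace Pool.Agent.V8H63.NF

open NumberField Pool.Agent.V8H63.W3

variable {F : Type} [Field F] [NumberField F]

theorem Pr_finite (N : ℕ) : (Pr F N).Finite :=
  (Ideal.finite_setOfPred_absNorm_le N).subset fun _ hI => hI.2.2.le

theorem Pr_mono {N N' : ℕ} (h : N ≤ N') : Pr F N ⊆ Pr F N' :=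
  fun _ hI => ⟨hI.1, hI.2.1, hI.2.2.trans_le h⟩

/-- induction over the primes ordered by their norm -/
theorem tower (Z : Set (Ideal (𝓞 F)) → Prop) (N₁ : ℕ) (h0 : Z (Pr F N₁))
    (hstep : ∀ P : Ideal (𝓞 F), P.IsPrime → P ≠ ⊥ → N₁ ≤ Ideal.absNorm P →
      ∀ s, Pr F (Ideal.absNorm P) ⊆ s → s ⊆ Pr F (Ideal.absNorm P + 1) → P ∉ s → Z s →
        Z (insert P s)) (N : ℕ) (hN : N₁ ≤ N) :
    ∀ s, Pr F N ⊆ s → s ⊆ Pr F (N + 1) → Z s := by
  have main : ∀ N, N₁ ≤ N → Z (Pr F N) → ∀ s, Pr F N ⊆ s → s ⊆ Pr F (N + 1) → Z s := by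
    intro N hN hZ s hs hs'
    have key : ∀ t : Set (Ideal (𝓞 F)), t.Finite → t ⊆ Pr F (N + 1) → Z (Pr F N ∪ t) := by
      intro t ht
      induction t, ht using Set.Finite.induction_on with
      | empty => intro _; rwa [Set.union_empty]
      | @insert P t hPt ht ih =>
        intro hsub
        have h1 := ih ((Set.subset_insert _ _).trans hsub)
        rw [Set.union_insert]
        by_cases hP : P ∈ Pr F N ∪ t
        · rwa [Set.insert_eq_of_mem hP]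
        have hP1 : P ∈ Pr F (N + 1) := hsub (Set.mem_insert _ _)
        have hPN : Ideal.absNorm P = N := by
          have h2 : Ideal.absNorm P < N + 1 := hP1.2.2
          have h3 : ¬ Ideal.absNorm P < N := fun h => hP (Or.inl ⟨hP1.1, hP1.2.1, h⟩)
          omega
        refine hstep P hP1.1 hP1.2.1 (by omega) _ ?_ ?_ hP h1
        · rw [hPN]; exact Set.subset_union_left
        · rw [hPN]
          exact Set.union_subset (Pr_mono (Nat.le_succ _))
            ((Set.subset_insert _ _).trans hsub)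
    have h1 := key s ((Pr_finite (N + 1)).subset hs') hs'
    rwa [Set.union_eq_self_of_subset_left hs] at h1
  have all : ∀ N, N₁ ≤ N → Z (Pr F N) := by
    intro N hN
    induction N, hN using Nat.le_induction with
    | base => exact h0
    | succ N hN ih => exact main N hN ih _ (Pr_mono (Nat.le_succ _)) subset_rfl
  exact main N hN (all N hN)

theorem tower' (Z : Set (Ideal (𝓞 F)) → Prop) (N₁ : ℕ) (h0 : Z (Pr F N₁))
    (hstep : ∀ P : Ideal (𝓞 F), P.IsPrime → P ≠ ⊥ → N₁ ≤ Ideal.absNorm P →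
      ∀ s, Pr F (Ideal.absNorm P) ⊆ s → s ⊆ Pr F (Ideal.absNorm P + 1) → P ∉ s → Z s →
        Z (insert P s)) (N : ℕ) (hN : N₁ ≤ N) : Z (Pr F N) :=
  tower Z N₁ h0 hstep N hN _ subset_rfl (Pr_mono (Nat.le_succ _))

theorem mem_Sm_large {x : 𝓞 F} (hx : x ≠ 0) (N : ℕ)
    (h : Ideal.absNorm (Ideal.span {x}) < N) : x ∈ Sm (Pr F N) :=
  Sm_of_lt hx h subset_rfl

variable {M : Type} [AddCommGroup M] [Module ℚ M] (c : Cm (𝓞 F) M)

/-- the units generate a finite-dimensional space -/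
theorem units_fg : ∃ X : Set (𝓞 F), X.Finite ∧ X ⊆ Sm (Pr F 0) ∧
    Wd c (Pr F 0) ≤ Submodule.span ℚ (c.c '' X) := by
  have hfin : Module.Finite ℤ (Additive (𝓞 F)ˣ) := inferInstance
  obtain ⟨U, hU⟩ := hfin.fg_top
  refine ⟨(fun u : Additive (𝓞 F)ˣ => ((Additive.toMul u : (𝓞 F)ˣ) : 𝓞 F)) '' (U : Set _),
    U.finite_toSet.image _, ?_, ?_⟩
  · rintro _ ⟨u, _, rfl⟩
    refine ⟨(Additive.toMul u).ne_zero, fun Q hQ huQ => ?_⟩
    exact absurd (Ideal.eq_top_of_isUnit_mem Q huQ (Additive.toMul u).isUnit) hQ.ne_top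
  · have key : ∀ u : Additive (𝓞 F)ˣ, c.c ((Additive.toMul u : (𝓞 F)ˣ) : 𝓞 F) ∈
        Submodule.span ℚ (c.c ''
          ((fun u : Additive (𝓞 F)ˣ => ((Additive.toMul u : (𝓞 F)ˣ) : 𝓞 F)) '' (U : Set _))) := by
      intro u
      have hu : u ∈ Submodule.span ℤ (U : Set (Additive (𝓞 F)ˣ)) := by rw [hU]; trivial
      have hf : ∃ f : Additive (𝓞 F)ˣ →+ M, ∀ u, f u =
          c.c ((Additive.toMul u : (𝓞 F)ˣ) : 𝓞 F) :=
        ⟨{ toFun := fun u => c.c ((Additive.toMul u : (𝓞 F)ˣ) : 𝓞 F)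
           map_zero' := by
             change c.c ((1 : (𝓞 F)ˣ) : 𝓞 F) = 0
             rw [Units.val_one, c.one]
           map_add' := fun a b => by
             change c.c ((Additive.toMul a * Additive.toMul b : (𝓞 F)ˣ) : 𝓞 F) = _
             rw [Units.val_mul, c.mul _ _ (Units.ne_zero _) (Units.ne_zero _)] },
          fun u => rfl⟩
      obtain ⟨f, hf⟩ := hf
      rw [← hf]
      refine Submodule.span_induction (p := fun u _ => f u ∈ _) ?_ ?_ ?_ ?_ hu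
      · intro v hv
        rw [hf]
        exact Submodule.subset_span ⟨_, ⟨v, hv, rfl⟩, rfl⟩
      · rw [map_zero]; exact Submodule.zero_mem _
      · intro a b _ _ ha hb
        rw [map_add]; exact Submodule.add_mem _ ha hb
      · intro n a _ ha
        rw [map_zsmul, ← Int.cast_smul_eq_zsmul ℚ]
        exact Submodule.smul_mem _ _ ha
    unfold Wd
    rw [Submodule.span_le]
    rintro _ ⟨a, ha, rfl⟩
    have hu : IsUnit a := by
      by_contra h
      obtain ⟨Q, hQ, haQ⟩ := exists_max_ideal_of_mem_nonunits h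
      exact absurd (ha.2 Q hQ.isPrime haQ).2.2 (Nat.not_lt_zero _)
    obtain ⟨u, rfl⟩ := hu
    exact key (Additive.ofMul u)

/-- adding a prime, with the power trick -/
theorem Wd_insert' {s : Set (Ideal (𝓞 F))} {P : Ideal (𝓞 F)} (hP : P.IsPrime) (hP0 : P ≠ ⊥) :
    ∃ j ∈ Sm (insert P s), Wd c (insert P s) ≤ Wd c s ⊔ Submodule.span ℚ {c.c j} := by
  obtain ⟨n, hn, hpr⟩ := exists_pow_principal (F := F)
  obtain ⟨j, hj0, hj⟩ := hpr P hP0
  refine ⟨j, ⟨hj0, fun Q hQ hjQ => ?_⟩, ?_⟩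
  · have h1 : P ^ n ≤ Q := by rw [hj, Ideal.span_singleton_le_iff_mem]; exact hjQ
    have h2 : P ≤ Q := hQ.le_of_pow_le h1
    have h3 := (hP.isMaximal hP0).eq_of_le hQ.ne_top h2
    rw [← h3]
    exact Set.mem_insert _ _
  unfold Wd
  rw [Submodule.span_le]
  rintro _ ⟨a, ha, rfl⟩
  have ha0 : Ideal.span {a} ≠ (0 : Ideal (𝓞 F)) := by
    rw [Ne, Ideal.zero_eq_bot, Ideal.span_singleton_eq_bot]
    exact ha.1
  have hPu : ¬ IsUnit P := by
    rw [Ideal.isUnit_iff]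
    exact hP.ne_top
  obtain ⟨I, hI, hPI⟩ := (FiniteMultiplicity.of_not_isUnit hPu ha0).exists_eq_pow_mul_and_not_dvd
  set m := multiplicity P (Ideal.span {a}) with hm
  have hjm : Ideal.span {j ^ m} = (P ^ m) ^ n * ⊤ := by
    rw [← Ideal.span_singleton_pow, ← hj, ← Ideal.one_eq_top, mul_one, ← pow_mul, ← pow_mul,
      mul_comm]
  have han : Ideal.span {a ^ n} = (P ^ m) ^ n * I ^ n := by
    rw [← Ideal.span_singleton_pow, hI, mul_pow]
  have h1 := cls c (s := s) (pow_ne_zero n ha.1) (pow_ne_zero m hj0) han hjm (by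
    intro Q hQ hIQ
    have hIQ := hQ.le_of_pow_le hIQ
    have h2 : a ∈ Q := by
      rw [← Ideal.span_singleton_le_iff_mem, hI]
      exact Ideal.mul_le_right.trans hIQ
    rcases ha.2 Q hQ h2 with h3 | h3
    · rw [h3] at hIQ
      exact absurd (Ideal.dvd_iff_le.2 hIQ) hPI
    · exact h3) (fun Q hQ h => absurd (top_le_iff.1 h) hQ.ne_top)
  rw [c.pow j hj0, c.pow a ha.1] at h1
  have hnq : (n : ℚ) ≠ 0 := by exact_mod_cast hn.ne'
  have h2 : c.c a = (n : ℚ)⁻¹ • ((n : ℚ) • c.c a - (m : ℚ) • c.c j) +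
      ((n : ℚ)⁻¹ * (m : ℚ)) • c.c j := by
    rw [smul_sub, smul_smul, smul_smul, inv_mul_cancel₀ hnq, one_smul]
    abel
  rw [h2]
  exact Submodule.add_mem_sup (Submodule.smul_mem _ _ h1)
    (Submodule.smul_mem _ _ (Submodule.mem_span_singleton_self _))

/-- the smooth elements generate a finite-dimensional space -/
theorem Wd_fg (N : ℕ) : ∃ X : Set (𝓞 F), X.Finite ∧ X ⊆ Sm (Pr F N) ∧
    Wd c (Pr F N) ≤ Submodule.span ℚ (c.c '' X) := by
  refine tower' (fun s => ∃ X : Set (𝓞 F), X.Finite ∧ X ⊆ Sm s ∧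
    Wd c s ≤ Submodule.span ℚ (c.c '' X)) 0 (units_fg c) ?_ N (Nat.zero_le _)
  rintro P hP hP0 - s - - - ⟨X, hX, hXs, hXW⟩
  obtain ⟨j, hj, hjW⟩ := Wd_insert' c (s := s) hP hP0
  refine ⟨insert j X, hX.insert j, ?_, ?_⟩
  · rintro x (rfl | hx)
    · exact hj
    · exact Sm_mono (Set.subset_insert _ _) (hXs hx)
  · refine hjW.trans (sup_le (hXW.trans (Submodule.span_mono
      (Set.image_mono (Set.subset_insert _ _)))) ?_)
    rw [Submodule.span_singleton_le_iff_mem]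
    exact Submodule.subset_span ⟨j, Set.mem_insert _ _, rfl⟩

/-- a bound for the houses of finitely many elements -/
theorem house_bound (X : Set (𝓞 F)) (hX : X.Finite) : ∃ B : ℝ, ∀ x ∈ X, house (x : F) ≤ B := by
  obtain ⟨B, hB⟩ := (hX.image fun x : 𝓞 F => house (x : F)).bddAbove
  exact ⟨B, fun x hx => hB ⟨x, hx, rfl⟩⟩

/-- a bound for the norms of finitely many elements -/
theorem norm_bound (X : Set (𝓞 F)) (hX : X.Finite) : ∃ B : ℕ, ∀ x ∈ X,
    Ideal.absNorm (Ideal.span {x}) < B := by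
  obtain ⟨B, hB⟩ := (hX.image fun x : 𝓞 F => Ideal.absNorm (Ideal.span {x})).bddAbove
  exact ⟨B + 1, fun x hx => Nat.lt_succ_of_le (hB ⟨x, hx, rfl⟩)⟩

theorem le_Y97 {P : Ideal (𝓞 F)} {B : ℝ} (hY : Cst F ≤ Yp F (Ideal.absNorm P))
    (h : B ≤ Yp F (Ideal.absNorm P)) (i : ℕ) (hi : 1 ≤ i) : B ≤ Yp F (Ideal.absNorm P) ^ i :=
  h.trans (le_self_pow₀ ((one_le_Cst F).trans hY) (by omega))

/-- the uniformizers -/
theorem exists_pi' {P : Ideal (𝓞 F)} (hP : P.IsPrime) (hP0 : P ≠ ⊥)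
    (hY : Cst F ≤ Yp F (Ideal.absNorm P)) {s : Set (Ideal (𝓞 F))}
    (hs : Pr F (Ideal.absNorm P) ⊆ s) : ∃ π : 𝓞 F, π ≠ 0 ∧ π ∈ P ∧
      house (π : F) ≤ Yp F (Ideal.absNorm P) ^ 97 ∧
      Ideal.absNorm (Ideal.span {π}) < Ideal.absNorm P ^ 2 ∧ π ∈ Sm (insert P s) ∧
      Wd c (insert P s) ≤ Wd c s ⊔ Submodule.span ℚ {c.c π} := by
  obtain ⟨π, hπ0, hπP, hπ⟩ := exists_pi hP0 hY
  have h1Y : 1 ≤ Yp F (Ideal.absNorm P) := (one_le_Cst F).trans hY
  have h97 : house (π : F) ≤ Yp F (Ideal.absNorm P) ^ 97 := by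
    refine hπ.trans ?_
    rw [pow_succ, mul_comm]
    exact mul_le_mul_of_nonneg_left hY (by positivity)
  have hn := norm_lt_of_house191 hY (h97.trans (pow_le_pow_right₀ h1Y (by norm_num)))
  obtain ⟨J, hJ, hJ'⟩ := cofactor hs hπ0 hπP hn
  refine ⟨π, hπ0, hπP, h97, hn, ⟨hπ0, fun Q hQ hπQ => ?_⟩, Wd_insert c hπ0 hP hJ hJ'⟩
  have h1 : P * J ≤ Q := by rw [← hJ, Ideal.span_singleton_le_iff_mem]; exact hπQ
  rcases hQ.mul_le.1 h1 with h2 | h2
  · have h3 := (hP.isMaximal hP0).eq_of_le hQ.ne_top h2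
    rw [← h3]
    exact Set.mem_insert _ _
  · exact Set.mem_insert_of_mem _ (hJ' Q hQ h2)

/-- generation by small elements -/
theorem gen_small : ∃ N₂ : ℕ, ∀ P : Ideal (𝓞 F), P.IsPrime → P ≠ ⊥ → N₂ ≤ Ideal.absNorm P →
    Cst F ≤ Yp F (Ideal.absNorm P) ∧ ∀ s, Pr F (Ideal.absNorm P) ⊆ s →
      s ⊆ Pr F (Ideal.absNorm P + 1) → ∀ x ∈ Sm s, c.c x ∈ Submodule.span ℚ (c.c '' (Sm s ∩
        {a | house (a : F) ≤ Yp F (Ideal.absNorm P) ^ 97})) := by
  obtain ⟨N₁, hN₁⟩ := Yp_large F (Cst F)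
  obtain ⟨X, hX, hXs, hXW⟩ := Wd_fg c N₁
  obtain ⟨B, hB⟩ := house_bound X hX
  obtain ⟨N₂, hN₂⟩ := Yp_large F B
  refine ⟨max N₁ N₂, fun P hP hP0 hPN => ?_⟩
  have hY := hN₁ _ ((le_max_left _ _).trans hPN)
  have hYB := hN₂ _ ((le_max_right _ _).trans hPN)
  refine ⟨hY, fun s hs hs' x hx => ?_⟩
  set G := Submodule.span ℚ (c.c '' (Sm s ∩
        {a | house (a : F) ≤ Yp F (Ideal.absNorm P) ^ 97})) with hG
  have key : s ⊆ s → Wd c s ≤ G := by
    refine tower (fun s' => s' ⊆ s → Wd c s' ≤ G) N₁ ?_ ?_ (Ideal.absNorm P)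
      ((le_max_left _ _).trans hPN) s hs hs'
    · intro h1
      refine hXW.trans ?_
      rw [Submodule.span_le]
      rintro _ ⟨a, ha, rfl⟩
      exact Submodule.subset_span ⟨a, ⟨Sm_mono h1 (hXs ha),
        (hB a ha).trans (le_Y97 hY hYB 97 (by norm_num))⟩, rfl⟩
    · intro Q hQ hQ0 hQN s' hs1 hs2 hQs ih hsub
      obtain ⟨π, hπ0, hπQ, hπ, hπn, hπS, hW⟩ := exists_pi' c hQ hQ0 (hN₁ _ hQN) hs1
      refine hW.trans (sup_le (ih ((Set.subset_insert _ _).trans hsub)) ?_)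
      rw [Submodule.span_singleton_le_iff_mem]
      refine Submodule.subset_span ⟨π, ⟨Sm_mono hsub hπS, hπ.trans ?_⟩, rfl⟩
      refine pow_le_pow_left₀ (Yp_nonneg F _) (Yp_mono F ?_) _
      have h1 := (hs' (hsub (Set.mem_insert _ _))).2.2
      omega
  exact key subset_rfl (cW' c hx)

end Pool.Agent.V8H63.NF
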